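import Mathlib
import Pool.Agent.Helper669.Forcing

set_option autoImplicit false

/-!
# The question in the forcing language

The forcing relation is the one of `Pool.Agent.Helper669.Forcing`: a sentence is the set of the
conditions which force it. Every ordinal of the extension is an ordinal `α` of the ground model,
and is represented here by the well-ordered set `α.ToType`; a function or relation of the extension
between (sets which are in bijection with) ground model sets is given by a name, that is by a map
which sends each pair to the set of the conditions attached to it.
-/

namespace Run7.h413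

open Cardinal Pool.Agent.Helper669.Forcing

section

variable (P : Type) [Preorder P]

/-- In the extension there is an injective function from `A` to `B`. -/
def InjN (A B : Type) : Set P := fex fun E : A → B → Set P => fand (IsFun E) (IsInj E)

/-- In the extension `α` is a cardinal: there is no injection from `α` to a smaller ordinal. -/
def CardN (α : Ordinal.{0}) : Set P :=
  fall fun β : Ordinal.{0} => fall fun _ : β < α => fnot (InjN P α.ToType β.ToType)

/-- In the extension `β` is the least cardinal above `α`. -/
def SuccN (α β : Ordinal.{0}) : Set P :=
  fand (fground (α < β)) (fand (CardN P β)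
    (fall fun γ : Ordinal.{0} => fall fun _ : γ < β => InjN P γ.ToType α.ToType))

variable {P}

/-- In the extension, the relation named by `E` restricted to the set named by `S` is an injective
function to `B`. -/
def InjOn {T B : Type} (S : T → Set P) (E : T → B → Set P) : Set P :=
  fand (fall fun x : T => fimp (meets (S x)) (fex fun b : B => meets (E x b)))
  (fand (fall fun x : T => fall fun b : B => fall fun b' : B =>
    fimp (fand (meets (S x)) (fand (meets (E x b)) (meets (E x b')))) (fground (b = b')))
    (fall fun x : T => fall fun x' : T => fall fun b : B =>
      fimp (fand (fand (meets (S x)) (meets (S x'))) (fand (meets (E x b)) (meets (E x' b))))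
        (fground (x = x'))))

/-- In the extension the set named by `S` has cardinality less than the cardinal `δ`: it injects
into a smaller ordinal. -/
def SmallN (δ : Ordinal.{0}) {T : Type} (S : T → Set P) : Set P :=
  fex fun β : Ordinal.{0} => fex fun _ : β < δ => fex fun E : T → β.ToType → Set P => InjOn S E

/-- In the extension: the relation named by `R` is a strict order on `T` in which the predecessors
of each element are comparable, and `h` is a strictly increasing height function with values in
`δ`, such that each element has predecessors of all smaller heights. -/
def TreeN (δ : Ordinal.{0}) {T : Type} (R : T → T → Set P) (h : T → δ.ToType → Set P) : Set P :=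
  fand (IsFun h)
  (fand (fall fun x : T => fall fun y : T => fall fun z : T =>
    fimp (fand (meets (R x y)) (meets (R y z))) (meets (R x z)))
  (fand (fall fun x : T => fall fun y : T => fall fun z : T =>
    fimp (fand (meets (R x z)) (meets (R y z)))
      (fnot (fand (fnot (fground (x = y))) (fand (fnot (meets (R x y))) (fnot (meets (R y x)))))))
  (fand (fall fun x : T => fall fun y : T => fall fun a : δ.ToType => fall fun b : δ.ToType =>
    fimp (fand (meets (R x y)) (fand (meets (h x a)) (meets (h y b)))) (fground (a < b)))
  (fall fun y : T => fall fun b : δ.ToType => fall fun a : δ.ToType => fall fun _ : a < b =>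
    fimp (meets (h y b)) (fex fun x : T => fand (meets (R x y)) (meets (h x a)))))))

/-- In the extension: the set named by `S` is a chain of `R`. -/
def ChainN {T : Type} (R : T → T → Set P) (S : T → Set P) : Set P :=
  fall fun x : T => fall fun y : T => fimp (fand (meets (S x)) (meets (S y)))
    (fnot (fand (fnot (fground (x = y))) (fand (fnot (meets (R x y))) (fnot (meets (R y x))))))

variable (P)

/-- In the extension there is a `δ`-Aronszajn tree: a tree of height `δ` with levels and chains of
size less than `δ`. (The underlying set is any set `T` of the ground model; in the extension each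
set is in bijection with such a set.) -/
def AronN (δ : Ordinal.{0}) : Set P :=
  fex fun T : Type => fex fun R : T → T → Set P => fex fun h : T → δ.ToType → Set P =>
    fand (TreeN δ R h)
    (fand (fall fun a : δ.ToType => fand (fex fun x : T => meets (h x a)) (SmallN δ fun x => h x a))
      (fall fun S : T → Set P => fimp (ChainN R S) (SmallN δ S)))

/-- In the extension there is a `μ⁺⁺`-Aronszajn tree. -/
def AronPP (μ : Ordinal.{0}) : Set P :=
  fex fun α : Ordinal.{0} => fex fun β : Ordinal.{0} =>
    fand (SuccN P μ α) (fand (SuccN P α β) (AronN P β))

variable {P}

/-- In the extension: the subset of `κ` named by `C` is closed and unbounded in `κ`. -/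
def ClubN (κ : Ordinal.{0}) (C : κ.ToType → Set P) : Set P :=
  fand (fall fun a : κ.ToType => fex fun b : κ.ToType => fand (fground (a ≤ b)) (meets (C b)))
    (fall fun b : κ.ToType => fall fun _ : ∃ a, a < b =>
      fimp (fall fun a : κ.ToType => fall fun _ : a < b =>
        fex fun c : κ.ToType => fand (fground (a < c ∧ c < b)) (meets (C c))) (meets (C b)))

variable (P)

/-- In the extension: `κ` is a cardinal, its cofinality is uncountable, and it is singular. -/
def SingN (κ : Ordinal.{0}) : Set P :=
  fand (CardN P κ)
  (fand (fall fun E : ℕ → κ.ToType → Set P => fimp (IsFun E) (fex fun b : κ.ToType =>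
    fall fun n : ℕ => fall fun a : κ.ToType => fimp (meets (E n a)) (fground (a < b))))
    (fex fun β : Ordinal.{0} => fex fun _ : β < κ => fex fun E : β.ToType → κ.ToType → Set P =>
      fand (IsFun E) (fall fun b : κ.ToType => fex fun x : β.ToType => fex fun a : κ.ToType =>
        fand (fground (b ≤ a)) (meets (E x a)))))

/-- In the extension: the set of the cardinals `μ < κ` with a `μ⁺⁺`-Aronszajn tree is stationary in
`κ`. -/
def StatN (κ : Ordinal.{0}) : Set P :=
  fall fun C : κ.ToType → Set P => fimp (ClubN κ C) (fex fun b : κ.ToType =>
    fand (meets (C b)) (fand (CardN P (Ordinal.ToType.toOrd b).1)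
      (AronPP P (Ordinal.ToType.toOrd b).1)))

/-- In the extension: for some singular cardinal `κ` of uncountable cofinality, the set of the
cardinals `μ < κ` with a `μ⁺⁺`-Aronszajn tree is stationary in `κ`, but there is no
`κ⁺⁺`-Aronszajn tree. -/
def NegQ : Set P :=
  fex fun κ : Ordinal.{0} => fand (SingN P κ) (fand (StatN P κ)
    (fex fun α : Ordinal.{0} => fex fun β : Ordinal.{0} =>
      fand (SuccN P κ α) (fand (SuccN P α β) (fnot (AronN P β)))))

end

end Run7.h413
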