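import Mathlib
import Pool.Agent.Run7.h413.Defs

set_option autoImplicit false

/-!
# Measurable cardinals, and a stronger form of the negation of the question
-/

namespace Run7.h413

open Cardinal Pool.Agent.Helper669.Forcing

/-- `κ` is measurable: it is uncountable, and on the set of the ordinals below `κ` there is a
nonprincipal ultrafilter which is closed under intersections of fewer than `κ` sets. -/
def Meas (κ : Cardinal.{0}) : Prop :=
  ℵ₀ < κ ∧ ∃ V : Ultrafilter κ.ord.ToType,
    (∀ (ι : Type) (A : ι → Set κ.ord.ToType), #ι < κ → (∀ i, A i ∈ V) → (⋂ i, A i) ∈ V) ∧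
      ∀ a, {a} ∉ V

section

variable (P : Type) [Preorder P]

/-- In the extension: each infinite cardinal `μ < κ` has a `μ⁺⁺`-Aronszajn tree. -/
def AllN (κ : Ordinal.{0}) : Set P :=
  fall fun b : κ.ToType => fimp (fand (fground (Ordinal.omega0 ≤ (Ordinal.ToType.toOrd b).1))
    (CardN P (Ordinal.ToType.toOrd b).1)) (AronPP P (Ordinal.ToType.toOrd b).1)

/-- In the extension: for some singular cardinal `κ` of uncountable cofinality, each infinite
cardinal `μ < κ` has a `μ⁺⁺`-Aronszajn tree, the set of the cardinals `μ < κ` with a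
`μ⁺⁺`-Aronszajn tree is stationary in `κ`, and there is no `κ⁺⁺`-Aronszajn tree. -/
def NegA : Set P :=
  fex fun κ : Ordinal.{0} => fand (SingN P κ) (fand (AllN P κ) (fand (StatN P κ)
    (fex fun α : Ordinal.{0} => fex fun β : Ordinal.{0} =>
      fand (SuccN P κ α) (fand (SuccN P α β) (fnot (AronN P β))))))

end

end Run7.h413
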