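import Mathlib
import Pool.Agent.W873.Ta.StepB4
import Pool.Agent.W873.Ta.Nm

set_option autoImplicit false
set_option linter.unusedSectionVars false
set_option linter.unusedVariables false

/-!
# The forcing: Cohen reals, and partial functions whose values depend on the Cohen reals
-/

namespace Run7.h413

open Set Cardinal Pool.Agent.Helper669.Forcing
open Pool.Agent.W873.Vi (Co Ik)
open Pool.Agent.W873.Ta (Pt Re Pre Rg Rg_mono pm pm_lt pm_ge le_pm)

/-- the data: indices `J` with levels in `K`, sets of values, blocks and their bounds -/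
structure Dat (K : Type) where
  J : Type
  lev : J → K
  Val : J → Type
  inh : ∀ j, Nonempty (Val j)
  Bk : Type
  blk : J → Bk
  bd : Bk → Cardinal.{0}
  inf : ∀ b, ℵ₀ ≤ bd b

/-- `f` only depends on the coordinates below `a` -/
def De {K V : Type} [LT K] (a : K) (f : Pt K → V) : Prop :=
  ∀ y y' : Pt K, (∀ b, b < a → y b = y' b) → f y = f y'

section

variable {K : Type} [LinearOrder K]

/-- the second coordinate: partial functions -/
@[ext] structure Un (D : Dat K) where
  v : ∀ j, Option (Pt K → D.Val j)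
  sm : ∀ b, #{j | D.blk j = b ∧ v j ≠ none} ≤ D.bd b
  ok : ∀ j f, v j = some f → De (D.lev j) f

variable {D : Dat K}

instance : Preorder (Un D) where
  le u u' := ∀ j f, u'.v j = some f → u.v j = some f
  le_refl _ _ _ h := h
  le_trans _ _ _ h h' j f hf := h j f (h' j f hf)

theorem Un.le_def {u u' : Un D} : u ≤ u' ↔ ∀ j f, u'.v j = some f → u.v j = some f := Iff.rfl

variable (D) in
/-- the conditions -/
@[ext] structure Fc where
  p : Co K
  u : Un D

instance : Preorder (Fc D) where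
  le r s := r.p ≤ s.p ∧ ∀ j f, s.u.v j = some f → ∃ g, r.u.v j = some g ∧ ∀ y ∈ Rg r.p, g y = f y
  le_refl _ := ⟨le_rfl, fun _ f hf => ⟨f, hf, fun _ _ => rfl⟩⟩
  le_trans r s t h h' := by
    refine ⟨h.1.trans h'.1, fun j f hf => ?_⟩
    obtain ⟨g, hg, h1⟩ := h'.2 j f hf
    obtain ⟨k, hk, h2⟩ := h.2 j g hg
    exact ⟨k, hk, fun y hy => (h2 y hy).trans (h1 y (Rg_mono h.1 hy))⟩

theorem Fc.le_def {r s : Fc D} : r ≤ s ↔ r.p ≤ s.p ∧ ∀ j f, s.u.v j = some f →
    ∃ g, r.u.v j = some g ∧ ∀ y ∈ Rg r.p, g y = f y := Iff.rfl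

theorem Fc.mk_le {p p' : Co K} {u u' : Un D} (hp : p' ≤ p) (hu : u' ≤ u) :
    (⟨p', u'⟩ : Fc D) ≤ ⟨p, u⟩ :=
  ⟨hp, fun j f hf => ⟨f, hu j f hf, fun _ _ => rfl⟩⟩

theorem Fc.ext' {r s : Fc D} (h1 : ∀ a, r.p.v a = s.p.v a) (h2 : ∀ j, r.u.v j = s.u.v j) : r = s :=
  Fc.ext (Pool.Agent.W873.Vi.Co.ext (funext h1)) (Un.ext (funext h2))

/-! ### The empty partial function, gluing, restriction -/

/-- the empty partial function -/
def Un.one : Un D := ⟨fun _ => none, fun b => by simp, fun _ _ h => by simp at h⟩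

theorem Un.le_one (u : Un D) : u ≤ Un.one := fun j f hf => by simp [Un.one] at hf

instance : Nonempty (Fc D) := ⟨⟨Co.one, Un.one⟩⟩

theorem sm_add {b : D.Bk} {S T : Set D.J} (hS : #S ≤ D.bd b) (hT : #T ≤ D.bd b) :
    #(S ∪ T : Set D.J) ≤ D.bd b :=
  (mk_union_le _ _).trans (add_le_of_le (D.inf b) hS hT)

/-- `s` at the indices with property `B`, `r` elsewhere -/
noncomputable def Un.mrg (B : Set D.J) (s r : Un D) : Un D := by
  classical
  exact ⟨fun j => if j ∈ B then s.v j else r.v j, fun b => by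
    refine (mk_le_mk_of_subset ?_).trans (sm_add (s.sm b) (r.sm b))
    rintro j ⟨hb, hj⟩
    by_cases h : j ∈ B
    · rw [if_pos h] at hj
      exact Or.inl ⟨hb, hj⟩
    · rw [if_neg h] at hj
      exact Or.inr ⟨hb, hj⟩, fun j f hf => by
    by_cases h : j ∈ B
    · rw [if_pos h] at hf
      exact s.ok j f hf
    · rw [if_neg h] at hf
      exact r.ok j f hf⟩

theorem Un.mrg_pos {B : Set D.J} {s r : Un D} {j : D.J} (h : j ∈ B) :
    (Un.mrg B s r).v j = s.v j := by
  unfold Un.mrg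
  exact if_pos h

theorem Un.mrg_neg {B : Set D.J} {s r : Un D} {j : D.J} (h : j ∉ B) :
    (Un.mrg B s r).v j = r.v j := by
  unfold Un.mrg
  exact if_neg h

/-- the indices below `m` -/
def Lw (D : Dat K) (m : K) : Set D.J := {j | D.lev j < m}

/-- restriction of partial functions -/
noncomputable def um (m : K) (u : Un D) : Un D := Un.mrg (Lw D m) u Un.one

theorem um_lt {m : K} {u : Un D} {j : D.J} (h : D.lev j < m) : (um m u).v j = u.v j :=
  Un.mrg_pos h

theorem um_ge {m : K} {u : Un D} {j : D.J} (h : ¬ D.lev j < m) : (um m u).v j = none :=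
  Un.mrg_neg h

/-- restriction to `m` -/
noncomputable def rm (m : K) (r : Fc D) : Fc D := ⟨pm m r.p, um m r.u⟩

/-- gluing at `m` -/
noncomputable def glue (m : K) (s r : Fc D) : Fc D :=
  ⟨Co.mrg (Iio m) s.p r.p, Un.mrg (Lw D m) s.u r.u⟩

variable {m : K} {r s t : Fc D}

theorem rm_p_lt {a : K} (h : a < m) : (rm m r).p.v a = r.p.v a := pm_lt h
theorem rm_p_ge {a : K} (h : ¬ a < m) : (rm m r).p.v a = [] := pm_ge h
theorem rm_u_lt {j : D.J} (h : D.lev j < m) : (rm m r).u.v j = r.u.v j := um_lt h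
theorem rm_u_ge {j : D.J} (h : ¬ D.lev j < m) : (rm m r).u.v j = none := um_ge h
theorem glue_p_lt {a : K} (h : a < m) : (glue m s r).p.v a = s.p.v a := Co.mrg_pos h
theorem glue_p_ge {a : K} (h : ¬ a < m) : (glue m s r).p.v a = r.p.v a := Co.mrg_neg h
theorem glue_u_lt {j : D.J} (h : D.lev j < m) : (glue m s r).u.v j = s.u.v j := Un.mrg_pos h
theorem glue_u_ge {j : D.J} (h : ¬ D.lev j < m) : (glue m s r).u.v j = r.u.v j := Un.mrg_neg h

theorem le_rm : r ≤ rm m r := by
  refine ⟨le_pm, fun j f hf => ?_⟩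
  by_cases h : D.lev j < m
  · rw [rm_u_lt h] at hf
    exact ⟨f, hf, fun _ _ => rfl⟩
  · rw [rm_u_ge h] at hf
    exact absurd hf (by simp)

theorem rm_eq_iff : rm m r = rm m s ↔ (∀ a < m, r.p.v a = s.p.v a) ∧
    ∀ j, D.lev j < m → r.u.v j = s.u.v j := by
  constructor
  · intro h
    refine ⟨fun a ha => ?_, fun j hj => ?_⟩
    · rw [← rm_p_lt (r := r) ha, h, rm_p_lt ha]
    · rw [← rm_u_lt (r := r) hj, h, rm_u_lt hj]
  · rintro ⟨h1, h2⟩
    refine Fc.ext' (fun a => ?_) fun j => ?_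
    · by_cases h : a < m
      · rw [rm_p_lt h, rm_p_lt h, h1 a h]
      · rw [rm_p_ge h, rm_p_ge h]
    · by_cases h : D.lev j < m
      · rw [rm_u_lt h, rm_u_lt h, h2 j h]
      · rw [rm_u_ge h, rm_u_ge h]

theorem rm_rm {m' : K} (h : m ≤ m') : rm m (rm m' r) = rm m r :=
  rm_eq_iff.2 ⟨fun _ ha => rm_p_lt (ha.trans_le h), fun _ hj => rm_u_lt (hj.trans_le h)⟩

theorem rm_idem : rm m (rm m r) = rm m r := rm_rm le_rfl

theorem rm_p (hs : rm m s = s) {a : K} (ha : ¬ a < m) : s.p.v a = [] := by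
  rw [← hs]
  exact rm_p_ge ha

theorem rm_u (hs : rm m s = s) {j : D.J} (hj : ¬ D.lev j < m) : s.u.v j = none := by
  rw [← hs]
  exact rm_u_ge hj

theorem rm_self (h1 : ∀ a, ¬ a < m → s.p.v a = []) (h2 : ∀ j, ¬ D.lev j < m → s.u.v j = none) :
    rm m s = s := by
  refine Fc.ext' (fun a => ?_) fun j => ?_
  · by_cases h : a < m
    · exact rm_p_lt h
    · rw [rm_p_ge h, h1 a h]
  · by_cases h : D.lev j < m
    · exact rm_u_lt h
    · rw [rm_u_ge h, h2 j h]

theorem rm_up {m' : K} (h : m ≤ m') (hs : rm m s = s) : rm m' s = s :=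
  rm_self (fun a ha => rm_p hs fun h' => ha (h'.trans_le h))
    fun j hj => rm_u hs fun h' => hj (h'.trans_le h)

theorem rm_le (h1 : ∀ a, r.p.v a ≠ [] → a < m) (h2 : ∀ j, r.u.v j ≠ none → D.lev j < m) :
    rm m r ≤ r := by
  rw [rm_self (fun a ha => by_contra fun h => ha (h1 a h)) fun j hj => by_contra fun h => hj (h2 j h)]

/-- an element of the region with given coordinates below `m` -/
theorem exists_pt {p : Co K} {y : Pt K} (h : ∀ a < m, Pre (p.v a) (y a)) :
    ∃ y' ∈ Rg p, ∀ a < m, y' a = y a :=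
  ⟨Pool.Agent.W873.Ta.owp p y, Pool.Agent.W873.Ta.in_owp p y,
    fun a ha => Pool.Agent.W873.Ta.owp_of_pre (h a ha)⟩

theorem rm_mono (h : r ≤ s) : rm m r ≤ rm m s := by
  refine ⟨fun a => ?_, fun j f hf => ?_⟩
  · by_cases ha : a < m
    · rw [rm_p_lt ha, rm_p_lt ha]
      exact h.1 a
    · rw [rm_p_ge ha]
      exact List.nil_prefix
  · by_cases hj : D.lev j < m
    · rw [rm_u_lt hj] at hf
      obtain ⟨g, hg, h1⟩ := h.2 j f hf
      refine ⟨g, by rw [rm_u_lt hj, hg], fun y hy => ?_⟩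
      obtain ⟨y', hy', h2⟩ := exists_pt (m := m) (p := r.p) (y := y) fun a ha => by
        have := hy a
        rwa [rm_p_lt ha] at this
      have h3 := r.u.ok j g hg y y' fun b hb => (h2 b (hb.trans hj)).symm
      have h4 := s.u.ok j f hf y y' fun b hb => (h2 b (hb.trans hj)).symm
      rw [h3, h4]
      exact h1 y' hy'
    · rw [rm_u_ge hj] at hf
      exact absurd hf (by simp)

theorem glue_p_le (hs : rm m s = s) : (glue m s r).p ≤ s.p := by
  intro a
  by_cases ha : a < m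
  · rw [glue_p_lt ha]
  · rw [rm_p hs ha]
    exact List.nil_prefix

theorem glue_le (hs : rm m s = s) (h : s ≤ rm m r) : glue m s r ≤ r := by
  refine ⟨fun a => ?_, fun j f hf => ?_⟩
  · by_cases ha : a < m
    · rw [glue_p_lt ha]
      have := h.1 a
      rwa [rm_p_lt ha] at this
    · rw [glue_p_ge ha]
  · by_cases hj : D.lev j < m
    · obtain ⟨g, hg, h1⟩ := h.2 j f (by rw [rm_u_lt hj, hf])
      exact ⟨g, by rw [glue_u_lt hj, hg], fun y hy => h1 y (Rg_mono (glue_p_le hs) hy)⟩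
    · exact ⟨f, by rw [glue_u_ge hj, hf], fun _ _ => rfl⟩

theorem glue_le' (hs : rm m s = s) : glue m s r ≤ s := by
  refine ⟨glue_p_le hs, fun j f hf => ⟨f, ?_, fun _ _ => rfl⟩⟩
  by_cases hj : D.lev j < m
  · rw [glue_u_lt hj, hf]
  · rw [rm_u hs hj] at hf
    exact absurd hf (by simp)

theorem rm_glue (hs : rm m s = s) : rm m (glue m s r) = s := by
  refine Fc.ext' (fun a => ?_) fun j => ?_
  · by_cases ha : a < m
    · rw [rm_p_lt ha, glue_p_lt ha]
    · rw [rm_p_ge ha, rm_p hs ha]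
  · by_cases hj : D.lev j < m
    · rw [rm_u_lt hj, glue_u_lt hj]
    · rw [rm_u_ge hj, rm_u hs hj]

/-- names below `m` -/
theorem rm_meets {N : Set (Fc D)} (hN : ∀ s ∈ N, rm m s = s) (h : r ∈ meets N) :
    rm m r ∈ meets N := by
  intro r' hr'
  have h1 : rm m r' ≤ rm m r := by
    have := rm_mono (m := m) hr'
    rwa [rm_idem] at this
  obtain ⟨r2, hr2, s, hs, h2⟩ := h _ (glue_le rm_idem h1)
  have h3 : rm m r2 ≤ rm m r' := by
    have := rm_mono (m := m) hr2
    rwa [rm_glue rm_idem] at this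
  refine ⟨glue m (rm m r2) r', glue_le rm_idem h3, s, hs, (glue_le' rm_idem).trans ?_⟩
  have := rm_mono (m := m) h2
  rwa [hN s hs] at this

/-- replacing the second coordinate by a literal extension -/
theorem literal {u : Un D} (h : ∀ j f, u.v j = some f → ∃ g, r.u.v j = some g ∧ ∀ y ∈ Rg r.p, g y = f y) :
    ∃ w : Un D, w ≤ u ∧ (∀ j, w.v j = (u.v j).or (r.u.v j)) ∧ (⟨r.p, w⟩ : Fc D) ≤ r ∧
      r ≤ ⟨r.p, w⟩ := by
  classical
  let v : ∀ j, Option (Pt K → D.Val j) := fun j => (u.v j).or (r.u.v j)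
  have hv1 : ∀ j f, u.v j = some f → v j = some f := fun j f hf => by simp [v, hf]
  have hv2 : ∀ j, u.v j = none → v j = r.u.v j := fun j hj => by simp [v, hj]
  refine ⟨⟨v, fun b => ?_, fun j f hf => ?_⟩, hv1, fun j => rfl, ⟨le_rfl, ?_⟩, ⟨le_rfl, ?_⟩⟩
  · refine (mk_le_mk_of_subset ?_).trans (sm_add (u.sm b) (r.u.sm b))
    rintro j ⟨hb, hj⟩
    by_cases h1 : u.v j = none
    · rw [hv2 j h1] at hj
      exact Or.inr ⟨hb, hj⟩
    · exact Or.inl ⟨hb, h1⟩
  · rcases h1 : u.v j with _ | g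
    · rw [hv2 j h1] at hf
      exact r.u.ok j f hf
    · rw [hv1 j g h1] at hf
      obtain rfl := Option.some.inj hf
      exact u.ok j _ h1
  · intro j f hf
    rcases h1 : u.v j with _ | g
    · exact ⟨f, by rw [← hf]; exact hv2 j h1, fun _ _ => rfl⟩
    · obtain ⟨k, hk, h2⟩ := h j g h1
      rw [hf] at hk
      obtain rfl := Option.some.inj hk
      exact ⟨g, hv1 j g h1, fun y hy => (h2 y hy).symm⟩
  · intro j f hf
    have hf' : v j = some f := hf
    rcases h1 : u.v j with _ | g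
    · rw [hv2 j h1] at hf'
      exact ⟨f, hf', fun _ _ => rfl⟩
    · rw [hv1 j g h1] at hf'
      obtain rfl := Option.some.inj hf'
      exact h j _ h1

/-- lower bounds: a linearly ordered family such that each block and each index only sees few
members -/
theorem Un.exists_lb {I : Type} [Nonempty I] (u : I → Un D) (hu : ∀ i i', u i ≤ u i' ∨ u i' ≤ u i)
    (hI : ∀ b, #(⋃ i, {j | D.blk j = b ∧ (u i).v j ≠ none} : Set D.J) ≤ D.bd b) :
    ∃ w : Un D, (∀ i, w ≤ u i) ∧ ∀ j f, w.v j = some f → ∃ i, (u i).v j = some f := by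
  classical
  let v : ∀ j, Option (Pt K → D.Val j) := fun j =>
    if h : ∃ i f, (u i).v j = some f then some h.choose_spec.choose else none
  have hv : ∀ i j f, (u i).v j = some f → v j = some f := by
    intro i j f hf
    have h : ∃ i f, (u i).v j = some f := ⟨i, f, hf⟩
    have h1 : v j = some h.choose_spec.choose := dif_pos h
    have h2 := h.choose_spec.choose_spec
    rw [h1]
    rcases hu i h.choose with hle | hle
    · have := hle j _ h2
      rw [hf] at this
      exact this.symm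
    · have := hle j f hf
      rw [h2] at this
      exact this
  have hv' : ∀ j f, v j = some f → ∃ i, (u i).v j = some f := by
    intro j f hf
    by_cases h : ∃ i f, (u i).v j = some f
    · have h1 : v j = some h.choose_spec.choose := dif_pos h
      rw [h1] at hf
      obtain rfl := Option.some.inj hf
      exact ⟨h.choose, h.choose_spec.choose_spec⟩
    · have h1 : v j = none := dif_neg h
      rw [h1] at hf
      exact absurd hf (by simp)
  refine ⟨⟨v, fun b => ?_, ?_⟩, fun i j f hf => hv i j f hf, hv'⟩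
  · refine (mk_le_mk_of_subset ?_).trans (hI b)
    rintro j ⟨hb, hj⟩
    obtain ⟨f, hf⟩ := Option.ne_none_iff_exists'.1 hj
    obtain ⟨i, hi⟩ := hv' j f hf
    exact mem_iUnion.2 ⟨i, hb, by simp [hi]⟩
  · intro j f hf
    obtain ⟨i, hi⟩ := hv' j f hf
    exact (u i).ok j f hi

theorem sm_iUnion_nat {b : D.Bk} {S : ℕ → Set D.J} (hS : ∀ n, #(S n) ≤ D.bd b) :
    #(⋃ n, S n) ≤ D.bd b := by
  refine (mk_iUnion_le_sum_mk (f := S)).trans ?_
  refine (sum_le_sum _ (fun _ => D.bd b) hS).trans ?_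
  rw [sum_const, Cardinal.lift_id, Cardinal.lift_id, mk_nat]
  exact mul_le_of_le (D.inf b) (D.inf b) le_rfl

/-- lower bounds of sequences -/
theorem Un.exists_lb_nat (u : ℕ → Un D) (hu : ∀ n, u (n + 1) ≤ u n) :
    ∃ u' : Un D, ∀ n, u' ≤ u n := by
  have hanti : ∀ n m, n ≤ m → u m ≤ u n := fun n m h => by
    induction m, h using Nat.le_induction with
    | base => exact le_rfl
    | succ m _ ih => exact (hu m).trans ih
  obtain ⟨w, hw, _⟩ := Un.exists_lb u (fun i i' => by
    rcases le_total i i' with h | h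
    · exact Or.inr (hanti _ _ h)
    · exact Or.inl (hanti _ _ h)) fun b => sm_iUnion_nat fun n => (u n).sm b
  exact ⟨w, hw⟩

end

end Run7.h413
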