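import Mathlib
import Pool.Agent.Run7.h413.Base

set_option autoImplicit false
set_option linter.unusedSectionVars false
set_option linter.unusedVariables false

/-!
# Meeting many dense sets with the second coordinate
-/

namespace Run7.h413

open Set Cardinal Pool.Agent.Helper669.Forcing
open Pool.Agent.W873.Vi (Co Ik)
open Pool.Agent.W873.Ta (Pt Re Pre Rg Rg_mono)

/-- definitions by recursion and choice -/
theorem exists_rec {T X : Type} [LinearOrder T] [WellFoundedLT T] [Nonempty X]
    (R : T → (T → X) → X → Prop)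
    (hR : ∀ t g g', (∀ s < t, g s = g' s) → ∀ x, R t g x → R t g' x)
    (hex : ∀ t g, (∀ s < t, R s g (g s)) → ∃ x, R t g x) : ∃ f : T → X, ∀ t, R t f (f t) := by
  classical
  obtain ⟨x0⟩ := ‹Nonempty X›
  let ch : T → (T → X) → X := fun t g => if h : ∃ x, R t g x then h.choose else x0
  have hch : ∀ t g, (∃ x, R t g x) → R t g (ch t g) := by
    intro t g h
    simp only [ch]
    rw [dif_pos h]
    exact h.choose_spec
  let wf := wellFounded_lt (α := T)
  let F : ∀ t : T, (∀ s : T, s < t → X) → X := fun t ih =>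
    ch t fun s => if h : s < t then ih s h else x0
  let f : T → X := wf.fix F
  have hf : ∀ t, f t = ch t fun s => if s < t then f s else x0 := by
    intro t
    have h1 : f t = F t fun s _ => f s := wf.fix_eq F t
    rw [h1]
    simp only [F, dite_eq_ite]
  refine ⟨f, fun t => ?_⟩
  induction t using wf.induction with
  | _ t ih =>
    have h1 : ∀ s < t, f s = (fun s => if s < t then f s else x0) s := fun s hs => by
      simp only
      rw [if_pos hs]
    have h2 : ∃ x, R t (fun s => if s < t then f s else x0) x := by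
      refine hex t _ fun s hs => ?_
      have h3 := hR s f (fun s => if s < t then f s else x0) (fun s' hs' => h1 s' (hs'.trans hs)) _
        (ih s hs)
      rwa [h1 s hs] at h3
    have h3 := hch t _ h2
    rw [← hf t] at h3
    exact hR t _ _ (fun s hs => (h1 s hs).symm) _ h3

section

variable {K : Type} [LinearOrder K] {D : Dat K}

/-- **meeting dense sets** `Φ t`, where at step `t` only the blocks in `N t` are extended -/
theorem hit {T : Type} [LinearOrder T] [WellFoundedLT T] (N : T → Set D.Bk)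
    (hN : ∀ b, #{t | b ∈ N t} ≤ D.bd b) (Φ : T → Un D → Prop)
    (hmono : ∀ t u u', u' ≤ u → Φ t u → Φ t u') (u0 : Un D)
    (hd : ∀ t, ∀ u ≤ u0, ∃ u' ≤ u, (∀ j, D.blk j ∉ N t → u'.v j = u.v j) ∧ Φ t u') :
    ∃ u' ≤ u0, (∀ j, (∀ t, D.blk j ∉ N t) → u'.v j = u0.v j) ∧ ∀ t, Φ t u' := by
  classical
  have : Nonempty (Un D) := ⟨u0⟩
  -- lower bounds
  have hlb : ∀ (S : Set T) (g : T → Un D), (∀ s ∈ S, g s ≤ u0) →
      (∀ s ∈ S, ∀ s' ∈ S, s' < s → g s ≤ g s') →
      (∀ s ∈ S, ∀ s' < s, s' ∈ S) →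
      (∀ s ∈ S, ∀ j, D.blk j ∉ N s → ∀ f, (g s).v j = some f → u0.v j = some f ∨
        ∃ s' < s, (g s').v j = some f) →
      ∃ w : Un D, w ≤ u0 ∧ (∀ s ∈ S, w ≤ g s) ∧ ∀ j f, w.v j = some f → u0.v j = some f ∨
        ∃ s ∈ S, (g s).v j = some f := by
    intro S g h1 h2 h3 h4
    obtain ⟨w, hw1, hw2⟩ := Un.exists_lb (D := D) (I := Option S) (fun i => i.elim u0 fun s => g s.1)
      (by
        rintro (_ | s) (_ | s')
        · exact Or.inl le_rfl
        · exact Or.inr (h1 _ s'.2)
        · exact Or.inl (h1 _ s.2)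
        · rcases lt_trichotomy s.1 s'.1 with h | h | h
          · exact Or.inr (h2 _ s'.2 _ s.2 h)
          · exact Or.inl (by
              have : s = s' := Subtype.ext h
              rw [this])
          · exact Or.inl (h2 _ s.2 _ s'.2 h)) (by
        intro b
        have h5 : ∀ s ∈ S, ∀ j, D.blk j = b → (g s).v j ≠ none → (u0.v j ≠ none) ∨
            ∃ s' : {t | b ∈ N t}, s'.1 ∈ S ∧ (g s'.1).v j ≠ none := by
          intro s
          induction s using (wellFounded_lt (α := T)).induction with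
          | _ s ih =>
            intro hs j hj hne
            by_cases hb : b ∈ N s
            · exact Or.inr ⟨⟨s, hb⟩, hs, hne⟩
            · obtain ⟨f, hf⟩ := Option.ne_none_iff_exists'.1 hne
              rcases h4 s hs j (by rwa [hj]) f hf with h6 | ⟨s', hs', h6⟩
              · exact Or.inl (by rw [h6]; simp)
              · exact ih s' hs' (h3 s hs s' hs') j hj (by rw [h6]; simp)
        have h6 : (⋃ i : Option S, {j | D.blk j = b ∧ ((fun i : Option S =>
            i.elim u0 fun s => g s.1) i).v j ≠ none}) ⊆ {j | D.blk j = b ∧ u0.v j ≠ none} ∪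
            ⋃ s : {t | b ∈ N t}, {j | D.blk j = b ∧ (g s.1).v j ≠ none} := by
          intro j hj
          obtain ⟨i, hj1, hj2⟩ := mem_iUnion.1 hj
          rcases i with _ | s
          · exact Or.inl ⟨hj1, hj2⟩
          · rcases h5 s.1 s.2 j hj1 hj2 with h7 | ⟨s', _, h7⟩
            · exact Or.inl ⟨hj1, h7⟩
            · exact Or.inr (mem_iUnion.2 ⟨s', hj1, h7⟩)
        refine (mk_le_mk_of_subset h6).trans (sm_add (u0.sm b) ?_)
        refine (mk_iUnion_le_sum_mk).trans ?_
        refine (sum_le_sum _ (fun _ => D.bd b) fun s : {t | b ∈ N t} => (g s.1).sm b).trans ?_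
        rw [sum_const, Cardinal.lift_id, Cardinal.lift_id]
        exact mul_le_of_le (D.inf b) (hN b) le_rfl)
    refine ⟨w, hw1 none, fun s hs => hw1 (some ⟨s, hs⟩), fun j f hf => ?_⟩
    obtain ⟨i, hi⟩ := hw2 j f hf
    rcases i with _ | s
    · exact Or.inl hi
    · exact Or.inr ⟨s.1, s.2, hi⟩
  obtain ⟨f, hf⟩ := exists_rec (T := T) (X := Un D) (fun t g x => x ≤ u0 ∧ (∀ s < t, x ≤ g s) ∧
    Φ t x ∧ ∀ j, D.blk j ∉ N t → ∀ f, x.v j = some f → u0.v j = some f ∨
      ∃ s < t, (g s).v j = some f) (by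
    intro t g g' hg x ⟨h1, h2, h3, h4⟩
    refine ⟨h1, fun s hs => hg s hs ▸ h2 s hs, h3, fun j hj f hf => ?_⟩
    rcases h4 j hj f hf with h5 | ⟨s, hs, h5⟩
    · exact Or.inl h5
    · exact Or.inr ⟨s, hs, hg s hs ▸ h5⟩) (by
    intro t g hg
    obtain ⟨w, hw1, hw2, hw3⟩ := hlb (Iio t) g (fun s hs => (hg s hs).1)
      (fun s hs s' _ h => (hg s hs).2.1 s' h) (fun s hs s' h => lt_trans h hs)
      fun s hs => (hg s hs).2.2.2
    obtain ⟨x, hx1, hx2, hx3⟩ := hd t w hw1
    refine ⟨x, hx1.trans hw1, fun s hs => hx1.trans (hw2 s hs), hx3, fun j hj f hf => ?_⟩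
    rw [hx2 j hj] at hf
    exact hw3 j f hf)
  obtain ⟨w, hw1, hw2, hw3⟩ := hlb Set.univ f (fun s _ => (hf s).1)
    (fun s _ s' _ h => (hf s).2.1 s' h) (fun s _ s' _ => mem_univ _)
    fun s _ => (hf s).2.2.2
  refine ⟨w, hw1, fun j hj => ?_, fun t => hmono t _ _ (hw2 t (mem_univ _)) (hf t).2.2.1⟩
  have h5 : ∀ s g, (f s).v j = some g → u0.v j = some g := by
    intro s
    induction s using (wellFounded_lt (α := T)).induction with
    | _ s ih =>
      intro g hg
      rcases (hf s).2.2.2 j (hj s) g hg with h6 | ⟨s', hs', h6⟩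
      · exact h6
      · exact ih s' hs' g h6
  rcases h6 : w.v j with _ | g
  · rcases h7 : u0.v j with _ | g
    · rfl
    · have := hw1 j g h7
      rw [h6] at this
      exact absurd this (by simp)
  · rcases hw3 j g h6 with h7 | ⟨s, _, h7⟩
    · exact h7.symm
    · exact (h5 s g h7).symm

end

end Run7.h413
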