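import Mathlib
import Pool.Agent.Run7.h413.Defs

set_option autoImplicit false
set_option linter.unusedSectionVars false
set_option linter.unusedVariables false

/-!
# General facts about the sentences
-/

namespace Run7.h413

open Set Cardinal Pool.Agent.Helper669.Forcing

section

variable {P : Type} [Preorder P]

theorem md {N : Set P} {p q : P} (h : p ∈ meets N) (hq : q ≤ p) : q ∈ meets N :=
  down_meets N p h q hq

theorem meets_dense {N : Set P} {p : P} (h : ∀ q ≤ p, ∃ r ≤ q, r ∈ meets N) : p ∈ meets N := by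
  intro q hq
  obtain ⟨r, hr, h'⟩ := h q hq
  obtain ⟨s, hs, n, hn, hsn⟩ := h' r le_rfl
  exact ⟨s, hs.trans hr, n, hn, hsn⟩

theorem meets_self {N : Set P} (hN : Down N) (hd : ∀ p, (∀ q ≤ p, ∃ r ≤ q, r ∈ N) → p ∈ N) :
    meets N = N := by
  ext p
  constructor
  · intro h
    refine hd p fun q hq => ?_
    obtain ⟨r, hr, s, hs, hrs⟩ := h q hq
    exact ⟨r, hr, hN s hs r hrs⟩
  · exact meets_of_mem

theorem injOn_mk {T B : Type} {S : T → Set P} {E : T → B → Set P} {p : P}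
    (h1 : ∀ q ≤ p, ∀ x, q ∈ meets (S x) → ∃ r ≤ q, ∃ b, r ∈ meets (E x b))
    (h2 : ∀ q ≤ p, ∀ x b b', q ∈ meets (S x) → q ∈ meets (E x b) → q ∈ meets (E x b') → b = b')
    (h3 : ∀ q ≤ p, ∀ x x' b, q ∈ meets (S x) → q ∈ meets (S x') → q ∈ meets (E x b) →
      q ∈ meets (E x' b) → x = x') : p ∈ InjOn S E := by
  refine ⟨fun x => mem_fimp.2 fun q hq hx => ⟨q, le_rfl, mem_fex.2 fun r hr => ?_⟩,
    fun x b b' => mem_fimp.2 fun q hq hx => ⟨q, le_rfl, ?_⟩,
    fun x x' b => mem_fimp.2 fun q hq hx => ⟨q, le_rfl, ?_⟩⟩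
  · exact h1 r (hr.trans hq) x (md hx hr)
  · exact h2 q hq x b b' hx.1 hx.2.1 hx.2.2
  · exact h3 q hq x x' b hx.1.1 hx.1.2 hx.2.1 hx.2.2

theorem injOn_tot {T B : Type} {S : T → Set P} {E : T → B → Set P} {p : P} (h : p ∈ InjOn S E)
    {q : P} (hq : q ≤ p) {x : T} (hx : q ∈ meets (S x)) : ∃ r ≤ q, ∃ b, r ∈ meets (E x b) := by
  obtain ⟨r, hr, h1⟩ := mem_fimp.1 (h.1 x) q hq hx
  obtain ⟨s, hs, b, hb⟩ := mem_fex.1 h1 r le_rfl
  exact ⟨s, hs.trans hr, b, hb⟩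

theorem injOn_uniq {T B : Type} {S : T → Set P} {E : T → B → Set P} {p : P} (h : p ∈ InjOn S E)
    {q : P} (hq : q ≤ p) {x : T} {b b' : B} (hx : q ∈ meets (S x)) (h1 : q ∈ meets (E x b))
    (h2 : q ∈ meets (E x b')) : b = b' := by
  obtain ⟨r, hr, h3⟩ := mem_fimp.1 (h.2.1 x b b') q hq ⟨hx, h1, h2⟩
  exact h3

theorem injOn_inj {T B : Type} {S : T → Set P} {E : T → B → Set P} {p : P} (h : p ∈ InjOn S E)
    {q : P} (hq : q ≤ p) {x x' : T} {b : B} (hx : q ∈ meets (S x)) (hx' : q ∈ meets (S x'))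
    (h1 : q ∈ meets (E x b)) (h2 : q ∈ meets (E x' b)) : x = x' := by
  obtain ⟨r, hr, h3⟩ := mem_fimp.1 (h.2.2 x x' b) q hq ⟨⟨hx, hx'⟩, h1, h2⟩
  exact h3

theorem smallN_mk {T : Type} {δ : Ordinal.{0}} {S : T → Set P} {p : P}
    (h : ∀ q ≤ p, ∃ r ≤ q, ∃ β < δ, ∃ E : T → β.ToType → Set P, r ∈ InjOn S E) :
    p ∈ SmallN δ S := by
  refine mem_fex.2 fun q hq => ?_
  obtain ⟨r, hr, β, hβ, E, hE⟩ := h q hq
  refine ⟨r, hr, β, mem_fex.2 fun q' hq' => ⟨q', le_rfl, hβ, mem_fex.2 fun q'' hq'' =>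
    ⟨q'', le_rfl, E, ?_⟩⟩⟩
  have hr'' : q'' ≤ r := hq''.trans hq'
  exact ⟨fun x => down_fimp _ _ _ (hE.1 x) _ hr'', fun x b b' => down_fimp _ _ _ (hE.2.1 x b b') _ hr'',
    fun x x' b => down_fimp _ _ _ (hE.2.2 x x' b) _ hr''⟩

theorem smallN_ex {T : Type} {δ : Ordinal.{0}} {S : T → Set P} {p : P} (h : p ∈ SmallN δ S)
    {q : P} (hq : q ≤ p) : ∃ r ≤ q, ∃ β < δ, ∃ E : T → β.ToType → Set P, r ∈ InjOn S E := by
  obtain ⟨r, hr, β, h1⟩ := mem_fex.1 h q hq
  obtain ⟨r1, hr1, hβ, h2⟩ := mem_fex.1 h1 r le_rfl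
  obtain ⟨r2, hr2, E, h3⟩ := mem_fex.1 h2 r1 le_rfl
  exact ⟨r2, (hr2.trans hr1).trans hr, β, hβ, E, h3⟩

theorem down_InjOn {T B : Type} (S : T → Set P) (E : T → B → Set P) : Down (InjOn S E) :=
  down_fand (down_fall fun _ => down_fimp _ _)
    (down_fand (down_fall fun _ => down_fall fun _ => down_fall fun _ => down_fimp _ _)
      (down_fall fun _ => down_fall fun _ => down_fall fun _ => down_fimp _ _))

theorem down_InjN (A B : Type) : Down (InjN P A B) := down_fex _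

theorem down_CardN (α : Ordinal.{0}) : Down (CardN P α) :=
  down_fall fun _ => down_fall fun _ => down_fnot _

theorem down_SuccN (α β : Ordinal.{0}) : Down (SuccN P α β) :=
  down_fand (down_fground _) (down_fand (down_CardN β)
    (down_fall fun _ => down_fall fun _ => down_InjN _ _))

theorem down_SmallN (δ : Ordinal.{0}) {T : Type} (S : T → Set P) : Down (SmallN δ S) := down_fex _

theorem down_TreeN (δ : Ordinal.{0}) {T : Type} (R : T → T → Set P) (h : T → δ.ToType → Set P) :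
    Down (TreeN δ R h) :=
  down_fand (down_IsFun _) (down_fand
    (down_fall fun _ => down_fall fun _ => down_fall fun _ => down_fimp _ _)
  (down_fand (down_fall fun _ => down_fall fun _ => down_fall fun _ => down_fimp _ _)
  (down_fand (down_fall fun _ => down_fall fun _ => down_fall fun _ => down_fall fun _ =>
    down_fimp _ _) (down_fall fun _ => down_fall fun _ => down_fall fun _ => down_fall fun _ =>
    down_fimp _ _))))

theorem down_ChainN {T : Type} (R : T → T → Set P) (S : T → Set P) : Down (ChainN R S) :=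
  down_fall fun _ => down_fall fun _ => down_fimp _ _

theorem down_AronN (δ : Ordinal.{0}) : Down (AronN P δ) := down_fex _

theorem down_AronPP (δ : Ordinal.{0}) : Down (AronPP P δ) := down_fex _

theorem down_ClubN (κ : Ordinal.{0}) (C : κ.ToType → Set P) : Down (ClubN κ C) :=
  down_fand (down_fall fun _ => down_fex _) (down_fall fun _ => down_fall fun _ => down_fimp _ _)

theorem down_SingN (κ : Ordinal.{0}) : Down (SingN P κ) :=
  down_fand (down_CardN κ) (down_fand (down_fall fun _ => down_fimp _ _) (down_fex _))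

theorem down_StatN (κ : Ordinal.{0}) : Down (StatN P κ) := down_fall fun _ => down_fimp _ _

/-- an injective function on a ground model set, semantically -/
theorem injN_mk {A B : Type} {p : P}
    (h : ∀ q ≤ p, ∃ r ≤ q, ∃ E : A → B → Set P,
      (∀ s ≤ r, ∀ x, ∃ t ≤ s, ∃ b, t ∈ meets (E x b)) ∧
      (∀ s ≤ r, ∀ x b b', s ∈ meets (E x b) → s ∈ meets (E x b') → b = b') ∧
      (∀ s ≤ r, ∀ x x' b, s ∈ meets (E x b) → s ∈ meets (E x' b) → x = x')) :
    p ∈ InjN P A B := by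
  refine mem_fex.2 fun q hq => ?_
  obtain ⟨r, hr, E, h1, h2, h3⟩ := h q hq
  exact ⟨r, hr, E, ⟨fun x => mem_fex.2 fun s hs => h1 s hs x, fun x b b' => mem_fimp.2 fun s hs hx =>
    ⟨s, le_rfl, h2 s hs x b b' hx.1 hx.2⟩⟩, fun x x' b => mem_fimp.2 fun s hs hx =>
    ⟨s, le_rfl, h3 s hs x x' b hx.1 hx.2⟩⟩

theorem injN_ex {A B : Type} {p : P} (h : p ∈ InjN P A B) {q : P} (hq : q ≤ p) :
    ∃ r ≤ q, ∃ E : A → B → Set P,
      (∀ s ≤ r, ∀ x, ∃ t ≤ s, ∃ b, t ∈ meets (E x b)) ∧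
      (∀ s ≤ r, ∀ x b b', s ∈ meets (E x b) → s ∈ meets (E x b') → b = b') ∧
      (∀ s ≤ r, ∀ x x' b, s ∈ meets (E x b) → s ∈ meets (E x' b) → x = x') := by
  obtain ⟨r, hr, E, h1, h2⟩ := mem_fex.1 h q hq
  refine ⟨r, hr, E, fun s hs x => IsFun.total (down_IsFun E r h1 s hs) x, fun s hs x b b' hb hb' =>
    IsFun.unique (down_IsFun E r h1 s hs) hb hb', fun s hs x x' b hb hb' =>
    IsInj.eq (down_IsInj E r h2 s hs) hb hb'⟩

/-- injections of the ground model -/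
theorem injN_ground {A B : Type} (f : A → B) (hf : Function.Injective f) (p : P) :
    p ∈ InjN P A B := by
  refine injN_mk fun q hq => ⟨q, le_rfl, fun a b => {_r | f a = b}, ?_, ?_, ?_⟩
  · exact fun s _ x => ⟨s, le_rfl, f x, meets_of_mem rfl⟩
  · intro s _ x b b' h h'
    obtain ⟨_, _, _, h1, _⟩ := h s le_rfl
    obtain ⟨_, _, _, h2, _⟩ := h' s le_rfl
    exact h1.symm.trans h2
  · intro s _ x x' b h h'
    obtain ⟨_, _, _, h1, _⟩ := h s le_rfl
    obtain ⟨_, _, _, h2, _⟩ := h' s le_rfl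
    exact hf (h1.trans h2.symm)

theorem injN_of_mk {A B : Type} (h : #A ≤ #B) (p : P) : p ∈ InjN P A B := by
  obtain ⟨f⟩ := h
  exact injN_ground f f.injective p

/-- composition -/
theorem injN_trans {A B C : Type} {p : P} (h : p ∈ InjN P A B) (h' : p ∈ InjN P B C) :
    p ∈ InjN P A C := by
  refine injN_mk fun q hq => ?_
  obtain ⟨r, hr, E, a1, a2, a3⟩ := injN_ex h hq
  obtain ⟨s, hs, F, b1, b2, b3⟩ := injN_ex h' (hr.trans hq)
  refine ⟨s, hs.trans hr, fun a c => {t | ∃ b, t ∈ meets (E a b) ∧ t ∈ meets (F b c)}, ?_, ?_, ?_⟩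
  · intro t ht a
    obtain ⟨t1, ht1, b, hb⟩ := a1 t (ht.trans hs) a
    obtain ⟨t2, ht2, c, hc⟩ := b1 t1 (ht1.trans ht) b
    exact ⟨t2, ht2.trans ht1, c, meets_of_mem ⟨b, md hb ht2, hc⟩⟩
  · intro t ht a c c' h h'
    obtain ⟨t1, ht1, _, ⟨b, hb, hc⟩, h1⟩ := h t le_rfl
    obtain ⟨t2, ht2, _, ⟨b', hb', hc'⟩, h2⟩ := h' t1 ht1
    have e := a2 t2 ((ht2.trans ht1).trans (ht.trans hs)) a b b' (md hb (ht2.trans h1)) (md hb' h2)
    subst e
    exact b2 t2 ((ht2.trans ht1).trans ht) b c c' (md hc (ht2.trans h1)) (md hc' h2)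
  · intro t ht a a' c h h'
    obtain ⟨t1, ht1, _, ⟨b, hb, hc⟩, h1⟩ := h t le_rfl
    obtain ⟨t2, ht2, _, ⟨b', hb', hc'⟩, h2⟩ := h' t1 ht1
    have e := b3 t2 ((ht2.trans ht1).trans ht) b b' c (md hc (ht2.trans h1)) (md hc' h2)
    subst e
    exact a3 t2 ((ht2.trans ht1).trans (ht.trans hs)) a a' b (md hb (ht2.trans h1)) (md hb' h2)

end

end Run7.h413
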