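import Mathlib
import Pool.Agent.Run7.h413.Cov1
import Pool.Agent.Run7.h413.Util

set_option autoImplicit false
set_option linter.unusedSectionVars false
set_option linter.unusedVariables false

/-!
# Covering, the case of few low parts
-/

namespace Run7.h413

open Set Cardinal Pool.Agent.Helper669.Forcing
open Pool.Agent.W873.Vi (Co Ik exists_seq)
open Pool.Agent.W873.Ta (Pt Re Pre Rg Rg_mono)

theorem mk_finset_le' {X : Type} {ρ : Cardinal.{0}} (hρ : ℵ₀ ≤ ρ) (hX : #X ≤ ρ) :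
    #(Finset X) ≤ ρ := by
  classical
  refine (mk_le_of_surjective (List.toFinset_surjective (α := X))).trans ?_
  exact (mk_list_le_max X).trans (max_le hρ hX)

/-- few Cohen conditions have their support in a small set -/
theorem mk_Co_le {K : Type} {ρ : Cardinal.{0}} (hρ : ℵ₀ ≤ ρ) (A : Set K) (hA : #A ≤ ρ) :
    #{t : Co K | ∀ a, a ∉ A → t.v a = []} ≤ ρ := by
  classical
  have h1 : #(A × List Bool) ≤ ρ := by
    rw [mk_prod, Cardinal.lift_id, Cardinal.lift_id]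
    exact mul_le_of_le hρ hA ((mk_le_aleph0 (α := List Bool)).trans hρ)
  have hfin : ∀ t : Co K, {x : A × List Bool | t.v x.1 = x.2 ∧ x.2 ≠ []}.Finite := by
    intro t
    have h2 : {a : A | t.v a ≠ []}.Finite := t.fin.preimage Subtype.val_injective.injOn
    refine (h2.image fun a : A => ((a, t.v a) : A × List Bool)).subset ?_
    rintro ⟨a, l⟩ ⟨h3, h4⟩
    simp only at h3 h4
    subst h3
    exact ⟨a, h4, rfl⟩
  refine le_trans (mk_le_of_injective (f := fun t : {t : Co K | ∀ a, a ∉ A → t.v a = []} =>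
    (hfin t.1).toFinset) ?_) (mk_finset_le' hρ h1)
  rintro ⟨t, ht⟩ ⟨t', ht'⟩ h
  refine Subtype.ext (Co.ext (funext fun a => ?_))
  change t.v a = t'.v a
  by_cases ha : a ∈ A
  · have key : ∀ l, l ≠ [] → (t.v a = l ↔ t'.v a = l) := by
      intro l hl
      have h3 := Finset.ext_iff.1 h (⟨a, ha⟩, l)
      simp only [Finite.mem_toFinset, mem_ofPred_eq] at h3
      constructor
      · intro h4
        exact (h3.1 ⟨h4, hl⟩).1
      · intro h4
        exact (h3.2 ⟨h4, hl⟩).1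
    by_cases h4 : t.v a = []
    · by_contra h5
      exact h5 ((key (t'.v a) fun h6 => h5 (h4.trans h6.symm)).2 rfl)
    · exact ((key (t.v a) h4).1 rfl).symm
  · rw [ht a ha, ht' a ha]

section

variable {K : Type} [LinearOrder K] {D : Dat K}

/-- the indices in the blocks `low` -/
def Bl (low : Set D.Bk) : Set D.J := {j | D.blk j ∈ low}

theorem mrg_le' {B : Set D.J} {a a' u u' : Un D} (ha : a' ≤ a) (hu : u' ≤ u) :
    Un.mrg B a' u' ≤ Un.mrg B a u := by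
  intro j f hf
  by_cases hj : j ∈ B
  · rw [Un.mrg_pos hj] at hf ⊢
    exact ha j f hf
  · rw [Un.mrg_neg hj] at hf ⊢
    exact hu j f hf

/-- one step: all tasks with support in `A` -/
theorem cov_step {ρ : Cardinal.{0}} (hρ : ℵ₀ ≤ ρ) {low : Set D.Bk} (hB : ∀ b, b ∉ low → ρ ≤ D.bd b)
    (hA : #{a : Un D | ∀ j, D.blk j ∉ low → a.v j = none} ≤ ρ) {X Z : Type} (hX : #X ≤ ρ)
    (E : X → Z → Set (Fc D)) (u0 : Un D) (A : Set K) (hAρ : #A ≤ ρ) :
    ∃ u' ≤ u0, (∀ j, D.blk j ∈ low → u'.v j = u0.v j) ∧ ∃ A' : Set K, A ⊆ A' ∧ #A' ≤ ρ ∧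
      ∃ Y : Set Z, #Y ≤ ρ ∧ ∀ t : Co K, (∀ a, a ∉ A → t.v a = []) → ∀ a : Un D,
        (∀ j, D.blk j ∉ low → a.v j = none) → ∀ x,
        (∃ t' ≤ t, (∀ c, c ∉ A' → t'.v c = []) ∧ ∃ a' ≤ a, ∃ z ∈ Y,
          (⟨t', Un.mrg (Bl low) a' u'⟩ : Fc D) ∈ meets (E x z)) ∨
        (∀ w ≤ u', ∀ t' ≤ t, ∀ a' ≤ a, ∀ z,
          (⟨t', Un.mrg (Bl low) a' w⟩ : Fc D) ∉ meets (E x z)) := by
  classical
  let Ts : Type := {t : Co K | ∀ a, a ∉ A → t.v a = []} ×
    {a : Un D | ∀ j, D.blk j ∉ low → a.v j = none} × X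
  have hTs : #Ts ≤ ρ := by
    have h1 : #Ts = #{t : Co K | ∀ a, a ∉ A → t.v a = []} *
        (#{a : Un D | ∀ j, D.blk j ∉ low → a.v j = none} * #X) := by
      rw [← Cardinal.mul_def, ← Cardinal.mul_def]
    rw [h1]
    exact mul_le_of_le hρ (mk_Co_le hρ A hAρ) (mul_le_of_le hρ hA hX)
  obtain ⟨e⟩ : Nonempty ((#Ts).ord.ToType ≃ Ts) := Cardinal.eq.1 (mk_ord_toType _)
  let P1 : Ts → Un D → Prop := fun τ u => ∃ t' ≤ τ.1.1, ∃ a' ≤ τ.2.1.1, ∃ z,
    (⟨t', Un.mrg (Bl low) a' u⟩ : Fc D) ∈ meets (E τ.2.2 z)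
  let P2 : Ts → Un D → Prop := fun τ u => ∀ w ≤ u, ∀ t' ≤ τ.1.1, ∀ a' ≤ τ.2.1.1, ∀ z,
    (⟨t', Un.mrg (Bl low) a' w⟩ : Fc D) ∉ meets (E τ.2.2 z)
  obtain ⟨u', hu', hlow, hP⟩ := hit (D := D) (T := (#Ts).ord.ToType) (fun _ => lowᶜ) (by
    intro b
    by_cases hb : b ∈ low
    · refine le_trans (le_of_eq (mk_eq_zero_iff.2 ⟨?_⟩)) zero_le
      rintro ⟨t, ht⟩
      exact ht hb
    · refine (mk_set_le _).trans ?_
      rw [mk_ord_toType]
      exact hTs.trans (hB b hb)) (fun t u => P1 (e t) u ∨ P2 (e t) u) (by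
    intro t u u' hu h
    rcases h with ⟨t', ht', a', ha', z, hz⟩ | h
    · exact Or.inl ⟨t', ht', a', ha', z, md hz (Fc.mk_le le_rfl (mrg_le' le_rfl hu))⟩
    · exact Or.inr fun w hw => h w (hw.trans hu)) u0 (by
    intro t u hu
    by_cases h : ∃ w ≤ u, P1 (e t) w
    · obtain ⟨w, hw, t', ht', a', ha', z, hz⟩ := h
      refine ⟨Un.mrg (Bl low) u w, ?_, fun j hj => ?_, Or.inl ⟨t', ht', a', ha', z, ?_⟩⟩
      · intro j f hf
        by_cases hj : j ∈ Bl low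
        · rw [Un.mrg_pos hj, hf]
        · rw [Un.mrg_neg hj]
          exact hw j f hf
      · exact Un.mrg_pos (not_not.1 hj)
      · have h1 : Un.mrg (Bl low) a' (Un.mrg (Bl low) u w) = Un.mrg (Bl low) a' w := by
          refine Un.ext (funext fun j => ?_)
          by_cases hj : j ∈ Bl low
          · rw [Un.mrg_pos hj, Un.mrg_pos hj]
          · rw [Un.mrg_neg hj, Un.mrg_neg hj, Un.mrg_neg hj]
        rw [h1]
        exact hz
    · push Not at h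
      refine ⟨u, le_rfl, fun _ _ => rfl, Or.inr fun w hw t' ht' a' ha' z hz => ?_⟩
      exact h w hw ⟨t', ht', a', ha', z, hz⟩)
  have hc : ∀ τ : Ts, P1 τ u' ∨ P2 τ u' := by
    intro τ
    have := hP (e.symm τ)
    rwa [e.apply_symm_apply] at this
  let TT : Type := {τ : Ts | P1 τ u'}
  have hTT : #TT ≤ ρ := (mk_set_le _).trans hTs
  choose t' ht' a' ha' z hz using fun τ : TT => τ.2
  refine ⟨u', hu', fun j hj => hlow j fun _ h => h hj, A ∪ ⋃ τ : TT, {c | (t' τ).v c ≠ []},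
    subset_union_left, ?_, range z, mk_range_le.trans hTT, fun t ht a ha x => ?_⟩
  · refine (mk_union_le _ _).trans (add_le_of_le hρ hAρ ((mk_iUnion_le_sum_mk).trans ?_))
    refine (sum_le_sum _ (fun _ => ρ) fun τ => (t' τ).fin.countable.le_aleph0.trans hρ).trans ?_
    rw [sum_const, Cardinal.lift_id, Cardinal.lift_id]
    exact mul_le_of_le hρ hTT le_rfl
  · rcases hc (⟨t, ht⟩, ⟨a, ha⟩, x) with h | h
    · refine Or.inl ⟨t' ⟨_, h⟩, ht' ⟨_, h⟩, fun c hc => ?_, a' ⟨_, h⟩, ha' ⟨_, h⟩, z ⟨_, h⟩,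
        ⟨_, rfl⟩, hz ⟨_, h⟩⟩
      by_contra hcon
      exact hc (Or.inr (mem_iUnion.2 ⟨⟨_, h⟩, hcon⟩))
    · exact Or.inr h

/-- **covering** -/
theorem cov_low {ρ : Cardinal.{0}} (hρ : ℵ₀ ≤ ρ) {low : Set D.Bk}
    (hB : ∀ b, b ∉ low → ρ ≤ D.bd b)
    (hA : #{a : Un D | ∀ j, D.blk j ∉ low → a.v j = none} ≤ ρ) {X Z : Type} (hX : #X ≤ ρ)
    (E : X → Z → Set (Fc D)) (r : Fc D)
    (hE : ∀ x z z', ∀ q ≤ r, q ∈ meets (E x z) → q ∈ meets (E x z') → z = z')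
    (u0 : Un D) (hu0 : u0 ≤ r.u) :
    ∃ u' ≤ u0, (∀ j, D.blk j ∈ low → u'.v j = u0.v j) ∧ ∃ Y : Set Z, #Y ≤ ρ ∧
      ∀ x z, ∀ q ≤ (⟨r.p, u'⟩ : Fc D), q ∈ meets (E x z) → z ∈ Y := by
  classical
  obtain ⟨f, hf0, hf⟩ := exists_seq (S := {s : Un D × Set K × Set Z // #s.2.1 ≤ ρ ∧ #s.2.2 ≤ ρ})
    (fun n s s' => s'.1.1 ≤ s.1.1 ∧ (∀ j, D.blk j ∈ low → s'.1.1.v j = s.1.1.v j) ∧
      s.1.2.1 ⊆ s'.1.2.1 ∧ ∀ t : Co K, (∀ a, a ∉ s.1.2.1 → t.v a = []) → ∀ a : Un D,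
        (∀ j, D.blk j ∉ low → a.v j = none) → ∀ x,
        (∃ t' ≤ t, (∀ c, c ∉ s'.1.2.1 → t'.v c = []) ∧ ∃ a' ≤ a, ∃ z ∈ s'.1.2.2,
          (⟨t', Un.mrg (Bl low) a' s'.1.1⟩ : Fc D) ∈ meets (E x z)) ∨
        (∀ w ≤ s'.1.1, ∀ t' ≤ t, ∀ a' ≤ a, ∀ z,
          (⟨t', Un.mrg (Bl low) a' w⟩ : Fc D) ∉ meets (E x z)))
    ⟨(u0, {a | r.p.v a ≠ []}, ∅), r.p.fin.countable.le_aleph0.trans hρ, by simp⟩ (by
    rintro n ⟨⟨u, A, Y⟩, h1, h2⟩
    obtain ⟨u', hu', hlow, A', hAA, hA', Y', hY', h3⟩ := cov_step hρ hB hA hX E u A h1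
    exact ⟨⟨(u', A', Y'), hA', hY'⟩, hu', hlow, hAA, h3⟩)
  obtain ⟨w0, hw0⟩ := Un.exists_lb_nat (fun n => (f n).1.1) fun n => (hf n).1
  -- keep the low part
  let ω : Un D := Un.mrg (Bl low) u0 w0
  have hlow : ∀ n, ∀ j, D.blk j ∈ low → (f n).1.1.v j = u0.v j := by
    intro n
    induction n with
    | zero => intro j _; rw [hf0]
    | succ n ih => exact fun j hj => ((hf n).2.1 j hj).trans (ih j hj)
  have hω : ∀ n, ω ≤ (f n).1.1 := by
    intro n j g hg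
    by_cases hj : j ∈ Bl low
    · change (Un.mrg (Bl low) u0 w0).v j = _
      rw [Un.mrg_pos hj, ← hlow n j hj, hg]
    · change (Un.mrg (Bl low) u0 w0).v j = _
      rw [Un.mrg_neg hj]
      exact hw0 n j g hg
  have hω0 : ω ≤ u0 := by
    have := hω 0
    rwa [hf0] at this
  let A : Set K := ⋃ n, (f n).1.2.1
  have hmono : ∀ n n', n ≤ n' → (f n).1.2.1 ⊆ (f n').1.2.1 := fun n n' h => by
    induction n', h using Nat.le_induction with
    | base => exact subset_rfl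
    | succ n' _ ih => exact ih.trans (hf n').2.2.1
  have hrA : ∀ c, c ∉ A → r.p.v c = [] := by
    intro c hc
    by_contra hcon
    refine hc (mem_iUnion.2 ⟨0, ?_⟩)
    rw [hf0]
    exact hcon
  refine ⟨ω, hω0, fun j hj => Un.mrg_pos hj, ⋃ n, (f n).1.2.2, ?_, fun x z q hq hz => ?_⟩
  · refine (mk_iUnion_le_sum_mk).trans ?_
    refine (sum_le_sum _ (fun _ => ρ) fun n => (f n).2.2).trans ?_
    rw [sum_const, Cardinal.lift_id, Cardinal.lift_id, mk_nat]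
    exact mul_le_of_le hρ hρ le_rfl
  · obtain ⟨w, hw, hwv, hwq, _⟩ := literal (r := q) (u := ω) hq.2
    -- the restricted Cohen condition
    let t : Co K := Co.mrg A q.p Co.one
    have ht : ∃ n, ∀ c, c ∉ (f n).1.2.1 → t.v c = [] := by
      have h2 : ∀ c : {c | t.v c ≠ []}, ∃ n, c.1 ∈ (f n).1.2.1 := by
        rintro ⟨c, hc⟩
        have : c ∈ A := by
          by_contra hcon
          exact hc (Co.mrg_neg hcon)
        exact mem_iUnion.1 this
      choose g hg using h2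
      have : Finite {c | t.v c ≠ []} := t.fin
      obtain ⟨N, hN⟩ := (finite_range g).bddAbove
      refine ⟨N, fun c hc => ?_⟩
      by_contra hcon
      exact hc (hmono _ _ (hN ⟨⟨c, hcon⟩, rfl⟩) (hg ⟨c, hcon⟩))
    obtain ⟨n, hn⟩ := ht
    have hqt : q.p ≤ t := by
      intro c
      by_cases hc : c ∈ A
      · rw [Co.mrg_pos hc]
      · rw [Co.mrg_neg hc]
        exact List.nil_prefix
    let a : Un D := Un.mrg (Bl low) w Un.one
    have ha : ∀ j, D.blk j ∉ low → a.v j = none := fun j hj => Un.mrg_neg hj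
    have hmm : Un.mrg (Bl low) a w = w := by
      refine Un.ext (funext fun j => ?_)
      by_cases hj : j ∈ Bl low
      · rw [Un.mrg_pos hj, Un.mrg_pos hj]
      · rw [Un.mrg_neg hj]
    rcases (hf n).2.2.2 t hn a ha x with ⟨t', ht', hs', a', ha', z', hz', hm⟩ | h
    · let s : Fc D := ⟨Co.mrg A t' q.p, Un.mrg (Bl low) a' w⟩
      have hsA : ∀ c, c ∉ A → t'.v c = [] := fun c hc => hs' c fun h => hc (mem_iUnion.2 ⟨_, h⟩)
      have hs1 : s ≤ ⟨q.p, w⟩ := by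
        refine Fc.mk_le (fun c => ?_) ?_
        · by_cases hc : c ∈ A
          · rw [Co.mrg_pos hc]
            have := ht' c
            rwa [Co.mrg_pos hc] at this
          · rw [Co.mrg_neg hc]
        · rw [← hmm]
          refine (mrg_le' ha' le_rfl).trans ?_
          rw [hmm, hmm]
      have hs2 : s ≤ ⟨t', Un.mrg (Bl low) a' (f (n + 1)).1.1⟩ := by
        refine Fc.mk_le (fun c => ?_) (mrg_le' le_rfl (hw.trans (hω _)))
        by_cases hc : c ∈ A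
        · rw [Co.mrg_pos hc]
        · rw [hsA c hc]
          exact List.nil_prefix
      have hsr : s ≤ r := by
        refine (hs1.trans hwq).trans (hq.trans ?_)
        exact Fc.mk_le le_rfl (hω0.trans hu0)
      have := hE x z z' s hsr (md hz (hs1.trans hwq)) (md hm hs2)
      rw [this]
      exact mem_iUnion.2 ⟨_, hz'⟩
    · refine absurd (md hz hwq) ?_
      have := h w (hw.trans (hω _)) q.p hqt a le_rfl z
      rwa [hmm] at this

end

end Run7.h413
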