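import Mathlib
import Pool.Agent.Run7.h413.Base
import Pool.Agent.Run7.h413.Defs

set_option autoImplicit false

/-!
# The concrete data, and the statements of the pieces TREE and COV
-/

namespace Run7.h413

open Set Cardinal Pool.Agent.Helper669.Forcing
open Pool.Agent.W873.Vi (Co Ik)
open Pool.Agent.W873.Ta (Pt Re Pre Rg)

/-- the countable ordinals -/
abbrev W1 : Type := (ℵ₁ : Cardinal.{0}).ord.ToType

/-- the countable ordinal `i` -/
noncomputable def od (i : W1) : Ordinal.{0} := (Ordinal.ToType.toOrd i).1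

/-- `ℶ_{ω₁}` -/
noncomputable def kap : Cardinal.{0} := beth (ℵ₁ : Cardinal.{0}).ord

/-- `(ℶ_i)⁺` -/
abbrev Nu (i : W1) : Type := (Order.succ (beth (od i))).ord.ToType

/-- `ℶ_{i+1}` -/
abbrev Ch (i : W1) : Type := (beth (Order.succ (od i))).ord.ToType

/-- `κ⁺` -/
abbrev Kp : Type := (Order.succ kap).ord.ToType

/-- The forcing: the product of the collapses of `ℶ_{i+1}` to `(ℶ_i)⁺`, for `i < ω₁`, with full
support (block `some i`), Cohen reals `c_a`, `a ∈ K`, and the collapses to `κ⁺` of the reals of the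
extension by the Cohen reals below `a`, `a ∈ K` (block `none`). -/
noncomputable def cD (K : Type) [LinearOrder K] (b0 : K) : Dat K where
  J := (Σ i : W1, Nu i) ⊕ (K × Kp)
  lev := Sum.elim (fun _ => b0) (fun x => x.1)
  Val := Sum.elim (fun x => Ch x.1) (fun _ => Re)
  inh := by
    rintro (x | x)
    · change Nonempty (Ch x.1)
      rw [← mk_ne_zero_iff, mk_ord_toType]
      exact (aleph0_pos.trans_le (aleph0_le_beth _)).ne'
    · exact ⟨fun _ => false⟩
  Bk := Option W1
  blk := Sum.elim (fun x => some x.1) (fun _ => none)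
  bd := fun b => b.elim kap fun i => beth (od i)
  inf := by
    rintro (_ | i)
    · exact aleph0_le_beth _
    · exact aleph0_le_beth _

/-- the condition `r` decides the value at `x` of the generic function from `Nu i` to `Ch i` -/
def gv {K : Type} [LinearOrder K] {b0 : K} (i : W1) (r : Fc (cD K b0)) (x : Nu i) (z : Ch i) : Prop :=
  ∃ f : Pt K → Ch i, r.u.v (Sum.inl ⟨i, x⟩) = some f ∧ ∀ y, f y = z

/-- names `g` of a function from `N` onto `X` all of whose proper initial segments are in the ground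
model -/
structure GenF (Q : Type) [Preorder Q] {N X : Type} [LinearOrder N] (g : Q → N → X → Prop) :
    Prop where
  mono : ∀ r r' : Q, r' ≤ r → ∀ x z, g r x z → g r' x z
  uniq : ∀ r x z z', g r x z → g r x z' → z = z'
  init : ∀ (r : Q) (x : N), ∃ r' ≤ r, ∀ x' ≤ x, ∃ z, g r' x' z
  onto : ∀ (r : Q) (z : X), ∃ r' ≤ r, ∃ x, g r' x z

/-- **Piece TREE.** If `χ^{<ν} = χ` in the ground model and there is a generic function from `ν`
onto `χ` with all proper initial segments in the ground model, then there is an Aronszajn tree of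
height `χ⁺` (computed in the ground model). -/
def S_TREE : Prop :=
  ∀ (Q : Type) [Preorder Q] (nu chi : Cardinal.{0}), ℵ₀ ≤ nu → nu ≤ chi →
    (∀ x : nu.ord.ToType, #(Set.Iio x → chi.ord.ToType) ≤ chi) →
    ∀ g : Q → nu.ord.ToType → chi.ord.ToType → Prop, GenF Q g →
      ∀ q : Q, q ∈ AronN Q (Order.succ chi).ord

/-- **Piece COV.** Each function of the extension on `ℶ_o`, `o ≤ ω₁`, has its range covered by a set
of the ground model of size `ℶ_o`; to force this it is enough to extend the second coordinate. -/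
def S_COV : Prop :=
  ∀ (K : Type) [LinearOrder K] (b0 : K) (o : Ordinal.{0}), o ≤ (ℵ₁ : Cardinal.{0}).ord →
    ∀ (Z : Type) (E : (beth o).ord.ToType → Z → Set (Fc (cD K b0))) (r : Fc (cD K b0)),
      (∀ x z z', ∀ q ≤ r, q ∈ meets (E x z) → q ∈ meets (E x z') → z = z') →
      ∃ u' ≤ r.u, ∃ Y : Set Z, #Y ≤ beth o ∧
        ∀ x z, ∀ q ≤ (⟨r.p, u'⟩ : Fc (cD K b0)), q ∈ meets (E x z) → z ∈ Y

end Run7.h413
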