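import Mathlib
import Pool.Agent.Run7.h413.Base

set_option autoImplicit false
set_option linter.unusedSectionVars false
set_option linter.unusedVariables false

/-!
# Decisions only depend on the Cohen reals below `m`
-/

namespace Run7.h413

open Set Cardinal Pool.Agent.Helper669.Forcing
open Pool.Agent.W873.Vi (Co Ik exists_seq countable_supp)
open Pool.Agent.W873.Gp (down_EqOn meets_of_dense not_meets)
open Pool.Agent.W873.Ta (Pt Re Pre Rg Rg_mono pm pm_lt pm_ge le_pm mrg_le fusion decide_meets Bc toB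
  toB_le not_fnot)

section

variable {K : Type} [LinearOrder K] [WellFoundedLT K] {D : Dat K} {L : Type} {d : L → Set (Fc D)} {m : K}

theorem cd_le {p p' : Co K} {u u' : Un D} (hp : p' ≤ p) (hu : u' ≤ u) :
    (⟨p', u'⟩ : Fc D) ≤ ⟨p, u⟩ := Fc.mk_le hp hu

/-- `τ` is a name below `m` -/
def Nmm (m : K) (S : Set L) (τ : L → Set (Fc D)) : Prop :=
  ∀ l ∈ S, ∀ r, r ∈ meets (τ l) → rm m r ∈ meets (τ l)

/-- literal extensions -/
theorem lit {q : Fc D} {p : Co K} {u : Un D} (h : q ≤ ⟨p, u⟩) :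
    ∃ w : Un D, w ≤ u ∧ (∀ j, w.v j = (u.v j).or (q.u.v j)) ∧ (⟨q.p, w⟩ : Fc D) ≤ q :=
  let ⟨w, h1, h2, h3, _⟩ := literal (r := q) (u := u) h.2
  ⟨w, h1, h2, h3⟩

variable (d m) in
/-- decisions only depend on the part below `m` -/
def HA (p : Co K) (X : Set L) (u0 : Un D) : Prop :=
  ∀ u' ≤ u0, ∀ t0 t1 : Co K, t0 ≤ p → t1 ≤ p → (∀ a < m, t0.v a = t1.v a) → ∀ l ∈ X,
    (⟨t0, u'⟩ : Fc D) ∈ meets (d l) → (⟨t1, u'⟩ : Fc D) ∉ fnot (meets (d l))

theorem stepA {X : Set L} {r0 : Fc D}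
    (h2 : ∀ S ⊆ X, S.Countable → ∀ r ≤ r0, ∃ r' ≤ r, ∃ τ : L → Set (Fc D), Nmm m S τ ∧
      r' ∈ Pool.Agent.W873.Gp.EqOn d τ S) :
    ∃ p ≤ r0.p, ∃ u ≤ r0.u, HA d m p X u := by
  by_contra hcon
  push Not at hcon
  obtain ⟨u', hu', A, hA, hp0, C, hC, hfus⟩ := fusion (Z := L) (V := Un D) (p0 := r0.p)
    (u0 := r0.u) (Φ := fun _ t0 t1 u l =>
      (∀ a < m, t0.v a = t1.v a) ∧ l ∈ X ∧
      (⟨t0, u⟩ : Fc D) ∈ meets (d l) ∧ (⟨t1, u⟩ : Fc D) ∈ fnot (meets (d l))) Un.exists_lb_nat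
    (by
      rintro k t0 t1 u z ⟨h3, h4, h5, h6⟩ w hw
      exact ⟨h3, h4, down_meets _ _ h5 _ (cd_le le_rfl hw),
        down_fnot _ _ h6 _ (cd_le le_rfl hw)⟩) (by
    intro _ t ht u hu
    have h := hcon t ht u hu
    unfold HA at h
    push Not at h
    obtain ⟨w, hw, t0, t1, h0, h1, h3, l, hl, h4, h5⟩ := h
    exact ⟨w, hw, t0, h0, t1, h1, l, h3, hl, h4, h5⟩)
  obtain ⟨r', hr', τ, hτ, heq⟩ := h2 (C ∩ X) inter_subset_right (hC.mono inter_subset_left)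
    (⟨r0.p, u'⟩ : Fc D) (cd_le le_rfl hu')
  have ht : Co.mrg A r'.p Co.one ≤ r0.p := by
    intro a
    by_cases ha : a ∈ A
    · rw [Co.mrg_pos ha]
      exact hr'.1 a
    · rw [hp0 a ha]
      exact List.nil_prefix
  obtain ⟨t0, ht0, t1, ht1, hs0, hs1, l, hlC, hag, hlX, hy, hn⟩ := hfus 0 _ ht
    fun a ha => by rw [Co.mrg_neg ha]; rfl
  obtain ⟨a0, b0⟩ := mrg_le ht0 hs0
  obtain ⟨a1, b1⟩ := mrg_le ht1 hs1
  let g0 : Fc D := ⟨Co.mrg A t0 r'.p, r'.u⟩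
  let g1 : Fc D := ⟨Co.mrg A t1 r'.p, r'.u⟩
  have e0 : g0 ≤ r' := cd_le a0 le_rfl
  have e1 : g1 ≤ r' := cd_le a1 le_rfl
  have f0 : g0 ≤ ⟨t0, u'⟩ := ⟨b0, (e0.trans hr').2⟩
  have f1 : g1 ≤ ⟨t1, u'⟩ := ⟨b1, (e1.trans hr').2⟩
  have h7 : g0 ∈ meets (τ l) :=
    (down_EqOn _ heq _ e0 l ⟨hlC, hlX⟩ _ le_rfl).1 (down_meets _ _ hy _ f0)
  have h8 : rm m g0 = rm m g1 := by
    refine rm_eq_iff.2 ⟨fun a ha => ?_, fun j _ => rfl⟩
    change (Co.mrg A t0 r'.p).v a = (Co.mrg A t1 r'.p).v a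
    by_cases haA : a ∈ A
    · rw [Co.mrg_pos haA, Co.mrg_pos haA, hag a ha]
    · rw [Co.mrg_neg haA, Co.mrg_neg haA]
  have h9 := hτ l ⟨hlC, hlX⟩ _ h7
  rw [h8] at h9
  have h10 := down_meets _ _ h9 _ (le_rm (m := m) (r := g1))
  exact down_fnot _ _ hn _ f1 _ le_rfl ((down_EqOn _ heq _ e1 l ⟨hlC, hlX⟩ _ le_rfl).2 h10)

/-! ### Decisions -/

/-- deciding sets -/
def ds (d : L → Set (Fc D)) (b : Bool) (l : L) : Set (Fc D) :=
  if b = true then meets (d l) else fnot (meets (d l))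

theorem down_ds {b : Bool} {l : L} : Down (ds d b l) := by
  unfold ds
  split_ifs
  · exact down_meets _
  · exact down_fnot _

theorem ds_true {l : L} : ds d true l = meets (d l) := rfl

theorem ds_false {l : L} : ds d false l = fnot (meets (d l)) := rfl

variable {p : Co K}

/-- `(t, u)` decides `l` -/
def Dc (d : L → Set (Fc D)) (b : Bool) (l : L) (t : Bc p m) (u : Un D) : Prop :=
  (⟨t.1, u⟩ : Fc D) ∈ ds d b l

theorem Dc.mono {b : Bool} {l : L} {t t' : Bc p m} {u u' : Un D} (h : Dc d b l t u)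
    (ht : t' ≤ t) (hu : u' ≤ u) : Dc d b l t' u' :=
  down_ds _ h _ (cd_le ht hu)

theorem dc_of {X : Set L} {u0 : Un D} (hA : HA d m p X u0) {t : Co K} (ht : t ≤ p)
    {u : Un D} (hu : u ≤ u0) {l : L} (hl : l ∈ X) {b : Bool}
    (h : (⟨t, u⟩ : Fc D) ∈ ds d b l) : Dc d b l (toB (m := m) t ht) u := by
  have hmrg : ∀ q : Co K, q ≤ (toB (m := m) t ht).1 → Co.mrg (Iio m) q t ≤ t := by
    intro q hq a
    by_cases ha : a ∈ Iio m
    · rw [Co.mrg_pos ha]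
      have := hq a
      change (Co.mrg (Iio m) t p).v a <+: _ at this
      rwa [Co.mrg_pos ha] at this
    · rw [Co.mrg_neg ha]
  rcases b with _ | _
  · rw [ds_false] at h
    change (⟨_, u⟩ : Fc D) ∈ fnot (meets (d l))
    by_contra hcon
    obtain ⟨q, hq, hqn⟩ := not_fnot hcon
    obtain ⟨w, hw, _, h2⟩ := lit hq
    refine hA w (hw.trans hu) q.p (Co.mrg (Iio m) q.p t) (hq.1.trans (toB t ht).2.1)
      ((hmrg _ hq.1).trans ht) (fun a ha => (Co.mrg_pos (show a ∈ Iio m from ha)).symm) l hl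
      (down_meets _ _ hqn _ h2) ?_
    exact down_fnot _ _ h _ (cd_le (hmrg _ hq.1) hw)
  · rw [ds_true] at h
    change (⟨_, u⟩ : Fc D) ∈ meets (d l)
    by_contra hcon
    obtain ⟨q, hq, hqn⟩ := not_meets hcon
    obtain ⟨w, hw, _, h2⟩ := lit hq
    refine hA w (hw.trans hu) (Co.mrg (Iio m) q.p t) q.p ((hmrg _ hq.1).trans ht)
      (hq.1.trans (toB t ht).2.1) (fun a ha => Co.mrg_pos (show a ∈ Iio m from ha)) l hl ?_
      (down_fnot _ _ hqn _ h2)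
    exact down_meets _ _ h _ (cd_le (hmrg _ hq.1) hw)

theorem dc_ex {X : Set L} {u0 : Un D} (hA : HA d m p X u0) (t : Bc p m)
    {u : Un D} (hu : u ≤ u0) {l : L} (hl : l ∈ X) :
    ∃ t' ≤ t, ∃ u' ≤ u, ∃ b, Dc d b l t' u' := by
  obtain ⟨q, hq, hdec⟩ := decide_meets (d l) (⟨t.1, u⟩ : Fc D)
  obtain ⟨w, hw, _, h2⟩ := lit hq
  have hqp : q.p ≤ p := hq.1.trans t.2.1
  refine ⟨toB q.p hqp, toB_le hq.1, w, hw, ?_⟩
  rcases hdec with h | h
  · exact ⟨true, dc_of hA hqp (hw.trans hu) hl (down_meets _ _ h _ h2)⟩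
  · exact ⟨false, dc_of hA hqp (hw.trans hu) hl (down_fnot _ _ h _ h2)⟩

/-! ### Opposite decisions -/

/-- `u` and `u'` agree below `m` -/
def Ag (m : K) (u u' : Un D) : Prop := ∀ j, D.lev j < m → u.v j = u'.v j

theorem Ag.symm {u u' : Un D} (h : Ag m u u') : Ag m u' u := fun j hj => (h j hj).symm

theorem Ag.trans {u u' u'' : Un D} (h : Ag m u u') (h' : Ag m u' u'') : Ag m u u'' :=
  fun j hj => (h j hj).trans (h' j hj)

/-- `w` below `m`, `u` above -/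
noncomputable def gl (m : K) (w u : Un D) : Un D := Un.mrg (Lw D m) w u

theorem gl_lt {w u : Un D} {j : D.J} (h : D.lev j < m) : (gl m w u).v j = w.v j := Un.mrg_pos h

theorem gl_ge {w u : Un D} {j : D.J} (h : ¬ D.lev j < m) : (gl m w u).v j = u.v j := Un.mrg_neg h

theorem gl_ag {w u : Un D} : Ag m (gl m w u) w := fun _ hj => gl_lt hj

theorem gl_le {w w' u : Un D} (h : w ≤ w') (h' : Ag m w' u) : gl m w u ≤ u := by
  intro j f hf
  by_cases hj : D.lev j < m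
  · rw [gl_lt hj]
    exact h j f (by rw [h' j hj, hf])
  · rw [gl_ge hj, hf]

theorem split {X : Set L} {u0 : Un D} (hA : HA d m p X u0)
    (hM : ∀ (t : Bc p m), ∀ u ≤ u0, ∃ l ∈ X, ∃ t' ≤ t, ∃ ua ≤ u, ∃ ub ≤ u, Ag m ua ub ∧
      Dc d true l t' ua ∧ Dc d false l t' ub)
    (V : List Bool → Un D) (hV : ∀ k, V k ≤ u0) (hag : ∀ k k', Ag m (V k) (V k')) (t : Bc p m)
    {i i' : List Bool} (hne : i ≠ i') :
    ∃ V' : List Bool → Un D, (∀ k, V' k ≤ V k) ∧ (∀ k k', Ag m (V' k) (V' k')) ∧ ∃ t' ≤ t,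
      ∃ l ∈ X, ∃ b, Dc d b l t' (V' i') ∧ Dc d (!b) l t' (V' i) := by
  classical
  obtain ⟨l, hl, t1, ht1, ua, hua, ub, hub, hab, hda, hdb⟩ := hM t (V i) (hV i)
  have h1 : gl m ua (V i') ≤ V i' := gl_le hua (hag i i')
  obtain ⟨t2, ht2, w, hw, b, hb⟩ := dc_ex hA t1 (h1.trans (hV i')) hl
  -- the one with the opposite decision
  have h2 : ∃ uc ≤ V i, Ag m uc ua ∧ Dc d (!b) l t1 uc := by
    rcases b with _ | _
    · exact ⟨ua, hua, fun _ _ => rfl, hda⟩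
    · exact ⟨ub, hub, hab.symm, hdb⟩
  obtain ⟨uc, huc, hca, hdc⟩ := h2
  have hwc : ∀ k, k ≠ i → gl m w (V k) ≤ V k := by
    intro k _ j f hf
    by_cases hj : D.lev j < m
    · rw [gl_lt hj]
      refine hw j f ?_
      rw [gl_lt hj]
      refine hua j f ?_
      rw [← hag k i j hj, hf]
    · rw [gl_ge hj, hf]
  have h3 : gl m w uc ≤ uc := by
    intro j f hf
    by_cases hj : D.lev j < m
    · rw [gl_lt hj]
      refine hw j f ?_
      rw [gl_lt hj, ← hca j hj, hf]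
    · rw [gl_ge hj, hf]
  have h4 : gl m w w = w := by
    refine Un.ext (funext fun j => ?_)
    by_cases hj : D.lev j < m
    · rw [gl_lt hj]
    · rw [gl_ge hj]
  refine ⟨fun k => if k = i then gl m w uc else if k = i' then w else gl m w (V k), fun k => ?_,
    fun k k' => ?_, t2, ht2.trans ht1, l, hl, b, ?_, ?_⟩
  · by_cases hk : k = i
    · simp only [if_pos hk]
      rw [hk]
      exact h3.trans huc
    · by_cases hk' : k = i'
      · simp only [if_neg hk, if_pos hk']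
        rw [hk']
        exact hw.trans h1
      · simp only [if_neg hk, if_neg hk']
        exact hwc k hk
  · have key : ∀ k, Ag m (if k = i then gl m w uc else if k = i' then w else gl m w (V k)) w := by
      intro k
      split_ifs
      · exact gl_ag
      · exact fun _ _ => rfl
      · exact gl_ag
    exact (key k).trans (key k').symm
  · simp only [if_neg hne.symm, if_true]
    exact hb
  · simp only [if_true]
    exact hdc.mono ht2 h3

/-- opposite decisions exist -/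
theorem mt_all {X : Set L} {r0 : Fc D} (hp : p ≤ r0.p) {u0 : Un D} (hu0 : u0 ≤ r0.u)
    (hA : HA d m p X u0)
    (hng : ∀ r ≤ r0, ∃ l ∈ X, ∃ s0 ≤ r, ∃ s1 ≤ r, rm m s0 = rm m s1 ∧
      s0 ∈ meets (d l) ∧ s1 ∈ fnot (meets (d l))) (t : Bc p m) {u : Un D} (hu : u ≤ u0) :
    ∃ l ∈ X, ∃ t' ≤ t, ∃ ua ≤ u, ∃ ub ≤ u, Ag m ua ub ∧ Dc d true l t' ua ∧ Dc d false l t' ub := by
  obtain ⟨l, hl, s0, hs0, s1, hs1, heq, hy, hn⟩ := hng ⟨t.1, u⟩ (cd_le (t.2.1.trans hp)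
    (hu.trans hu0))
  obtain ⟨w0, hw0, hv0, hl0⟩ := lit hs0
  obtain ⟨w1, hw1, hv1, hl1⟩ := lit hs1
  obtain ⟨hp01, hu01⟩ := rm_eq_iff.1 heq
  have hs0p : s0.p ≤ p := hs0.1.trans t.2.1
  have hs1p : s1.p ≤ p := hs1.1.trans t.2.1
  have hda : Dc d true l (toB (m := m) s0.p hs0p) w0 :=
    dc_of hA hs0p (hw0.trans hu) hl (b := true) (down_meets _ _ hy _ hl0)
  have hdb : Dc d false l (toB (m := m) s1.p hs1p) w1 :=
    dc_of hA hs1p (hw1.trans hu) hl (b := false) (down_fnot _ _ hn _ hl1)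
  have htt : toB (m := m) s0.p hs0p = toB (m := m) s1.p hs1p := by
    refine Subtype.ext (Pool.Agent.W873.Vi.Co.ext (funext fun a => ?_))
    change (Co.mrg (Iio m) s0.p p).v a = (Co.mrg (Iio m) s1.p p).v a
    by_cases ha : a ∈ Iio m
    · rw [Co.mrg_pos ha, Co.mrg_pos ha, hp01 a ha]
    · rw [Co.mrg_neg ha, Co.mrg_neg ha]
  rw [← htt] at hdb
  refine ⟨l, hl, _, toB_le hs0.1, w0, hw0, w1, hw1, fun j hj => ?_, hda, hdb⟩
  rw [hv0, hv1, hu01 j hj]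

end

end Run7.h413
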