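import Mathlib
import Pool.Agent.Run7.h413.StepA

set_option autoImplicit false
set_option linter.unusedSectionVars false
set_option linter.unusedVariables false

/-!
# The sequence of versions and its limits
-/

namespace Run7.h413

open Set Cardinal Pool.Agent.Helper669.Forcing
open Pool.Agent.W873.Vi (Co Ik exists_seq countable_supp)
open Pool.Agent.W873.Gp (down_EqOn meets_of_dense not_meets)
open Pool.Agent.W873.Ta (Pt Re Pre Rg Rg_mono pm pm_lt pm_ge le_pm mrg_le fusion decide_meets Bc toB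
  toB_le not_fnot tsk tsk_ok tsk_eq pad pad_length pad_ne exists_enumB tk tk_length tk_prefix eq_tk
  pre_tk)

section

variable {K : Type} [LinearOrder K] [WellFoundedLT K] {D : Dat K} {L : Type} {d : L → Set (Fc D)}
  {m : K} {p : Co K}

/-- the sequence of the versions -/
structure Run (D : Dat K) (p : Co K) (m : K) where
  V : ℕ → List Bool → Un D
  t : ℕ → Bc p m
  v0 : ∀ i, V 0 i = V 0 []
  le : ∀ n i, V (n + 1) i ≤ V n (i.take n)
  ag : ∀ n i j, Ag m (V n i) (V n j)

/-- the decisions along the sequence -/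
structure Dcs (d : L → Set (Fc D)) (X : Set L) (R : Run D p m) (A : Set K) (l : ℕ → L)
    (b : ℕ → Bool) : Prop where
  lX : ∀ n, l n ∈ X
  cnt : A.Countable
  pA : ∀ a, a ∉ A → p.v a = []
  tA : ∀ n a, a ∉ A → (R.t n).1.v a = []
  ex : ∀ u : Bc p m, (∀ a, a ∉ A → u.1.v a = []) → ∀ i i' : List Bool, i.length = i'.length →
    i ≠ i' → ∃ n, i.length ≤ n + 1 ∧ R.t n ≤ u ∧
      Dc d (b n) (l n) (R.t n) (R.V (n + 1) (pad (n + 1) i')) ∧
      Dc d (!b n) (l n) (R.t n) (R.V (n + 1) (pad (n + 1) i))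

/-- the state -/
structure Sta (D : Dat K) (L : Type) (p : Co K) (m : K) where
  V : List Bool → Un D
  A : Set K
  Q : ℕ → ℕ → Bc p m
  t : Bc p m
  l : L
  b : Bool

/-- the invariants -/
structure Inv (u0 : Un D) (x : Sta D L p m) : Prop where
  le : ∀ i, x.V i ≤ u0
  ag : ∀ i j, Ag m (x.V i) (x.V j)
  cnt : x.A.Countable
  pA : ∀ a, a ∉ x.A → p.v a = []

/-- one step -/
structure Rel (d : L → Set (Fc D)) (X : Set L) (n : ℕ) (x x' : Sta D L p m) : Prop where
  le : ∀ i, x'.V i ≤ x.V (i.take n)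
  lX : x'.l ∈ X
  dec : Dc d x'.b x'.l x'.t (x'.V (tsk n x.Q).1.2)
  dec' : Dc d (!x'.b) x'.l x'.t (x'.V (tsk n x.Q).1.1)
  tt : x'.t ≤ (tsk n x.Q).2
  A : x.A ⊆ x'.A
  tA : ∀ a, a ∉ x'.A → x'.t.1.v a = []
  Q : ∀ j ≤ n, x'.Q j = x.Q j
  Qn : ∀ u : Bc p m, (∀ a, a ∉ x'.A → u.1.v a = []) → ∃ i, x'.Q (n + 1) i = u

theorem step {X : Set L} {u0 : Un D} (hA : HA d m p X u0)
    (hM : ∀ (t : Bc p m), ∀ u ≤ u0, ∃ l ∈ X, ∃ t' ≤ t, ∃ ua ≤ u, ∃ ub ≤ u, Ag m ua ub ∧
      Dc d true l t' ua ∧ Dc d false l t' ub)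
    (n : ℕ) (x : Sta D L p m) (hx : Inv u0 x) : ∃ x', Inv u0 x' ∧ Rel d X n x x' := by
  classical
  obtain ⟨hne, hlen⟩ := tsk_ok n x.Q
  obtain ⟨V, hV, hag, t', ht', l, hl, b, hb, hb'⟩ := split hA hM (fun i => x.V (i.take n))
    (fun i => hx.le _) (fun i j => hx.ag _ _) (tsk n x.Q).2 hne
  have hcnt : (x.A ∪ {c | t'.1.v c ≠ []}).Countable := hx.cnt.union t'.1.fin.countable
  have hpA : ∀ c, c ∉ x.A ∪ {c | t'.1.v c ≠ []} → p.v c = [] := fun c hc =>
    hx.pA c fun h => hc (Or.inl h)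
  obtain ⟨e, he⟩ := exists_enumB (m := m) hcnt hpA
  refine ⟨⟨V, x.A ∪ {c | t'.1.v c ≠ []}, fun j => if j ≤ n then x.Q j else e, t', l, b⟩,
    ⟨fun i => (hV i).trans (hx.le _), hag, hcnt, hpA⟩, ⟨hV, hl, hb, hb', ht', subset_union_left, ?_,
    fun j hj => if_pos hj, ?_⟩⟩
  · intro c hc
    by_contra hcon
    exact hc (Or.inr hcon)
  · intro u hu'
    obtain ⟨i, hi⟩ := he u hu'
    refine ⟨i, ?_⟩
    change (if n + 1 ≤ n then x.Q (n + 1) else e) i = u
    rw [if_neg (by omega)]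
    exact hi

theorem exists_run {X : Set L} {u0 : Un D} (hA : HA d m p X u0)
    (hM : ∀ (t : Bc p m), ∀ u ≤ u0, ∃ l ∈ X, ∃ t' ≤ t, ∃ ua ≤ u, ∃ ub ≤ u, Ag m ua ub ∧
      Dc d true l t' ua ∧ Dc d false l t' ub) :
    ∃ R : Run D p m, R.V 0 [] ≤ u0 ∧ ∃ A l b, Dcs d X R A l b := by
  classical
  obtain ⟨l0, hl0, _⟩ := hM ⟨p, le_rfl, fun _ _ => rfl⟩ u0 le_rfl
  have hcnt0 : ({a | p.v a ≠ []} : Set K).Countable := p.fin.countable
  have hpA0 : ∀ a, a ∉ ({a | p.v a ≠ []} : Set K) → p.v a = [] := fun a ha => by simpa using ha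
  obtain ⟨e0, he0⟩ := exists_enumB (m := m) hcnt0 hpA0
  let x0 : Sta D L p m := ⟨fun _ => u0, {a | p.v a ≠ []}, fun _ => e0,
    ⟨p, le_rfl, fun _ _ => rfl⟩, l0, false⟩
  have hx0 : Inv u0 x0 := ⟨fun _ => le_rfl, fun _ _ _ _ => rfl, hcnt0, hpA0⟩
  obtain ⟨f, hf0, hf⟩ := exists_seq (S := {x : Sta D L p m // Inv u0 x})
    (fun n x x' => Rel d X n x.1 x'.1) ⟨x0, hx0⟩ (fun n x => by
      obtain ⟨x', h1, h2⟩ := step hA hM n x.1 x.2
      exact ⟨⟨x', h1⟩, h2⟩)
  have hf0' : (f 0).1 = x0 := congrArg Subtype.val hf0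
  let A : Set K := ⋃ n, (f n).1.A
  have hmono : ∀ n n', n ≤ n' → (f n).1.A ⊆ (f n').1.A := fun n n' h => by
    induction n', h using Nat.le_induction with
    | base => exact subset_rfl
    | succ n' _ ih => exact ih.trans (hf n').A
  have hQc : ∀ j n, j ≤ n → (f n).1.Q j = (f j).1.Q j := fun j n h => by
    induction n, h using Nat.le_induction with
    | base => rfl
    | succ n hn ih => rw [(hf n).Q j hn, ih]
  have hen : ∀ j, ∀ u : Bc p m, (∀ a, a ∉ (f j).1.A → u.1.v a = []) → ∃ i, (f j).1.Q j i = u := by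
    intro j
    rcases j with _ | j
    · rw [hf0']
      exact he0
    · exact (hf j).Qn
  let R : Run D p m := {
    V := fun n => (f n).1.V
    t := fun n => (f (n + 1)).1.t
    v0 := fun i => by rw [hf0']
    le := fun n i => (hf n).le i
    ag := fun n => (f n).2.ag }
  refine ⟨R, ?_, A, fun n => (f (n + 1)).1.l, fun n => (f (n + 1)).1.b, ⟨fun n => (hf n).lX,
    countable_iUnion fun n => (f n).2.cnt, fun a ha => (f 0).2.pA a fun h => ha (mem_iUnion.2 ⟨0, h⟩),
    fun n a ha => (hf n).tA a fun h => ha (mem_iUnion.2 ⟨_, h⟩), ?_⟩⟩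
  · change (f 0).1.V [] ≤ u0
    rw [hf0']
  · intro u hu i i' hii hne
    -- the support is contained in a stage
    have h1 : ∃ n, ∀ a, a ∉ (f n).1.A → u.1.v a = [] := by
      have h2 : ∀ a : {a | u.1.v a ≠ []}, ∃ n, a.1 ∈ (f n).1.A := by
        rintro ⟨a, ha⟩
        by_contra hcon
        push Not at hcon
        exact ha (hu a fun h => by
          obtain ⟨n, hn⟩ := mem_iUnion.1 h
          exact hcon n hn)
      choose g hg using h2
      have : Finite {a | u.1.v a ≠ []} := u.1.fin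
      obtain ⟨N, hN⟩ := (finite_range g).bddAbove
      refine ⟨N, fun a ha => ?_⟩
      by_contra hcon
      exact ha (hmono _ _ (hN ⟨⟨a, hcon⟩, rfl⟩) (hg ⟨a, hcon⟩))
    obtain ⟨j, hj⟩ := h1
    obtain ⟨q, hq⟩ := hen j u hj
    obtain ⟨n, hjn, hn, htsk⟩ := tsk_eq (p := p) (m := m) (j := j) (i := q) hii hne le_rfl
    have h2 := htsk (f n).1.Q
    rw [hQc j n hjn, hq] at h2
    refine ⟨n, hn, ?_, ?_, ?_⟩
    · have := (hf n).tt
      rwa [h2] at this
    · have := (hf n).dec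
      rwa [h2] at this
    · have := (hf n).dec'
      rwa [h2] at this

theorem tk_take (x : Re) (n : ℕ) : (tk x (n + 1)).take n = tk x n := by
  have h := (List.prefix_iff_eq_take.1 (tk_prefix x (Nat.le_succ n)))
  rw [tk_length] at h
  exact h.symm

theorem sm_iUnion {ι : Type} [Countable ι] {b : D.Bk} {S : ι → Set D.J}
    (hS : ∀ n, #(S n) ≤ D.bd b) : #(⋃ n, S n) ≤ D.bd b := by
  refine (mk_iUnion_le_sum_mk (f := S)).trans ?_
  refine (sum_le_sum _ (fun _ => D.bd b) hS).trans ?_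
  rw [sum_const, Cardinal.lift_id, Cardinal.lift_id]
  exact mul_le_of_le (D.inf b) ((mk_le_aleph0 (α := ι)).trans (D.inf b)) le_rfl

namespace Run

variable (R : Run D p m)

open Classical in
/-- the values along the branch `x` -/
noncomputable def G (x : Re) (j : D.J) : Pt K → D.Val j :=
  if h : ∃ n f, (R.V n (tk x n)).v j = some f then h.choose_spec.choose else
    fun _ => (D.inh j).some

variable {R}

theorem br_le (x : Re) {n n' : ℕ} (h : n ≤ n') : R.V n' (tk x n') ≤ R.V n (tk x n) := by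
  induction n', h using Nat.le_induction with
  | base => exact le_rfl
  | succ n' _ ih =>
    have h := R.le n' (tk x (n' + 1))
    rw [tk_take] at h
    exact h.trans ih

theorem G_eq {x : Re} {j : D.J} {n : ℕ} {f : Pt K → D.Val j} (h : (R.V n (tk x n)).v j = some f) :
    R.G x j = f := by
  have h1 : ∃ n f, (R.V n (tk x n)).v j = some f := ⟨n, f, h⟩
  have h2 := h1.choose_spec.choose_spec
  unfold G
  rw [dif_pos h1]
  rcases le_total n h1.choose with h3 | h3
  · have h4 := br_le (R := R) x h3 j f h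
    rw [h2] at h4
    exact Option.some.inj h4
  · have h4 := br_le (R := R) x h3 j _ h2
    rw [h] at h4
    exact (Option.some.inj h4).symm

theorem G_ok (x : Re) (j : D.J) : De (D.lev j) (R.G x j) := by
  by_cases h : ∃ n f, (R.V n (tk x n)).v j = some f
  · obtain ⟨n, f, hf⟩ := h
    rw [G_eq hf]
    exact (R.V n (tk x n)).ok j f hf
  · unfold G
    rw [dif_neg h]
    exact fun _ _ _ => rfl

variable (R)

open Classical in
/-- the real which is used at the index `j` -/
noncomputable def xs (m : K) (ν : K) (j : D.J) (y : Pt K) : Re :=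
  if D.lev j < m then fun _ => false else y ν

open Classical in
/-- the limit -/
noncomputable def TN (ν : K) (hν : ν < m) : Un D where
  v j := if ∃ n i, (R.V n i).v j ≠ none then some (fun y => R.G (xs m ν j y) j y) else none
  sm b := by
    refine (mk_le_mk_of_subset ?_).trans (sm_iUnion (D := D) (b := b) (ι := ℕ × List Bool)
      (S := fun x => {j | D.blk j = b ∧ (R.V x.1 x.2).v j ≠ none}) fun x => (R.V x.1 x.2).sm b)
    rintro j ⟨hb, hj⟩
    by_cases h : ∃ n i, (R.V n i).v j ≠ none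
    · obtain ⟨n, i, hi⟩ := h
      exact mem_iUnion.2 ⟨(n, i), hb, hi⟩
    · exact absurd (if_neg h) hj
  ok j f hf := by
    by_cases h : ∃ n i, (R.V n i).v j ≠ none
    · rw [if_pos h] at hf
      obtain rfl := Option.some.inj hf
      intro y y' hy
      have h1 : xs m ν j y = xs m ν j y' := by
        unfold xs
        by_cases hj : D.lev j < m
        · rw [if_pos hj, if_pos hj]
        · rw [if_neg hj, if_neg hj]
          exact hy ν (hν.trans_le (not_lt.1 hj))
      simp only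
      rw [h1]
      exact G_ok _ _ y y' hy
    · rw [if_neg h] at hf
      exact absurd hf (by simp)

variable {R}

theorem TN_v {ν : K} {hν : ν < m} {j : D.J} {n : ℕ} {i : List Bool} (h : (R.V n i).v j ≠ none) :
    (R.TN ν hν).v j = some (fun y => R.G (xs m ν j y) j y) := if_pos ⟨n, i, h⟩

theorem TN_val {ν : K} {hν : ν < m} {j : D.J} {n : ℕ} {i : List Bool} {f : Pt K → D.Val j}
    (h : (R.V n i).v j = some f) {y : Pt K} (hy : tk (y ν) n = i) :
    R.G (xs m ν j y) j y = f y := by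
  by_cases hj : D.lev j < m
  · have h1 : xs m ν j y = fun _ => false := if_pos hj
    rw [h1]
    have h2 : (R.V n (tk (fun _ => false) n)).v j = some f := by
      rw [R.ag n _ i j hj, h]
    rw [G_eq h2]
  · have h1 : xs m ν j y = y ν := if_neg hj
    rw [h1]
    subst hy
    rw [G_eq h]

/-- the limit on a region -/
theorem TN_reg {ν : K} {hν : ν < m} {r : Fc D} (hr : r ≤ ⟨r.p, R.TN ν hν⟩) {n : ℕ} {i : List Bool}
    (hi : r.p.v ν = i) (hn : i.length = n) : r ≤ ⟨r.p, R.V n i⟩ := by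
  refine ⟨le_rfl, fun j f hf => ?_⟩
  have h1 : (R.V n i).v j ≠ none := by
    change (R.V n i).v j = some f at hf
    rw [hf]
    simp
  obtain ⟨g, hg, h2⟩ := hr.2 j _ (TN_v (hν := hν) h1)
  refine ⟨g, hg, fun y hy => ?_⟩
  rw [h2 y hy]
  refine TN_val (hν := hν) hf ?_
  have h3 : Pre i (y ν) := by
    rw [← hi]
    exact hy ν
  rw [← hn]
  exact (eq_tk h3).symm

theorem TN_le0 {ν : K} {hν : ν < m} : R.TN ν hν ≤ R.V 0 [] := by
  intro j f hf
  have h1 : (R.V 0 []).v j ≠ none := by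
    rw [hf]
    simp
  rw [TN_v h1]
  congr 1
  funext y
  refine TN_val (hν := hν) hf ?_
  simp [tk]

end Run

end

end Run7.h413
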