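import Mathlib
import Pool.Agent.Run7.h413.StepB
import Pool.Agent.W873.Ta.Bnd

set_option autoImplicit false
set_option linter.unusedSectionVars false
set_option linter.unusedVariables false

/-!
# Pressing down
-/

namespace Run7.h413

open Set Cardinal Pool.Agent.Helper669.Forcing
open Pool.Agent.W873.Vi (bddK)
open Pool.Agent.W873.Ta (Ina)

/-- the ordinals below `θ⁺` -/
abbrev Wk (θ : Cardinal.{0}) : Type := (Order.succ θ).ord.ToType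

section

variable {K : Type} [LinearOrder K] [WellFoundedLT K]

/-- the sets of size at most `θ` below `m` are bounded below `m` -/
def Cfk (θ : Cardinal.{0}) (m : K) : Prop :=
  ∀ S : Set K, #S ≤ θ → (∀ a ∈ S, a < m) → ∃ c < m, ∀ a ∈ S, a < c

theorem cfk_of {θ : Cardinal.{0}} {m : K} (h : Ina m) (hθm : θ < #(Iio m)) : Cfk θ m :=
  fun S hS hSm => h.bd S hSm (hS.trans_lt hθm)

theorem exists_closedk {θ : Cardinal.{0}} (hθ : ℵ₀ ≤ θ) {m : K} (hm : Ina m)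
    (hθm : θ < #(Iio m)) (h : K → K) (hh : ∀ a < m, h a < m) {δ0 : K}
    (hδ0 : δ0 < m) : ∃ δ < m, δ0 < δ ∧ (∀ a < δ, h a < δ) ∧ Cfk θ δ := by
  classical
  have W_bdd : ∀ S : Set (Wk θ), #S ≤ θ → ∃ δ : Wk θ, ∀ x ∈ S, x < δ := fun S hS =>
    bddK (isRegular_succ hθ) S (Order.lt_succ_iff.2 hS)
  have lt_W : #(Wk θ) < #(Iio m) := by
    rw [mk_ord_toType]
    exact lt_of_le_of_lt (Order.succ_le_of_lt (cantor θ)) (hm.ina.isStrongPrelimit hθm)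
  have hIic : ∀ a < m, #(Iic a) < #(Iio m) := by
    intro a ha
    have h1 : (Iic a : Set K) = insert a (Iio a) := by
      ext x
      simp only [mem_Iic, mem_insert_iff, mem_Iio]
      exact le_iff_eq_or_lt
    rw [h1]
    exact (mk_insert_le).trans_lt (add_lt_of_lt hm.ina.aleph0_lt.le (hm.lt a ha)
      (one_lt_aleph0.trans hm.ina.aleph0_lt))
  have hH : ∀ a : K, ∃ b, a < m → b < m ∧ ∀ x ∈ insert a (h '' Iic a), x < b := by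
    intro a
    by_cases ha : a < m
    · obtain ⟨c, hc, h1⟩ := hm.bd (insert a (h '' Iic a)) (by
        rintro x (rfl | ⟨y, hy, rfl⟩)
        · exact ha
        · exact hh y (lt_of_le_of_lt hy ha))
        ((mk_insert_le).trans_lt (add_lt_of_lt hm.ina.aleph0_lt.le
          (mk_image_le.trans_lt (hIic a ha)) (one_lt_aleph0.trans hm.ina.aleph0_lt)))
      exact ⟨c, fun _ => ⟨hc, h1⟩⟩
    · exact ⟨a, fun h' => absurd h' ha⟩
  choose H hH using hH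
  have hbd' : ∀ S : Set K, ∃ c, ((∀ a ∈ S, a < m) ∧ #S < #(Iio m)) → c < m ∧ ∀ a ∈ S, a < c := by
    intro S
    by_cases hS : (∀ a ∈ S, a < m) ∧ #S < #(Iio m)
    · obtain ⟨c, hc, h1⟩ := hm.bd S hS.1 hS.2
      exact ⟨c, fun _ => ⟨hc, h1⟩⟩
    · exact ⟨δ0, fun h' => absurd h' hS⟩
  choose bd hbd using hbd'
  let wf := wellFounded_lt (α := Wk θ)
  let Fd : ∀ γ : Wk θ, (∀ γ' : Wk θ, γ' < γ → K) → K := fun γ ih =>
    bd (insert δ0 {x | ∃ γ', ∃ h : γ' < γ, x = H (ih γ' h)})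
  let e : Wk θ → K := wf.fix Fd
  have he : ∀ γ, e γ = bd (insert δ0 {x | ∃ γ', ∃ _ : γ' < γ, x = H (e γ')}) := fun γ =>
    wf.fix_eq Fd γ
  have hcard : ∀ γ : Wk θ, #(insert δ0 {x | ∃ γ', ∃ _ : γ' < γ, x = H (e γ')} : Set K) <
      #(Iio m) := by
    intro γ
    refine (mk_insert_le).trans_lt (add_lt_of_lt hm.ina.aleph0_lt.le ?_
      (one_lt_aleph0.trans hm.ina.aleph0_lt))
    have h1 : {x | ∃ γ', ∃ _ : γ' < γ, x = H (e γ')} ⊆ (fun γ' => H (e γ')) '' Iio γ := by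
      rintro _ ⟨γ', h, rfl⟩
      exact ⟨γ', h, rfl⟩
    refine (mk_le_mk_of_subset h1).trans_lt (mk_image_le.trans_lt ?_)
    exact (mk_set_le _).trans_lt lt_W
  have hem : ∀ γ, e γ < m := by
    intro γ
    induction γ using wf.induction with
    | _ γ ih =>
      rw [he γ]
      refine (hbd _ ⟨?_, hcard γ⟩).1
      rintro x (rfl | ⟨γ', h', rfl⟩)
      · exact hδ0
      · exact (hH _ (ih γ' h')).1
  have hbe : ∀ γ, ∀ a ∈ insert δ0 {x | ∃ γ', ∃ _ : γ' < γ, x = H (e γ')}, a < e γ := by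
    intro γ a ha
    have h1 := (hbd (insert δ0 {x | ∃ γ', ∃ _ : γ' < γ, x = H (e γ')}) ⟨by
      rintro x (rfl | ⟨γ', h', rfl⟩)
      · exact hδ0
      · exact (hH _ (hem γ')).1, hcard γ⟩).2 a ha
    rw [he γ]
    exact h1
  have hstep : ∀ γ γ' : Wk θ, γ' < γ → H (e γ') < e γ := fun γ γ' h' => hbe γ _ (Or.inr ⟨γ', h', rfl⟩)
  have hWmax : ∀ γ : Wk θ, ∃ γ', γ < γ' := by
    intro γ
    obtain ⟨δ, hδ⟩ := W_bdd {γ} (by
      rw [mk_singleton]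
      exact one_le_aleph0.trans hθ)
    exact ⟨δ, hδ γ rfl⟩
  obtain ⟨c, hc, h1⟩ := hm.bd (range e) (by
    rintro _ ⟨γ, rfl⟩
    exact hem γ) (mk_range_le.trans_lt lt_W)
  have hne : ({δ | ∀ γ, e γ < δ} : Set K).Nonempty := ⟨c, fun γ => h1 _ ⟨γ, rfl⟩⟩
  obtain ⟨δ, h2, h3⟩ := WellFounded.has_min (wellFounded_lt (α := K)) _ hne
  have h4 : ∀ a < δ, ∃ γ, a ≤ e γ := by
    intro a ha
    by_contra hcon
    push Not at hcon
    exact h3 a hcon ha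
  obtain ⟨w0, _⟩ := W_bdd ∅ (by
    rw [mk_eq_zero]
    exact zero_le)
  refine ⟨δ, lt_of_le_of_lt (not_lt.1 (h3 c fun γ => h1 _ ⟨γ, rfl⟩)) hc,
    (hbe w0 δ0 (mem_insert _ _)).trans (h2 w0), fun a ha => ?_, fun S hS hSδ => ?_⟩
  · obtain ⟨γ, hγ⟩ := h4 a ha
    obtain ⟨γ', hγ'⟩ := hWmax γ
    have h5 : h a < H (e γ) := (hH _ (hem γ)).2 _ (Or.inr ⟨a, hγ, rfl⟩)
    exact h5.trans ((hstep γ' γ hγ').trans (h2 γ'))
  · have h5 : ∀ x : S, ∃ γ, x.1 ≤ e γ := fun x => h4 x.1 (hSδ x.1 x.2)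
    choose g hg using h5
    obtain ⟨γs, hγs⟩ := W_bdd (range g) (mk_range_le.trans hS)
    refine ⟨e γs, h2 γs, fun x hx => ?_⟩
    have h6 : e (g ⟨x, hx⟩) < H (e (g ⟨x, hx⟩)) := (hH _ (hem _)).2 _ (mem_insert _ _)
    exact (hg ⟨x, hx⟩).trans_lt (h6.trans (hstep γs _ (hγs _ ⟨⟨x, hx⟩, rfl⟩)))

/-- pressing down -/
theorem pressk {θ : Cardinal.{0}} (hθ : ℵ₀ ≤ θ) {m : K} (hm : Ina m) (hθm : θ < #(Iio m)) {C : Type} (code : K → C) (Cs : K → Set C)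
    (hC : ∀ γ < m, #(Cs γ) < #(Iio m)) (b : K → K) (hb : ∀ ν < m, b ν < m) {δ0 : K} (hδ0 : δ0 < m)
    (hreg : ∀ ν < m, δ0 < ν → Cfk θ ν → ∃ γ < ν, code ν ∈ Cs γ) :
    ∃ ν0 ν1, δ0 < ν0 ∧ ν0 < ν1 ∧ ν1 < m ∧ Cfk θ ν1 ∧ b ν0 < ν1 ∧ code ν0 = code ν1 := by
  classical
  have h1 : ∀ v : C, ∃ ν, (∃ ν, δ0 < ν ∧ ν < m ∧ code ν = v) → δ0 < ν ∧ ν < m ∧ code ν = v := by
    intro v
    by_cases h : ∃ ν, δ0 < ν ∧ ν < m ∧ code ν = v
    · obtain ⟨ν, hν⟩ := h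
      exact ⟨ν, fun _ => hν⟩
    · exact ⟨δ0, fun h' => absurd h' h⟩
  choose f hf using h1
  have h2 : ∀ γ, ∃ c, γ < m → c < m ∧ ∀ v ∈ Cs γ, (∃ ν, δ0 < ν ∧ ν < m ∧ code ν = v) →
      f v < c ∧ b (f v) < c := by
    intro γ
    by_cases hγ : γ < m
    · obtain ⟨c, hc, h3⟩ := hm.bd ((f '' {v | v ∈ Cs γ ∧ ∃ ν, δ0 < ν ∧ ν < m ∧ code ν = v}) ∪
        ((fun v => b (f v)) '' {v | v ∈ Cs γ ∧ ∃ ν, δ0 < ν ∧ ν < m ∧ code ν = v})) (by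
        rintro _ (⟨v, hv, rfl⟩ | ⟨v, hv, rfl⟩)
        · exact (hf v hv.2).2.1
        · exact hb _ (hf v hv.2).2.1) (by
        refine (mk_union_le _ _).trans_lt (add_lt_of_lt hm.ina.aleph0_lt.le
          (mk_image_le.trans_lt ?_) (mk_image_le.trans_lt ?_))
        · exact (mk_le_mk_of_subset fun v hv => hv.1).trans_lt (hC γ hγ)
        · exact (mk_le_mk_of_subset fun v hv => hv.1).trans_lt (hC γ hγ))
      exact ⟨c, fun _ => ⟨hc, fun v hv hv' => ⟨h3 _ (Or.inl ⟨v, ⟨hv, hv'⟩, rfl⟩),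
        h3 _ (Or.inr ⟨v, ⟨hv, hv'⟩, rfl⟩)⟩⟩⟩
    · exact ⟨γ, fun h' => absurd h' hγ⟩
  choose h hh using h2
  obtain ⟨δ, hδ1, hδ2, hδ3, hδ4⟩ := exists_closedk hθ hm hθm h (fun a ha => (hh a ha).1) hδ0
  obtain ⟨γ, hγ, h3⟩ := hreg δ hδ1 hδ2 hδ4
  have h4 : ∃ ν, δ0 < ν ∧ ν < m ∧ code ν = code δ := ⟨δ, hδ2, hδ1, rfl⟩
  obtain ⟨h5, h6⟩ := (hh γ (hγ.trans hδ1)).2 _ h3 h4
  obtain ⟨h7, h8, h9⟩ := hf _ h4
  have h10 := hδ3 γ hγ
  exact ⟨f (code δ), δ, h7, h5.trans h10, hδ1, hδ4, h6.trans h10, h9⟩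

end

end Run7.h413
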