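import Mathlib
import Pool.Agent.Run7.h413.StepC1
import Pool.Agent.W873.Ta.StepB7

set_option autoImplicit false
set_option linter.unusedSectionVars false
set_option linter.unusedVariables false

/-!
# The contradiction
-/

namespace Run7.h413

open Set Cardinal Pool.Agent.Helper669.Forcing
open Pool.Agent.W873.Vi (Co Ik)
open Pool.Agent.W873.Gp (down_EqOn meets_of_dense not_meets)
open Pool.Agent.W873.Ta (Pt Re Pre Rg Rg_mono pm pm_lt pm_ge le_pm Bc pad pad_length exists_strings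
  Ina)

section

variable {K : Type} [LinearOrder K] [WellFoundedLT K] {D : Dat K} {L : Type} {d : L → Set (Fc D)}
  {m : K}

theorem name_contra {S : Set L} {τ : L → Set (Fc D)} (hτ : Nmm m S τ) {l : L} (hl : l ∈ S)
    {G G' Q : Fc D} (hGe : G ∈ Pool.Agent.W873.Gp.EqOn d τ S)
    (hGe' : G' ∈ Pool.Agent.W873.Gp.EqOn d τ S)
    (hQ : rm m G = Q) (hG' : G' ≤ Q) (h : G ∈ meets (d l)) (h' : G' ∈ fnot (meets (d l))) :
    False := by
  have h1 := (hGe l hl _ le_rfl).1 h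
  have h2 := hτ l hl G h1
  rw [hQ] at h2
  exact h' G' le_rfl ((hGe' l hl _ le_rfl).2 (down_meets _ _ h2 _ hG'))

/-- the levels and coordinates of a condition -/
def Sp (r : Fc D) : Set K := {a | r.p.v a ≠ []} ∪ D.lev '' {j | r.u.v j ≠ none}

theorem Sp_le {θ : Cardinal.{0}} (hθ : ℵ₀ ≤ θ) (tot : ∀ u : Un D, #{j | u.v j ≠ none} ≤ θ)
    (r : Fc D) : #(Sp r) ≤ θ :=
  (mk_union_le _ _).trans (add_le_of_le hθ (r.p.fin.countable.le_aleph0.trans hθ)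
    (mk_image_le.trans (tot r.u)))

theorem rm_of_Sp {γ : K} {r : Fc D} (h : ∀ a ∈ Sp r, a < γ) : rm γ r = r := by
  refine rm_self (fun a ha => ?_) fun j hj => ?_
  · by_contra hcon
    exact ha (h a (Or.inl hcon))
  · by_contra hcon
    exact hj (h _ (Or.inr ⟨j, hcon, rfl⟩))

theorem Sp_rm {γ : K} {r : Fc D} : Sp (rm γ r) ⊆ Sp r ∩ Iio γ := by
  rintro a (ha | ⟨j, hj, rfl⟩)
  · change (rm γ r).p.v a ≠ [] at ha
    by_cases h : a < γ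
    · rw [rm_p_lt h] at ha
      exact ⟨Or.inl ha, h⟩
    · exact absurd (rm_p_ge h) ha
  · change (rm γ r).u.v j ≠ none at hj
    by_cases h : D.lev j < γ
    · rw [rm_u_lt h] at hj
      exact ⟨Or.inr ⟨j, hj, rfl⟩, h⟩
    · exact absurd (rm_u_ge h) hj

/-- the main result of this file -/
theorem guess_all {θ : Cardinal.{0}} (hθ : ℵ₀ ≤ θ) (hm : Ina m) (hθm : θ < #(Iio m))
    (tot : ∀ u : Un D, #{j | u.v j ≠ none} ≤ θ)
    (hsz : ∀ γ < m, #{r : Fc D | rm γ r = r} < #(Iio m)) {X : Set L} {r0 : Fc D}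
    (h2 : ∀ S ⊆ X, S.Countable → ∃ (I : Type) (τ : I → L → Set (Fc D)), #I < #(Iio m) ∧
      (∀ i, Nmm m S (τ i)) ∧ ∀ r ≤ r0, ∃ r' ≤ r, ∃ i, r' ∈ Pool.Agent.W873.Gp.EqOn d (τ i) S) :
    ∃ r ≤ r0, ∀ l ∈ X, ∀ s0 ≤ r, ∀ s1 ≤ r, rm m s0 = rm m s1 →
      s0 ∈ meets (d l) → s1 ∉ fnot (meets (d l)) := by
  classical
  by_contra hcon
  push Not at hcon
  have hng : ∀ r ≤ r0, ∃ l ∈ X, ∃ s0 ≤ r, ∃ s1 ≤ r,
      rm m s0 = rm m s1 ∧ s0 ∈ meets (d l) ∧ s1 ∈ fnot (meets (d l)) := by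
    intro r hr
    obtain ⟨l, hl, s0, hs0, s1, hs1, h⟩ := hcon r hr
    exact ⟨l, hl, s0, hs0, s1, hs1, h⟩
  obtain ⟨p, hp, u0, hu0, hA⟩ := stepA (m := m) (d := d) (X := X) (r0 := r0) (by
    intro S hS hSc r hr
    obtain ⟨I, τ, _, h3, h4⟩ := h2 S hS hSc
    obtain ⟨r', hr', i, h5⟩ := h4 r hr
    exact ⟨r', hr', τ i, h3 i, h5⟩)
  obtain ⟨R, hR0, A, l, b, hD⟩ := exists_run hA fun t u hu => mt_all hp hu0 hA hng t hu
  obtain ⟨I, τ, hI, hτ, hex⟩ := h2 (range l) (by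
    rintro _ ⟨n, rfl⟩
    exact hD.lX n) (countable_range l)
  -- the bound
  have hcf := cfk_of hm hθm
  obtain ⟨δ0, hδ0, hbd⟩ := hcf (A ∩ Iio m)
    ((hD.cnt.mono inter_subset_left).le_aleph0.trans hθ) fun a ha => ha.2
  have hνA : ∀ ν, δ0 < ν → ν < m → ν ∉ A := fun ν h1 h2 h3 =>
    lt_asymm h1 (hbd ν ⟨h3, h2⟩)
  -- the conditions
  have hex' : ∀ ν, ∃ (r2 : Fc D) (i : I), ∀ h : δ0 < ν ∧ ν < m,
      r2 ≤ ⟨p, R.TN ν h.2⟩ ∧ r2 ∈ Pool.Agent.W873.Gp.EqOn d (τ i) (range l) := by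
    intro ν
    by_cases hν : δ0 < ν ∧ ν < m
    · obtain ⟨r1, hr1, i, hi⟩ := hex ⟨p, R.TN ν hν.2⟩
        (cd_le hp ((Run.TN_le0.trans hR0).trans hu0))
      exact ⟨r1, i, fun _ => ⟨hr1, hi⟩⟩
    · obtain ⟨_, _, i, _⟩ := hex r0 le_rfl
      exact ⟨r0, i, fun h => absurd h hν⟩
  choose r2 i hr using hex'
  have hbb : ∀ ν, ∃ c, c < m ∧ ∀ a ∈ Sp (r2 ν), a < m → a < c := by
    intro ν
    obtain ⟨c, hc, h3⟩ := hcf (Sp (r2 ν) ∩ Iio m)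
      ((mk_le_mk_of_subset inter_subset_left).trans (Sp_le hθ tot _)) fun a ha => ha.2
    exact ⟨c, hc, fun a ha ham => h3 a ⟨ha, ham⟩⟩
  choose bb hbb1 hbb2 using hbb
  obtain ⟨ν0, ν1, hν0, h01, hν1, _, hbν, hcode⟩ := pressk hθ hm hθm
    (fun ν => (rm ν (r2 ν), i ν)) (fun γ => {x : Fc D × I | rm γ x.1 = x.1}) (by
      intro γ hγ
      have h3 := Pool.Agent.W873.Vi.lt_prod hm.ina (hsz γ hγ) hI
      refine lt_of_le_of_lt ?_ h3
      refine mk_le_of_injective (f := fun x : {x : Fc D × I | rm γ x.1 = x.1} =>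
        ((⟨x.1.1, x.2⟩ : {r : Fc D | rm γ r = r}), x.1.2)) ?_
      rintro ⟨⟨x, j⟩, hx⟩ ⟨⟨x', j'⟩, hx'⟩ h
      simp only [Prod.mk.injEq, Subtype.mk.injEq] at h
      exact Subtype.ext (Prod.ext h.1 h.2)) bb (fun ν _ => hbb1 ν) hδ0 (by
      intro ν hν hδν hc
      obtain ⟨γ, hγ, h3⟩ := hc (Sp (r2 ν) ∩ Iio ν)
        ((mk_le_mk_of_subset inter_subset_left).trans (Sp_le hθ tot _)) fun a ha => ha.2
      exact ⟨γ, hγ, rm_of_Sp fun a ha => h3 a (Sp_rm ha)⟩)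
  simp only [Prod.mk.injEq] at hcode
  obtain ⟨hcode1, hcode2⟩ := hcode
  have hν0m := h01.trans hν1
  obtain ⟨a1, a2⟩ := hr ν0 ⟨hν0, hν0m⟩
  obtain ⟨b1, b2⟩ := hr ν1 ⟨hν0.trans h01, hν1⟩
  -- gluing at `ν1`
  set Q := rm m (r2 ν0) with hQ
  have hQν1 : rm ν1 Q = Q := rm_of_Sp fun a ha => by
    have h3 := Sp_rm ha
    exact (hbb2 ν0 a h3.1 h3.2).trans hbν
  have hQle : Q ≤ rm ν1 (r2 ν1) := by
    rw [← hcode1]
    have h3 : rm ν0 Q = rm ν0 (r2 ν0) := rm_rm hν0m.le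
    rw [← h3]
    exact le_rm
  set g := glue ν1 Q (r2 ν1) with hg
  have hg1 : g ≤ r2 ν1 := glue_le hQν1 hQle
  have hg2 : g ≤ Q := glue_le' hQν1
  set Q1 := rm m g with hQ1
  have hQr : rm m Q = Q := rm_idem
  have hQ1Q : Q1 ≤ Q := by
    have h3 := rm_mono (m := m) hg2
    rwa [hQr] at h3
  obtain ⟨i0, i1, hi0, hi1, hii, hine⟩ := exists_strings (Q1.p.v ν0) (Q1.p.v ν1)
  have hQp : ∀ a < m, p.v a <+: Q1.p.v a := by
    intro a ha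
    have h3 := hQ1Q.1 a
    rw [hQ, rm_p_lt ha] at h3
    exact (a1.1 a).trans h3
  -- the task
  let u : Bc p m := ⟨Co.mrg (A ∩ Iio m) Q1.p p, by
    refine ⟨fun a => ?_, fun a ha => Co.mrg_neg fun h => absurd h.2 (not_lt.2 ha)⟩
    by_cases h : a ∈ A ∩ Iio m
    · rw [Co.mrg_pos h]
      exact hQp a h.2
    · rw [Co.mrg_neg h]⟩
  obtain ⟨n, hn, htu, hd1, hd0⟩ := hD.ex u (fun a ha => by
    change (Co.mrg (A ∩ Iio m) Q1.p p).v a = []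
    rw [Co.mrg_neg fun h => ha h.1]
    exact hD.pA a ha) i0 i1 hii hine
  -- the extension of `Q1`
  let v : K → List Bool := fun a => if a ∈ A ∩ Iio m then (R.t n).1.v a else if a = ν0 then
    pad (n + 1) i0 else if a = ν1 then pad (n + 1) i1 else Q1.p.v a
  have hvA : ∀ a ∈ A ∩ Iio m, v a = (R.t n).1.v a := fun a ha => if_pos ha
  have hν0A : ν0 ∉ A ∩ Iio m := fun h => hνA ν0 hν0 hν0m h.1
  have hν1A : ν1 ∉ A ∩ Iio m := fun h => hνA ν1 (hν0.trans h01) hν1 h.1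
  have hv0 : v ν0 = pad (n + 1) i0 := by
    simp only [v]
    rw [if_neg hν0A, if_pos trivial]
  have hv1 : v ν1 = pad (n + 1) i1 := by
    simp only [v]
    rw [if_neg hν1A, if_neg h01.ne', if_pos trivial]
  have hvo : ∀ a, a ∉ A ∩ Iio m → a ≠ ν0 → a ≠ ν1 → v a = Q1.p.v a := by
    intro a h3 h4 h5
    simp only [v]
    rw [if_neg h3, if_neg h4, if_neg h5]
  have hvfin : {a | v a ≠ []}.Finite := by
    refine (((R.t n).1.fin.union Q1.p.fin).union (Set.toFinite {ν0, ν1})).subset fun a ha => ?_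
    by_cases h3 : a ∈ A ∩ Iio m
    · rw [mem_ofPred_eq, hvA a h3] at ha
      exact Or.inl (Or.inl ha)
    · by_cases h4 : a = ν0
      · exact Or.inr (Or.inl h4)
      · by_cases h5 : a = ν1
        · exact Or.inr (Or.inr h5)
        · rw [mem_ofPred_eq, hvo a h3 h4 h5] at ha
          exact Or.inl (Or.inr ha)
  let pv : Co K := ⟨v, hvfin⟩
  have hpv : pv ≤ Q1.p := by
    intro a
    change _ <+: v a
    by_cases h3 : a ∈ A ∩ Iio m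
    · rw [hvA a h3]
      have h4 := htu a
      change (Co.mrg (A ∩ Iio m) Q1.p p).v a <+: _ at h4
      rwa [Co.mrg_pos h3] at h4
    · by_cases h4 : a = ν0
      · rw [h4, hv0]
        exact hi0.trans (List.prefix_append _ _)
      · by_cases h5 : a = ν1
        · rw [h5, hv1]
          exact hi1.trans (List.prefix_append _ _)
        · rw [hvo a h3 h4 h5]
  have hQ1r : rm m Q1 = Q1 := rm_idem
  let Q2 : Fc D := ⟨pv, Q1.u⟩
  have hQ21 : Q2 ≤ Q1 := cd_le hpv le_rfl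
  have hQ2r : rm m Q2 = Q2 := by
    refine rm_self (fun a ha => ?_) (fun j hj => rm_u hQ1r hj)
    change v a = []
    rw [hvo a (fun h => ha h.2) (fun h => ha (h ▸ hν0m)) (fun h => ha (h ▸ hν1))]
    exact rm_p hQ1r ha
  have hQ2v : ∀ a, Q2.p.v a = v a := fun a => rfl
  obtain ⟨G0, hG0, hG0Q, hG0r⟩ : ∃ G0, G0 ≤ r2 ν0 ∧ G0 ≤ Q2 ∧ rm m G0 = Q2 :=
    ⟨glue m Q2 (r2 ν0), glue_le hQ2r (hQ21.trans hQ1Q), glue_le' hQ2r, rm_glue hQ2r⟩
  obtain ⟨G1, hG1, hG1Q, hG1r⟩ : ∃ G1, G1 ≤ g ∧ G1 ≤ Q2 ∧ rm m G1 = Q2 :=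
    ⟨glue m Q2 g, glue_le hQ2r hQ21, glue_le' hQ2r, rm_glue hQ2r⟩
  have hG0v : ∀ a < m, G0.p.v a = v a := by
    intro a ha
    rw [← hQ2v, ← hG0r, rm_p_lt ha]
  have hG1v : ∀ a < m, G1.p.v a = v a := by
    intro a ha
    rw [← hQ2v, ← hG1r, rm_p_lt ha]
  have hlen0 : (pad (n + 1) i0).length = n + 1 := pad_length hn
  have hlen1 : (pad (n + 1) i1).length = n + 1 := pad_length (hii ▸ hn)
  have hGp : ∀ G : Fc D, (∀ a < m, G.p.v a = v a) → G.p ≤ p → G.p ≤ (R.t n).1 := by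
    intro G h3 h4 a
    by_cases ha : a < m
    · rw [h3 a ha]
      by_cases h5 : a ∈ A
      · rw [hvA a ⟨h5, ha⟩]
      · rw [hD.tA n a h5]
        exact List.nil_prefix
    · rw [(R.t n).2.2 a (not_lt.1 ha)]
      exact h4 a
  have c0 : G0 ≤ r2 ν0 := hG0
  have c1 : G1 ≤ r2 ν1 := hG1.trans hg1
  have hp0 : G0.p ≤ p := c0.1.trans a1.1
  have hp1 : G1.p ≤ p := c1.1.trans b1.1
  have e0 : G0 ∈ ds d (!b n) (l n) := by
    refine down_ds _ hd0 _ ?_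
    have h3 : G0 ≤ ⟨G0.p, R.TN ν0 hν0m⟩ := ⟨le_rfl, (c0.trans a1).2⟩
    have h4 := Run.TN_reg h3 (i := pad (n + 1) i0) (by rw [hG0v ν0 hν0m, hv0]) hlen0
    exact ⟨hGp G0 hG0v hp0, h4.2⟩
  have e1 : G1 ∈ ds d (b n) (l n) := by
    refine down_ds _ hd1 _ ?_
    have h3 : G1 ≤ ⟨G1.p, R.TN ν1 hν1⟩ := ⟨le_rfl, (c1.trans b1).2⟩
    have h4 := Run.TN_reg h3 (i := pad (n + 1) i1) (by rw [hG1v ν1 hν1, hv1]) hlen1
    exact ⟨hGp G1 hG1v hp1, h4.2⟩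
  have f0 : G0 ∈ Pool.Agent.W873.Gp.EqOn d (τ (i ν0)) (range l) := down_EqOn _ a2 _ c0
  have f1 : G1 ∈ Pool.Agent.W873.Gp.EqOn d (τ (i ν0)) (range l) := by
    rw [hcode2]
    exact down_EqOn _ b2 _ c1
  rcases hb : b n with _ | _
  · rw [hb] at e0 e1
    exact name_contra (hτ _) ⟨n, rfl⟩ f0 f1 hG0r hG1Q e0 e1
  · rw [hb] at e0 e1
    exact name_contra (hτ _) ⟨n, rfl⟩ f1 f0 hG1r hG0Q e1 e0

end

end Run7.h413
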