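import Mathlib
import Pool.Agent.Run7.h413.StepC
import Pool.Agent.W873.Ta.Cc

set_option autoImplicit false
set_option linter.unusedSectionVars false
set_option linter.unusedVariables false

/-!
# Counting conditions; the chain condition
-/

namespace Run7.h413

open Set Cardinal Filter Pool.Agent.Helper669.Forcing
open Pool.Agent.W873.Vi (Co Ik bddK mk_IioK lt_fun lt_prod lt_set lt_nat)
open Pool.Agent.W873.Ta (Pt Re Pre Rg Rg_mono pm pm_lt pm_ge le_pm Ina NM lt_Re lt_Bool)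

section

variable {K : Type} [LinearOrder K] {D : Dat K}

theorem lt_pi {μ : Cardinal.{0}} (hμ : μ.IsInaccessible) {A : Type} {B : A → Type} (hA : #A < μ)
    (hB : ∀ a, #(B a) < μ) : #(∀ a, B a) < μ := by
  have h1 : #(Σ a, B a) < μ := by
    rw [mk_sigma]
    exact sum_lt_of_isRegular hμ.isRegular hA hB
  refine lt_of_le_of_lt ?_ (lt_set hμ h1)
  refine mk_le_of_injective (f := fun (f : ∀ a, B a) => {x : Σ a, B a | x.2 = f x.1}) ?_
  intro f g h
  funext a
  have h2 : (⟨a, f a⟩ : Σ a, B a) ∈ {x : Σ a, B a | x.2 = f x.1} := rfl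
  simp only at h
  rw [h] at h2
  exact h2

theorem lt_option {μ : Cardinal.{0}} (hμ : μ.IsInaccessible) {A : Type} (hA : #A < μ) :
    #(Option A) < μ := by
  rw [mk_option]
  exact add_lt_of_lt hμ.aleph0_lt.le hA (one_lt_aleph0.trans hμ.aleph0_lt)

/-- there are few conditions below `γ` -/
theorem lt_rm {μ : Cardinal.{0}} (hμ : μ.IsInaccessible) {γ : K} (hγ : #(Iio γ) < μ)
    (hJ : #{j | D.lev j < γ} < μ) (hV : ∀ j, #(D.Val j) < μ) :
    #{r : Fc D | rm γ r = r} < μ := by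
  classical
  have hRe := lt_Re hμ
  have hLB : #(List Bool) < μ := (mk_le_aleph0 (α := List Bool)).trans_lt hμ.aleph0_lt
  have hF : #(Iio γ → List Bool) < μ := lt_fun hμ hγ hLB
  have hE : #(∀ j : {j | D.lev j < γ}, Option ((Iio γ → Re) → D.Val j.1)) < μ :=
    lt_pi hμ hJ fun j => lt_option hμ (lt_fun hμ (lt_fun hμ hγ hRe) (hV j.1))
  let ext : (Iio γ → Re) → Pt K := fun z x => if h : x < γ then z ⟨x, h⟩ else fun _ => false
  refine lt_of_le_of_lt ?_ (lt_prod hμ hF hE)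
  refine mk_le_of_injective (f := fun r : {r : Fc D | rm γ r = r} =>
    ((fun a : Iio γ => r.1.p.v a.1), (fun j : {j | D.lev j < γ} =>
      (r.1.u.v j.1).map fun f z => f (ext z)))) ?_
  rintro ⟨r, hr⟩ ⟨s, hs⟩ h
  simp only [Prod.mk.injEq] at h
  obtain ⟨h1, h2⟩ := h
  refine Subtype.ext (Fc.ext' (fun a => ?_) fun j => ?_)
  · by_cases ha : a < γ
    · exact congrFun h1 ⟨a, ha⟩
    · change r.p.v a = s.p.v a
      rw [rm_p hr ha, rm_p hs ha]
  · by_cases hj : D.lev j < γ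
    · change r.u.v j = s.u.v j
      have h3 := congrFun h2 ⟨j, hj⟩
      simp only at h3
      have key : ∀ f g : Pt K → D.Val j, De (D.lev j) f → De (D.lev j) g →
          ((fun z => f (ext z)) = fun z => g (ext z)) → f = g := by
        intro f g hf hg hfg
        funext y
        have h6 : ∀ x < D.lev j, y x = ext (fun x : Iio γ => y x.1) x := by
          intro x hx
          change y x = if h : x < γ then y x else fun _ => false
          rw [dif_pos (hx.trans hj)]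
        rw [hf y _ h6, hg y _ h6]
        exact congrFun hfg fun x : Iio γ => y x.1
      rcases h4 : r.u.v j with _ | f
      · rcases h5 : s.u.v j with _ | g
        · rfl
        · rw [h4, h5] at h3
          simp at h3
      · rcases h5 : s.u.v j with _ | g
        · rw [h4, h5] at h3
          simp at h3
        · rw [h4, h5] at h3
          simp only [Option.map_some, Option.some.injEq] at h3
          rw [key f g (r.u.ok j f h4) (s.u.ok j g h5) h3]
    · change r.u.v j = s.u.v j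
      rw [rm_u hr hj, rm_u hs hj]

/-- names below `m` -/
theorem nmm_of {L : Type} {m : K} [WellFoundedLT K] {N : Set (Fc D)}
    (hN : ∀ s ∈ N, rm m s = s) {r : Fc D} (h : r ∈ meets N) : rm m r ∈ meets N :=
  rm_meets hN h

end

variable {lam θ : Cardinal.{0}} {V : Ultrafilter (Ik lam)} {D : Dat (Ik lam)}

/-- there are few conditions below each index -/
structure Sml (θ : Cardinal.{0}) (D : Dat (Ik lam)) : Prop where
  inf : ℵ₀ ≤ θ
  lt : θ < lam
  tot : ∀ u : Un D, #{j | u.v j ≠ none} ≤ θ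
  sz : ∀ μ : Cardinal.{0}, μ.IsInaccessible → θ < μ → ∀ γ : Ik lam, #(Iio γ) < μ →
    #{r : Fc D | rm γ r = r} < μ

theorem inak (h : NM lam V) (hθ : θ < lam) :
    ∀ᶠ m in (V : Filter (Ik lam)), Ina m ∧ θ < #(Iio m) := by
  obtain ⟨a0, ha0⟩ := Pool.Agent.W873.Tp.exists_mk_Iio (κ := lam) hθ
  filter_upwards [h.inam, h.fine a0] with m h1 h2
  exact ⟨h1, by rw [← ha0]; exact h1.lt _ h2⟩

theorem Sml.bddSp (hD : Sml θ D) (h : NM lam V) (r : Fc D) : ∃ c : Ik lam, ∀ a ∈ Sp r, a < c :=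
  bddK h.ina.isRegular _ ((Sp_le hD.inf hD.tot r).trans_lt hD.lt)

theorem Sml.fineS (hD : Sml θ D) (h : NM lam V) (r : Fc D) :
    ∀ᶠ m in (V : Filter (Ik lam)), ∀ a ∈ Sp r, a < m := by
  obtain ⟨c, hc⟩ := hD.bddSp h r
  exact (h.fine c).mono fun m hm a ha => (hc a ha).trans hm

/-- the restrictions are constant -/
theorem Sml.const_rm (hD : Sml θ D) (h : NM lam V) (r : Ik lam → Fc D) :
    ∃ q, ∀ᶠ m in (V : Filter (Ik lam)), rm m (r m) = q := by
  obtain ⟨γ, hγ⟩ := h.const (Q := fun m γ => rm γ (rm m (r m)) = rm m (r m)) (by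
    filter_upwards [inak h hD.lt] with m hm
    obtain ⟨γ, hγ, h3⟩ := cfk_of hm.1 hm.2 (Sp (r m) ∩ Iio m)
      ((mk_le_mk_of_subset inter_subset_left).trans (Sp_le hD.inf hD.tot _)) fun a ha => ha.2
    exact ⟨γ, hγ, rm_of_Sp fun a ha => h3 a (Sp_rm ha)⟩)
  obtain ⟨q, _, hq⟩ := h.const' (fun m => rm m (r m)) {r | rm γ r = r}
    (hD.sz lam h.ina hD.lt γ (mk_IioK γ)) hγ
  exact ⟨q, hq⟩

/-- antichains have fewer than `lam` elements -/
theorem Sml.lt_antichain (hD : Sml θ D) (h : NM lam V) {S : Type}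
    (c : S → Fc D) (hc : ∀ s s', s ≠ s' → ∀ q ≤ c s, ¬ q ≤ c s') : #S < lam := by
  classical
  by_contra hcon
  rw [not_lt] at hcon
  have h1 : #(Ik lam) ≤ #S := by
    rw [mk_ord_toType]
    exact hcon
  obtain ⟨g⟩ := h1
  obtain ⟨q, hq⟩ := hD.const_rm h fun m => c (g m)
  obtain ⟨m0, a1⟩ := hq.exists
  obtain ⟨m1, b1, b4, b5⟩ := (hq.and ((hD.fineS h (c (g m0))).and (h.fine m0))).exists
  have hQ : rm m1 (c (g m0)) = c (g m0) := rm_of_Sp b4
  have hQ1 : c (g m0) ≤ rm m1 (c (g m1)) := by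
    rw [b1, ← a1]
    exact le_rm
  exact hc (g m0) (g m1) (fun he => b5.ne (g.injective he)) (glue m1 (c (g m0)) (c (g m1)))
    (glue_le' hQ) (glue_le hQ hQ1)

/-- a small name, with restrictions as elements -/
theorem Sml.exists_small (hD : Sml θ D) (h : NM lam V) (N : Set (Fc D)) :
    ∃ A : Set (Fc D), #A < lam ∧ (∀ s ∈ A, ∃ γ, rm γ s = s) ∧ ∀ r, r ∈ meets A ↔ r ∈ meets N := by
  classical
  -- a maximal antichain in the downward closure
  let E : Set (Fc D) := {t | ∃ s ∈ N, t ≤ s}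
  obtain ⟨M, hM⟩ := zorn_subset {M : Set (Fc D) | M ⊆ E ∧ ∀ s ∈ M, ∀ s' ∈ M, s ≠ s' →
    ∀ q ≤ s, ¬ q ≤ s'} (by
    intro c hc hch
    refine ⟨⋃₀ c, ⟨?_, ?_⟩, fun s hs => subset_sUnion_of_mem hs⟩
    · rintro t ⟨M, hM, ht⟩
      exact (hc hM).1 ht
    · rintro s ⟨M, hM, hs⟩ s' ⟨M', hM', hs'⟩ hne
      rcases hch.total hM hM' with h | h
      · exact (hc hM').2 s (h hs) s' hs' hne
      · exact (hc hM).2 s hs s' (h hs') hne)
  have hMp := hM.prop
  have hmax : ∀ t ∈ E, ∃ s ∈ M, ∃ q ≤ t, q ≤ s := by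
    intro t ht
    by_contra hcon
    push Not at hcon
    have h1 : insert t M ∈ {M : Set (Fc D) | M ⊆ E ∧ ∀ s ∈ M, ∀ s' ∈ M, s ≠ s' →
        ∀ q ≤ s, ¬ q ≤ s'} := by
      refine ⟨insert_subset ht hMp.1, ?_⟩
      rintro s (rfl | hs) s' (rfl | hs') hne q hq hq'
      · exact hne rfl
      · exact hcon s' hs' q hq hq'
      · exact hcon s hs q hq' hq
      · exact hMp.2 s hs s' hs' hne q hq hq'
    have h2 := hM.le_of_ge h1 (subset_insert t M) (mem_insert t M)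
    exact hcon t h2 t le_rfl le_rfl
  have hcard : #M < lam := hD.lt_antichain h (fun s : M => s.1) fun s s' hne q hq hq' =>
    hMp.2 s.1 s.2 s'.1 s'.2 (fun h => hne (Subtype.ext h)) q hq hq'
  have hbd : ∀ t : Fc D, ∃ γ, rm γ t ≤ t := by
    intro t
    obtain ⟨γ, hγ⟩ := hD.bddSp h t
    refine ⟨γ, ?_⟩
    rw [rm_of_Sp hγ]
  choose γ hγ using hbd
  refine ⟨range fun t : M => rm (γ t.1) t.1, mk_range_le.trans_lt hcard, ?_, fun r => ⟨?_, ?_⟩⟩
  · rintro _ ⟨t, rfl⟩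
    exact ⟨_, rm_idem⟩
  · intro hr q hq
    obtain ⟨q1, hq1, _, ⟨t, rfl⟩, hqs⟩ := hr q hq
    obtain ⟨s, hs, hts⟩ := hMp.1 t.2
    exact ⟨q1, hq1, s, hs, (hqs.trans (hγ t.1)).trans hts⟩
  · intro hr q hq
    obtain ⟨q1, hq1, s, hs, hqs⟩ := hr q hq
    obtain ⟨t, ht, q2, h1, h2⟩ := hmax q1 ⟨s, hs, hqs⟩
    exact ⟨q2, h1.trans hq1, _, ⟨⟨t, ht⟩, rfl⟩, h2.trans le_rm⟩

end Run7.h413
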