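import Mathlib
import Pool.Agent.Run7.h413.StepD
import Pool.Agent.Run7.h413.Defs
import Pool.Agent.W873.Ta.Tpf

set_option autoImplicit false
set_option linter.unusedSectionVars false
set_option linter.unusedVariables false

/-!
# The tree property
-/

namespace Run7.h413

open Set Cardinal Filter Pool.Agent.Helper669.Forcing
open Pool.Agent.W873.Vi (Co Ik bddK mk_IioK lt_fun lt_prod lt_set lt_nat lt_iUnion)
open Pool.Agent.W873.Gp (down_EqOn meets_of_dense not_meets)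
open Pool.Agent.W873.Ta (Pt Re Pre Rg Rg_mono pm pm_lt pm_ge le_pm Ina NM lt_Re lt_Bool exists_mac
  lt_Iic)

variable {lam θ : Cardinal.{0}} {V : Ultrafilter (Ik lam)} {D : Dat (Ik lam)} {L : Type}
  {R : L → L → Set (Fc D)} {ℓ : L → Ik lam → Set (Fc D)} {p0 : Fc D}

/-- the possible nodes at level `a` -/
def poss (ℓ : L → Ik lam → Set (Fc D)) (p0 : Fc D) (a : Ik lam) : Set L :=
  {u | ∃ p ≤ p0, p ∈ meets (ℓ u a)}

/-- trees of height `lam` with small levels -/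
structure Tr0 (R : L → L → Set (Fc D)) (ℓ : L → Ik lam → Set (Fc D)) (p0 : Fc D) : Prop where
  unique : ∀ {p : Fc D}, p ≤ p0 → ∀ {x : L} {a b : Ik lam}, p ∈ meets (ℓ x a) →
    p ∈ meets (ℓ x b) → a = b
  total : ∀ {p : Fc D}, p ≤ p0 → ∀ x : L, ∃ q ≤ p, ∃ a, q ∈ meets (ℓ x a)
  trans : ∀ {p : Fc D}, p ≤ p0 → ∀ {x y z : L}, p ∈ meets (R x y) → p ∈ meets (R y z) →
    p ∈ meets (R x z)
  pred : ∀ {p : Fc D}, p ≤ p0 → ∀ {y : L} {a b : Ik lam}, p ∈ meets (ℓ y b) → a < b →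
    ∃ q ≤ p, ∃ x, q ∈ meets (R x y) ∧ q ∈ meets (ℓ x a)
  uniq : ∀ {p : Fc D}, p ≤ p0 → ∀ {x y z : L} {a : Ik lam}, p ∈ meets (R x z) →
    p ∈ meets (R y z) → p ∈ meets (ℓ x a) → p ∈ meets (ℓ y a) → x = y
  ne : ∀ {p : Fc D}, p ≤ p0 → ∀ a : Ik lam, ∃ q ≤ p, ∃ x, q ∈ meets (ℓ x a)
  small : ∀ a, #(poss ℓ p0 a) < lam

theorem Tr0.comp (h0 : Tr0 R ℓ p0) {p : Fc D} (hp : p ≤ p0) {x y z : L} {a b : Ik lam}
    (h1 : p ∈ meets (R x z)) (h2 : p ∈ meets (R y z)) (h3 : p ∈ meets (ℓ x a))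
    (h4 : p ∈ meets (ℓ y b)) (hab : a < b) : p ∈ meets (R x y) := by
  refine meets_of_dense fun q hq => ?_
  obtain ⟨r, hr, x', hx', hx'a⟩ := h0.pred (hq.trans hp) (down_meets _ _ h4 _ hq) hab
  have hr0 : r ≤ p0 := hr.trans (hq.trans hp)
  have hrp : r ≤ p := hr.trans hq
  have := h0.uniq hr0 (down_meets _ _ h1 _ hrp) (h0.trans hr0 hx' (down_meets _ _ h2 _ hrp))
    (down_meets _ _ h3 _ hrp) hx'a
  exact ⟨r, hr, this ▸ hx'⟩

theorem Tr0.lt_lev (h0 : Tr0 R ℓ p0) (hD : Sml θ D) (h : NM lam V) (u : L) :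
    #{a | ∃ p ≤ p0, p ∈ meets (ℓ u a)} < lam := by
  choose c hc1 hc2 using fun a : {a | ∃ p ≤ p0, p ∈ meets (ℓ u a)} => a.2
  refine hD.lt_antichain h c fun a a' hne q hq hq' => hne (Subtype.ext ?_)
  exact h0.unique (hq.trans (hc1 a)) (down_meets _ _ (hc2 a) _ hq)
    (down_meets _ _ (hc2 a') _ hq')

/-- the possible nodes up to level `a` -/
def possL (ℓ : L → Ik lam → Set (Fc D)) (p0 : Fc D) (a : Ik lam) : Set L :=
  ⋃ b : Iic a, poss ℓ p0 b.1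

theorem Tr0.lt_possL (h0 : Tr0 R ℓ p0) (h : NM lam V) (a : Ik lam) : #(possL ℓ p0 a) < lam :=
  lt_iUnion h.ina.isRegular (lt_Iic h.unc a) _ fun b => h0.small b.1

/-- the nodes below `m` -/
def Xm (ℓ : L → Ik lam → Set (Fc D)) (p0 : Fc D) (m : Ik lam) : Set L :=
  {x | ∃ a < m, x ∈ poss ℓ p0 a}

/-- `m` is closed under the relevant functions -/
structure Gom (θ : Cardinal.{0}) (sm : Set (Fc D) → Set (Fc D)) (R : L → L → Set (Fc D))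
    (ℓ : L → Ik lam → Set (Fc D)) (p0 : Fc D) (m : Ik lam) : Prop where
  ina : Ina m
  θm : θ < #(Iio m)
  nm : ∀ a < m, ∀ x ∈ possL ℓ p0 a, ∀ z ∈ possL ℓ p0 a, ∀ s ∈ sm (R x z), rm m s = s
  lv : ∀ a < m, ∃ b < m, ∀ x ∈ poss ℓ p0 a, ∀ c, (∃ p ≤ p0, p ∈ meets (ℓ x c)) → c < b
  cd : ∀ a < m, #(poss ℓ p0 a) < #(Iio m)
  p0 : rm m p0 = p0

theorem Tr0.exists_Gom (h0 : Tr0 R ℓ p0) (hD : Sml θ D) (h : NM lam V)
    {sm : Set (Fc D) → Set (Fc D)} (sm1 : ∀ N, #(sm N) < lam)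
    (sm2 : ∀ N, ∀ s ∈ sm N, ∃ γ, rm γ s = s) :
    ∀ᶠ m in (V : Filter (Ik lam)), Gom θ sm R ℓ p0 m := by
  classical
  have hκ := h.ina
  -- the names
  have h1 : ∀ a, ∃ b, ∀ x ∈ possL ℓ p0 a, ∀ z ∈ possL ℓ p0 a, ∀ s ∈ sm (R x z), rm b s = s := by
    intro a
    choose g hg using sm2
    have h2 : ∀ x : possL ℓ p0 a × possL ℓ p0 a, #(range fun s : sm (R x.1.1 x.2.1) =>
        g (R x.1.1 x.2.1) s.1 s.2) < lam := fun x => mk_range_le.trans_lt (sm1 _)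
    have h3 := lt_iUnion hκ.isRegular (lt_prod hκ (h0.lt_possL h a) (h0.lt_possL h a)) _ h2
    obtain ⟨b, hb⟩ := bddK hκ.isRegular _ h3
    refine ⟨b, fun x hx z hz s hs => rm_up (hb _ ?_).le (hg _ s hs)⟩
    exact mem_iUnion.2 ⟨(⟨x, hx⟩, ⟨z, hz⟩), ⟨s, hs⟩, rfl⟩
  choose b1 hb1 using h1
  have h2 : ∀ a, ∃ b, ∀ x ∈ poss ℓ p0 a, ∀ c, (∃ p ≤ p0, p ∈ meets (ℓ x c)) → c < b := by
    intro a
    have h3 := lt_iUnion hκ.isRegular (h0.small a) (fun x : poss ℓ p0 a =>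
      {c | ∃ p ≤ p0, p ∈ meets (ℓ x.1 c)}) fun x => h0.lt_lev hD h x.1
    obtain ⟨b, hb⟩ := bddK hκ.isRegular _ h3
    exact ⟨b, fun x hx c hc => hb c (mem_iUnion.2 ⟨⟨x, hx⟩, hc⟩)⟩
  choose b2 hb2 using h2
  have h3 : ∀ a, ∃ b : Ik lam, #(poss ℓ p0 a) ≤ #(Iio b) := by
    intro a
    obtain ⟨b, hb⟩ := Pool.Agent.W873.Tp.exists_mk_Iio (κ := lam) (h0.small a)
    exact ⟨b, hb.ge⟩
  choose b3 hb3 using h3
  filter_upwards [inak h hD.lt, h.closed b1, h.closed b2, h.closed b3, hD.fineS h p0] with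
    m c1 c2 c3 c4 c5
  exact ⟨c1.1, c1.2, fun a ha x hx z hz s hs => rm_up (c2 a ha).le (hb1 a x hx z hz s hs),
    fun a ha => ⟨b2 a, c3 a ha, hb2 a⟩, fun a ha => (hb3 a).trans_lt (c1.1.lt _ (c4 a ha)),
    rm_of_Sp c5⟩

theorem Tr0.guess_tree (h0 : Tr0 R ℓ p0) (hD : Sml θ D) (h : NM lam V)
    {sm : Set (Fc D) → Set (Fc D)} (sm3 : ∀ N r, r ∈ meets (sm N) ↔ r ∈ meets N)
    {m : Ik lam} (hm : Gom θ sm R ℓ p0 m) {q : Fc D} (hq : q ≤ p0) {u : L}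
    (hu : q ∈ meets (ℓ u m)) :
    ∃ r ≤ q, ∀ x ∈ Xm ℓ p0 m, ∀ s0 ≤ r, ∀ s1 ≤ r,
      rm m s0 = rm m s1 → s0 ∈ meets (R x u) → s1 ∉ fnot (meets (R x u)) := by
  classical
  refine guess_all hD.inf hm.ina hm.θm hD.tot (fun γ hγ => hD.sz _ hm.ina.ina hm.θm γ
    (hm.ina.lt γ hγ)) (d := fun x => R x u) (X := Xm ℓ p0 m) (r0 := q) ?_
  intro S hS hSc
  choose a ha1 ha2 using fun x : S => hS x.2
  choose b hb1 hb2 using fun x : S => hm.lv (a x) (ha1 x)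
  have : Countable S := hSc.to_subtype
  obtain ⟨ξ, hξ, h1⟩ := hm.ina.cf (range a ∪ range b)
    ((countable_range a).union (countable_range b)) (by
    rintro _ (⟨x, rfl⟩ | ⟨x, rfl⟩)
    · exact ha1 x
    · exact hb1 x)
  refine ⟨poss ℓ p0 ξ, fun z x => sm (R x z.1), hm.cd ξ hξ, fun z l hl r hrl => ?_,
    fun r hr => ?_⟩
  · refine rm_meets (hm.nm ξ hξ l ?_ z.1 ?_) hrl
    · exact mem_iUnion.2 ⟨⟨a ⟨l, hl⟩, (h1 _ (Or.inl ⟨_, rfl⟩)).le⟩, ha2 ⟨l, hl⟩⟩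
    · exact mem_iUnion.2 ⟨⟨ξ, mem_Iic.2 le_rfl⟩, z.2⟩
  · obtain ⟨r', hr', z, hz1, hz2⟩ := h0.pred (hr.trans hq) (down_meets _ _ hu _ hr) hξ
    have hr'p : r' ≤ p0 := (hr'.trans hr).trans hq
    refine ⟨r', hr', ⟨z, r', hr'p, hz2⟩, fun x hx q' hq' => ?_⟩
    rw [sm3]
    have hq'p : q' ≤ p0 := hq'.trans hr'p
    constructor
    · intro h2
      refine meets_of_dense fun q2 hq2 => ?_
      obtain ⟨q3, hq3, c, hc⟩ := h0.total (hq2.trans hq'p) x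
      have hq3p : q3 ≤ p0 := hq3.trans (hq2.trans hq'p)
      have hcξ : c < ξ := (hb2 ⟨x, hx⟩ x (ha2 ⟨x, hx⟩) c ⟨q3, hq3p, hc⟩).trans
        (h1 _ (Or.inr ⟨_, rfl⟩))
      have hq3' : q3 ≤ q' := hq3.trans hq2
      have hq3r : q3 ≤ r' := hq3'.trans hq'
      exact ⟨q3, hq3, h0.comp hq3p (down_meets _ _ h2 _ hq3') (down_meets _ _ hz1 _ hq3r) hc
        (down_meets _ _ hz2 _ hq3r) hcξ⟩
    · intro h2
      exact h0.trans hq'p h2 (down_meets _ _ hz1 _ hq')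

/-- there is a cofinal branch -/
theorem Tr0.branch (h0 : Tr0 R ℓ p0) (hD : Sml θ D) (h : NM lam V) :
    ∃ qs ≤ p0, ∃ B : L → Set (Fc D),
      (∀ x y, ∀ q' ≤ qs, q' ∈ meets (B x) → q' ∈ meets (B y) → ∃ r ≤ q',
        x = y ∨ r ∈ meets (R x y) ∨ r ∈ meets (R y x)) ∧
      ∀ a, ∀ q' ≤ qs, ∃ r ≤ q', ∃ x, r ∈ meets (B x) ∧ r ∈ meets (ℓ x a) := by
  classical
  choose sm sm1 sm2 sm3 using hD.exists_small h
  have hG := h0.exists_Gom (sm := sm) hD h sm1 sm2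
  choose q hq u hu using fun m => h0.ne (le_refl p0) m
  have hr : ∀ m, ∃ r, Gom θ sm R ℓ p0 m → r ≤ q m ∧ ∀ x ∈ Xm ℓ p0 m, ∀ s0 ≤ r, ∀ s1 ≤ r,
      rm m s0 = rm m s1 → s0 ∈ meets (R x (u m)) →
        s1 ∉ fnot (meets (R x (u m))) := by
    intro m
    by_cases hm : Gom θ sm R ℓ p0 m
    · obtain ⟨r, h1, h2⟩ := h0.guess_tree hD h (fun N r => sm3 N r) hm (hq m) (hu m)
      exact ⟨r, fun _ => ⟨h1, h2⟩⟩
    · exact ⟨p0, fun h' => absurd h' hm⟩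
  choose r hr using hr
  let τ : Ik lam → L → Set (Fc D) := fun m x =>
    {s | ∃ s' ≤ r m, rm m s' = s ∧ s' ∈ meets (R x (u m))}
  -- the name is correct
  have hEq : ∀ m, Gom θ sm R ℓ p0 m → ∀ x ∈ Xm ℓ p0 m, ∀ s ≤ r m, s ∈ meets (τ m x) →
      s ∈ meets (R x (u m)) := by
    intro m hm x hx s hs h1
    obtain ⟨hr1, hr3⟩ := hr m hm
    by_contra hcon
    obtain ⟨q1, hq1, hn⟩ := not_meets hcon
    obtain ⟨q2, hq2, _, ⟨s', hs', rfl, hy⟩, hqs⟩ := h1 q1 hq1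
    have h2 : rm m q2 ≤ rm m s' := by
      have := rm_mono (m := m) hqs
      rwa [rm_idem] at this
    exact hr3 x hx (glue m (rm m q2) s') ((glue_le rm_idem h2).trans hs') q2
      (hq2.trans (hq1.trans hs)) (rm_glue rm_idem)
      (down_meets _ _ hy _ (glue_le rm_idem h2)) (down_fnot _ _ hn _ hq2)
  obtain ⟨qs, hqs⟩ := hD.const_rm h r
  let B : L → Set (Fc D) := fun x => {s | ∀ᶠ m in (V : Filter (Ik lam)), s ∈ τ m x}
  have hCo : ∀ᶠ m in (V : Filter (Ik lam)), ∀ x ∈ Xm ℓ p0 m, ∀ s, rm m s = s →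
      (s ∈ τ m x ↔ s ∈ B x) := by
    have h1 : ∀ a, ∀ᶠ m in (V : Filter (Ik lam)), ∀ x ∈ possL ℓ p0 a, ∀ s, rm a s = s →
        (s ∈ τ m x ↔ s ∈ B x) := by
      intro a
      have h2 := h.complete (possL ℓ p0 a × {s : Fc D | rm a s = s})
        (fun y m => (y.2.1 ∈ τ m y.1.1 ↔ y.2.1 ∈ B y.1.1))
        (lt_prod h.ina (h0.lt_possL h a) (hD.sz lam h.ina hD.lt a (mk_IioK a))) (by
          rintro ⟨x, s⟩
          by_cases h3 : ∀ᶠ m in (V : Filter (Ik lam)), s.1 ∈ τ m x.1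
          · exact h3.mono fun m hm => ⟨fun _ => h3, fun _ => hm⟩
          · exact (Ultrafilter.eventually_not.2 h3).mono fun m hm =>
              ⟨fun h4 => absurd h4 hm, fun h4 => absurd h4 h3⟩)
      exact h2.mono fun m hm x hx s hs => hm (⟨x, hx⟩, ⟨s, hs⟩)
    filter_upwards [h.diag h1, inak h hD.lt] with m hm1 hm2 x hx s hs
    obtain ⟨b, hb, hxb⟩ := hx
    obtain ⟨γ, hγ, h3⟩ := cfk_of hm2.1 hm2.2 (Sp s) (Sp_le hD.inf hD.tot _) fun a ha => by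
      rw [← hs] at ha
      exact (Sp_rm ha).2
    have hγs : rm γ s = s := rm_of_Sp h3
    refine hm1 (max b γ) (max_lt hb hγ) x ?_ s (rm_up (le_max_right _ _) hγs)
    exact mem_iUnion.2 ⟨⟨b, mem_Iic.2 (le_max_left _ _)⟩, hxb⟩
  have hqsp : qs ≤ p0 := by
    obtain ⟨m, hm1, hm2⟩ := (hG.and hqs).exists
    rw [← hm2]
    have h3 := rm_mono (m := m) ((hr m hm1).1.trans (hq m))
    rwa [hm1.p0] at h3
  have hBp : ∀ x, ∀ s ∈ B x, ∃ a, x ∈ poss ℓ p0 a := by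
    intro x s hs
    have hs' : ∀ᶠ m in (V : Filter (Ik lam)), s ∈ τ m x := hs
    obtain ⟨m, hm1, s', hs1, _, _⟩ := (hG.and hs').exists
    have hs'p : s' ≤ p0 := hs1.trans ((hr m hm1).1.trans (hq m))
    obtain ⟨q', hq', a, ha⟩ := h0.total hs'p x
    exact ⟨a, q', hq'.trans hs'p, ha⟩
  -- gluing with `r m`
  have hglue : ∀ m, rm m (r m) = qs → ∀ q' ≤ qs,
      (∀ a ∈ Sp q', a < m) → ∃ g ≤ r m, g ≤ q' := by
    intro m hms q' hq' hS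
    have h1 : rm m q' = q' := rm_of_Sp hS
    exact ⟨glue m q' (r m), glue_le h1 (by rwa [hms]), glue_le' h1⟩
  refine ⟨qs, hqsp, B, ?_, ?_⟩
  · intro x y q' hq' hx hy
    obtain ⟨q1, hq1, s1, hs1, hqs1⟩ := hx q' le_rfl
    obtain ⟨q2, hq2, s2, hs2, hqs2⟩ := hy q1 hq1
    obtain ⟨a, ha⟩ := hBp x s1 hs1
    obtain ⟨b, hb⟩ := hBp y s2 hs2
    have hs1' : ∀ᶠ m in (V : Filter (Ik lam)), s1 ∈ τ m x := hs1
    have hs2' : ∀ᶠ m in (V : Filter (Ik lam)), s2 ∈ τ m y := hs2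
    obtain ⟨m, c1, c2, c3, c4, c5, c6, c7⟩ := (hG.and (hqs.and (hs1'.and (hs2'.and ((h.fine a).and
      ((h.fine b).and (hD.fineS h q2))))))).exists
    obtain ⟨g, hg1, hg2⟩ := hglue m c2 q2 ((hq2.trans hq1).trans hq') c7
    have hgp : g ≤ p0 := hg1.trans ((hr m c1).1.trans (hq m))
    have e1 : g ∈ meets (R x (u m)) := hEq m c1 x ⟨a, c5, ha⟩ g hg1
      (meets_of_le c3 ((hg2.trans hq2).trans hqs1))
    have e2 : g ∈ meets (R y (u m)) := hEq m c1 y ⟨b, c6, hb⟩ g hg1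
      (meets_of_le c4 (hg2.trans hqs2))
    obtain ⟨g1, hg1', a', ha'⟩ := h0.total hgp x
    obtain ⟨g2, hg2', b', hb'⟩ := h0.total (hg1'.trans hgp) y
    have hg2g : g2 ≤ g := hg2'.trans hg1'
    have hg2p : g2 ≤ p0 := hg2g.trans hgp
    have f1 := down_meets _ _ e1 _ hg2g
    have f2 := down_meets _ _ e2 _ hg2g
    have f3 := down_meets _ _ ha' _ hg2'
    refine ⟨g2, (hg2g.trans (hg2.trans hq2)).trans hq1, ?_⟩
    rcases lt_trichotomy a' b' with hab | hab | hab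
    · exact Or.inr (Or.inl (h0.comp hg2p f1 f2 f3 hb' hab))
    · rw [← hab] at hb'
      exact Or.inl (h0.uniq hg2p f1 f2 f3 hb')
    · exact Or.inr (Or.inr (h0.comp hg2p f2 f1 hb' f3 hab))
  · intro a q' hq'
    obtain ⟨m, c1, c2, c3, c4, c5⟩ := (hG.and (hqs.and (hCo.and ((h.fine a).and
      (hD.fineS h q'))))).exists
    obtain ⟨g, hg1, hg2⟩ := hglue m c2 q' hq' c5
    obtain ⟨hr1, hr3⟩ := hr m c1
    have hgp : g ≤ p0 := hg1.trans (hr1.trans (hq m))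
    obtain ⟨g1, hg1', x, hx, hxa⟩ := h0.pred hgp (down_meets _ _ (hu m) _ (hg1.trans hr1)) c4
    have e1 : rm m g1 ∈ τ m x := ⟨g1, hg1'.trans hg1, rfl, hx⟩
    have e2 : x ∈ Xm ℓ p0 m := ⟨a, c4, g1, hg1'.trans hgp, hxa⟩
    have e3 : rm m g1 ∈ B x := (c3 x e2 _ rm_idem).1 e1
    exact ⟨g1, hg1'.trans hg2, x, meets_of_le e3 le_rm, hxa⟩

end Run7.h413
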