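import Mathlib
import Pool.Agent.Run7.h413.StepE
import Pool.Agent.Run7.h413.Util

set_option autoImplicit false
set_option linter.unusedSectionVars false
set_option linter.unusedVariables false

/-!
# There is no Aronszajn tree of height `lam`
-/

namespace Run7.h413

open Set Cardinal Filter Pool.Agent.Helper669.Forcing
open Pool.Agent.W873.Vi (Co Ik bddK mk_IioK lt_fun lt_prod lt_set lt_nat lt_iUnion)
open Pool.Agent.W873.Ta (Ina NM exists_mac)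

variable {lam θ : Cardinal.{0}} {V : Ultrafilter (Ik lam)} {D : Dat (Ik lam)} {T : Type}
  {R : T → T → Set (Fc D)} {ℓ : T → Ik lam → Set (Fc D)} {p0 : Fc D}

theorem mk_lt_of_lt_ord {β : Ordinal.{0}} (h : β < lam.ord) : #β.ToType < lam := by
  rw [mk_toType]
  exact lt_ord.1 h

theorem lt_poss_of (hD : Sml θ D) (h : NM lam V) {S : T → Set (Fc D)}
    (h2 : p0 ∈ SmallN lam.ord S) : #{u | ∃ p ≤ p0, p ∈ meets (S u)} < lam := by
  classical
  have hκ := h.ina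
  let E : Set (Fc D) := {q | q ≤ p0 ∧ ∃ β < lam.ord, ∃ F : T → β.ToType → Set (Fc D),
    q ∈ InjOn S F}
  obtain ⟨M, hMD, hM1, hM2⟩ := exists_mac E
  have hcard : #M < lam := hD.lt_antichain h (fun s : M => s.1) fun s s' hne q hq hq' =>
    hM1 s.1 s.2 s'.1 s'.2 (fun h => hne (Subtype.ext h)) q hq hq'
  choose β hβ F hF using fun q : M => (hMD q.2).2
  have hval : ∀ q : M, ∀ b : (β q).ToType,
      #{u | ∃ s ≤ q.1, s ∈ meets (S u) ∧ s ∈ meets (F q u b)} < lam := by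
    intro q b
    choose c hc1 hc2 hc3 using fun u : {u | ∃ s ≤ q.1, s ∈ meets (S u) ∧ s ∈ meets (F q u b)} => u.2
    refine hD.lt_antichain h c fun u u' hne s hs hs' => hne (Subtype.ext ?_)
    exact injOn_inj (hF q) (hs.trans (hc1 u)) (md (hc2 u) hs) (md (hc2 u') hs') (md (hc3 u) hs)
      (md (hc3 u') hs')
  have hval2 : ∀ q : M, #(⋃ b : (β q).ToType,
      {u | ∃ s ≤ q.1, s ∈ meets (S u) ∧ s ∈ meets (F q u b)}) < lam := fun q =>
    lt_iUnion hκ.isRegular (mk_lt_of_lt_ord (hβ q)) _ fun b => hval q b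
  have hU := lt_iUnion hκ.isRegular hcard _ hval2
  refine (mk_le_mk_of_subset ?_).trans_lt hU
  rintro u ⟨p, hp, hu⟩
  obtain ⟨q, hq, β', hβ', F', hF'⟩ := smallN_ex h2 hp
  obtain ⟨s, hs, q2, hq2, hq2s⟩ := hM2 q ⟨hq.trans hp, β', hβ', F', hF'⟩
  obtain ⟨q3, hq3, b, hb⟩ := injOn_tot (hF ⟨s, hs⟩) (q := q2) hq2s (x := u)
    (md hu (hq2.trans hq))
  exact mem_iUnion.2 ⟨⟨s, hs⟩, mem_iUnion.2 ⟨b, q3, hq3.trans hq2s,
    md hu (hq3.trans (hq2.trans hq)), hb⟩⟩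

theorem tr0_of (hD : Sml θ D) (h : NM lam V) (h1 : p0 ∈ TreeN lam.ord R ℓ)
    (h2 : p0 ∈ fall fun a : lam.ord.ToType => fand (fex fun x : T => meets (ℓ x a))
      (SmallN lam.ord fun x => ℓ x a)) : Tr0 R ℓ p0 := by
  have htr : ∀ {p : Fc D}, p ≤ p0 → ∀ {x y z : T}, p ∈ meets (R x y) → p ∈ meets (R y z) →
      p ∈ meets (R x z) := by
    intro p hp x y z h3 h4
    refine meets_dense fun q hq => ?_
    exact mem_fimp.1 (h1.2.1 x y z) q (hq.trans hp) ⟨md h3 hq, md h4 hq⟩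
  have hlt : ∀ {p : Fc D}, p ≤ p0 → ∀ {x y : T} {a b : Ik lam}, p ∈ meets (R x y) →
      p ∈ meets (ℓ x a) → p ∈ meets (ℓ y b) → a < b := by
    intro p hp x y a b h3 h4 h5
    obtain ⟨r, _, h6⟩ := mem_fimp.1 (h1.2.2.2.1 x y a b) p hp ⟨h3, h4, h5⟩
    exact h6
  refine ⟨fun hp => ?_, fun hp x => ?_, htr, fun hp => ?_, fun hp => ?_, fun hp a => ?_, fun a => ?_⟩
  · intro x a b h3 h4
    exact IsFun.unique (down_IsFun _ _ h1.1 _ hp) h3 h4
  · exact IsFun.total (down_IsFun _ _ h1.1 _ hp) x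
  · intro y a b h3 hab
    obtain ⟨r, hr, h4⟩ := mem_fimp.1 (h1.2.2.2.2 y b a hab) _ hp h3
    obtain ⟨s, hs, x, hx⟩ := mem_fex.1 h4 r le_rfl
    exact ⟨s, hs.trans hr, x, hx.1, hx.2⟩
  · intro x y z a h3 h4 h5 h6
    by_contra hne
    obtain ⟨r, hr, h7⟩ := mem_fimp.1 (h1.2.2.1 x y z) _ hp ⟨h3, h4⟩
    refine h7 r le_rfl ⟨fun _ _ he => hne he, fun q hq h8 => ?_, fun q hq h8 => ?_⟩
    · exact lt_irrefl _ (hlt ((hq.trans hr).trans hp) h8 (md h5 (hq.trans hr)) (md h6 (hq.trans hr)))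
    · exact lt_irrefl _ (hlt ((hq.trans hr).trans hp) h8 (md h6 (hq.trans hr)) (md h5 (hq.trans hr)))
  · obtain ⟨r, hr, x, hx⟩ := mem_fex.1 (h2 a).1 _ hp
    exact ⟨r, hr, x, hx⟩
  · exact lt_poss_of hD h (h2 a).2

theorem no_aron (hD : Sml θ D) (h : NM lam V) (p : Fc D) : p ∈ fnot (AronN (Fc D) lam.ord) := by
  classical
  intro q hq hA
  obtain ⟨r1, hr1, T, h1⟩ := mem_fex.1 hA q le_rfl
  obtain ⟨r2, hr2, R, h2⟩ := mem_fex.1 h1 r1 le_rfl
  obtain ⟨r3, hr3, ℓ, h3⟩ := mem_fex.1 h2 r2 le_rfl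
  obtain ⟨h3a, h3b, h3c⟩ := h3
  have h0 : Tr0 R ℓ r3 := tr0_of hD h h3a h3b
  obtain ⟨qs, hqs, B, hB1, hB2⟩ := h0.branch hD h
  have hch : qs ∈ ChainN R B := by
    intro x y
    refine mem_fimp.2 fun q' hq' hxy => ⟨q', le_rfl, ?_⟩
    intro q2 hq2 h4
    obtain ⟨r, hr, h5 | h5 | h5⟩ := hB1 x y q2 (hq2.trans hq') (md hxy.1 hq2) (md hxy.2 hq2)
    · exact h4.1 q2 le_rfl h5
    · exact h4.2.1 r hr h5
    · exact h4.2.2 r hr h5
  obtain ⟨r4, hr4, h4⟩ := mem_fimp.1 (h3c B) qs hqs hch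
  obtain ⟨r5, hr5, β, hβ, E, hE⟩ := smallN_ex h4 (le_refl r4)
  have h6 : ∀ a : Ik lam, ∃ c ≤ r5, ∃ x, ∃ b : β.ToType, c ∈ meets (B x) ∧ c ∈ meets (ℓ x a) ∧
      c ∈ meets (E x b) := by
    intro a
    obtain ⟨c, hc, x, hx, hxa⟩ := hB2 a r5 (hr5.trans hr4)
    obtain ⟨c2, hc2, b, hb⟩ := injOn_tot hE hc hx
    exact ⟨c2, hc2.trans hc, x, b, md hx hc2, md hxa hc2, hb⟩
  choose c hc x b hc1 hc2 hc3 using h6
  have h7 : ∀ b0 : β.ToType, #{a | b a = b0} < lam := by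
    intro b0
    refine hD.lt_antichain h (fun a : {a | b a = b0} => c a.1) fun a a' hne s hs hs' =>
      hne (Subtype.ext ?_)
    have e : x a.1 = x a'.1 := by
      refine injOn_inj (b := b0) hE (hs.trans (hc _)) (md (hc1 _) hs) (md (hc1 _) hs') ?_ ?_
      · have := md (hc3 a.1) hs
        rwa [a.2] at this
      · have := md (hc3 a'.1) hs'
        rwa [a'.2] at this
    have h8 : s ≤ r3 := ((hs.trans (hc _)).trans (hr5.trans hr4)).trans hqs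
    refine h0.unique h8 (md (hc2 _) hs) ?_
    rw [e]
    exact md (hc2 _) hs'
  have h8 := lt_iUnion h.ina.isRegular (mk_lt_of_lt_ord hβ) _ h7
  refine absurd h8 (not_lt.2 ?_)
  have h9 : (⋃ b0, {a | b a = b0}) = (univ : Set (Ik lam)) := by
    ext a
    simp
  rw [h9, mk_univ, mk_ord_toType]

end Run7.h413
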