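import Mathlib
import Pool.Agent.Run7.h413.StepF
import Pool.Agent.Run7.h413.Iface

set_option autoImplicit false
set_option linter.unusedSectionVars false
set_option linter.unusedVariables false

/-!
# The concrete forcing: counting
-/

namespace Run7.h413

open Set Cardinal Filter Pool.Agent.Helper669.Forcing
open Pool.Agent.W873.Vi (Co Ik bddK mk_IioK lt_fun lt_prod lt_set lt_nat lt_iUnion)
open Pool.Agent.W873.Ta (Pt Re Pre Rg Ina NM exists_mac lt_Re)

theorem od_lt (i : W1) : od i < (ℵ₁ : Cardinal.{0}).ord := (Ordinal.ToType.toOrd i).2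

theorem exists_od {o : Ordinal.{0}} (h : o < (ℵ₁ : Cardinal.{0}).ord) : ∃ i : W1, od i = o :=
  ⟨Ordinal.ToType.mk ⟨o, h⟩, by simp [od]⟩

theorem od_lt_od {i j : W1} : od i < od j ↔ i < j := by
  unfold od
  rw [Subtype.coe_lt_coe]
  exact (Ordinal.ToType.mk (o := (ℵ₁ : Cardinal.{0}).ord)).symm.lt_iff_lt

theorem lim1 : Order.IsSuccLimit (ℵ₁ : Cardinal.{0}).ord :=
  isSuccLimit_ord aleph0_lt_aleph_one.le

theorem beth_lt_kap {o : Ordinal.{0}} (h : o < (ℵ₁ : Cardinal.{0}).ord) : beth o < kap :=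
  beth_lt_beth.2 h

theorem succ_od_lt (i : W1) : Order.succ (od i) < (ℵ₁ : Cardinal.{0}).ord :=
  lim1.succ_lt (od_lt i)

theorem aleph1_le_kap : (ℵ₁ : Cardinal.{0}) ≤ kap := by
  have := Ordinal.card_le_beth (ℵ₁ : Cardinal.{0}).ord
  rwa [card_ord] at this

theorem aleph0_le_kap : ℵ₀ ≤ kap := aleph0_le_beth _

theorem succ_beth_le (o : Ordinal.{0}) : Order.succ (beth o) ≤ beth (Order.succ o) := by
  rw [beth_succ]
  exact Order.succ_le_of_lt (cantor _)

theorem succ_beth_lt_kap {o : Ordinal.{0}} (h : o < (ℵ₁ : Cardinal.{0}).ord) :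
    Order.succ (beth o) < kap :=
  (succ_beth_le o).trans_lt (beth_lt_kap (lim1.succ_lt h))

theorem mk_W1 : #W1 = ℵ₁ := mk_ord_toType _

theorem mk_Nu (i : W1) : #(Nu i) = Order.succ (beth (od i)) := mk_ord_toType _

theorem mk_Ch (i : W1) : #(Ch i) = beth (Order.succ (od i)) := mk_ord_toType _

theorem mk_Kp : #Kp = Order.succ kap := mk_ord_toType _

theorem mk_sig : #(Σ i : W1, Nu i) ≤ kap := by
  rw [mk_sigma]
  refine (sum_le_sum _ (fun _ => kap) fun i => ?_).trans ?_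
  · rw [mk_Nu]
    exact (succ_beth_lt_kap (od_lt i)).le
  · rw [sum_const, Cardinal.lift_id, Cardinal.lift_id, mk_W1]
    exact mul_le_of_le aleph0_le_kap aleph1_le_kap le_rfl

theorem mk_optW1 : #(Option W1) ≤ kap := by
  rw [mk_option, mk_W1]
  exact add_le_of_le aleph0_le_kap aleph1_le_kap (one_le_aleph0.trans aleph0_le_kap)

theorem bd_le {K : Type} [LinearOrder K] {b0 : K} (b : (cD K b0).Bk) : (cD K b0).bd b ≤ kap := by
  rcases b with _ | i
  · exact le_rfl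
  · exact (beth_lt_kap (od_lt i)).le

theorem cD_tot {K : Type} [LinearOrder K] {b0 : K} (u : Un (cD K b0)) :
    #{j | u.v j ≠ none} ≤ kap := by
  have h1 : {j | u.v j ≠ none} ⊆ ⋃ b : Option W1, {j | (cD K b0).blk j = b ∧ u.v j ≠ none} :=
    fun j hj => mem_iUnion.2 ⟨(cD K b0).blk j, rfl, hj⟩
  refine (mk_le_mk_of_subset h1).trans ((mk_iUnion_le_sum_mk).trans ?_)
  refine (sum_le_sum _ (fun _ => kap) fun b => (u.sm b).trans (bd_le b)).trans ?_
  rw [sum_const, Cardinal.lift_id, Cardinal.lift_id]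
  exact mul_le_of_le aleph0_le_kap mk_optW1 le_rfl

theorem succ_lt_ina {μ c : Cardinal.{0}} (hμ : μ.IsInaccessible) (h : c < μ) :
    Order.succ c < μ :=
  lt_of_le_of_lt (Order.succ_le_of_lt (cantor c)) (hμ.isStrongPrelimit h)

theorem cD_lt {K : Type} [LinearOrder K] {b0 : K} {μ : Cardinal.{0}} (hμ : μ.IsInaccessible)
    (hk : kap < μ) {γ : K} (hγ : #(Iio γ) < μ) : #{r : Fc (cD K b0) | rm γ r = r} < μ := by
  classical
  refine lt_rm hμ hγ ?_ ?_
  · have h1 : #((Σ i : W1, Nu i) ⊕ (Iio γ × Kp)) < μ := by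
      rw [mk_sum, Cardinal.lift_id, Cardinal.lift_id]
      refine add_lt_of_lt hμ.aleph0_lt.le (mk_sig.trans_lt hk) (lt_prod hμ hγ ?_)
      rw [mk_Kp]
      exact succ_lt_ina hμ hk
    refine lt_of_le_of_lt ?_ h1
    rw [mk_sum, Cardinal.lift_id, Cardinal.lift_id]
    have h2 : {j | (cD K b0).lev j < γ} ⊆ (Sum.inl '' (univ : Set (Σ i : W1, Nu i))) ∪
        range fun x : Iio γ × Kp => (Sum.inr (x.1.1, x.2) : (cD K b0).J) := by
      rintro (y | y) hy
      · exact Or.inl ⟨y, mem_univ _, rfl⟩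
      · exact Or.inr ⟨(⟨y.1, hy⟩, y.2), rfl⟩
    refine (mk_le_mk_of_subset h2).trans ((mk_union_le _ _).trans (add_le_add ?_ mk_range_le))
    exact mk_image_le.trans (mk_univ).le
  · rintro (x | x)
    · change #(Ch x.1) < μ
      rw [mk_Ch]
      exact (beth_lt_kap (succ_od_lt x.1)).trans hk
    · exact lt_Re hμ

theorem sml_cD {lam : Cardinal.{0}} (b0 : Ik lam) (h : kap < lam) : Sml kap (cD (Ik lam) b0) :=
  ⟨aleph0_le_kap, h, cD_tot, fun _ hμ hk _ hγ => cD_lt hμ hk hγ⟩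

end Run7.h413
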