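import Mathlib
import Pool.Agent.Run7.h413.StepG

set_option autoImplicit false
set_option linter.unusedSectionVars false
set_option linter.unusedVariables false

/-!
# Collapses
-/

namespace Run7.h413

open Set Cardinal Filter Pool.Agent.Helper669.Forcing
open Pool.Agent.W873.Vi (Co Ik bddK mk_IioK lt_fun lt_prod lt_set lt_nat lt_iUnion)
open Pool.Agent.W873.Ta (Pt Re Pre Rg Rg_mono Ina NM exists_mac lt_Re)

/-- the least witness gives an injective function -/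
theorem injN_least {P : Type} [Preorder P] {B N : Type} [LinearOrder N] [WellFoundedLT N]
    (A : B → N → Set P) {p : P}
    (h1 : ∀ q ≤ p, ∀ b, ∃ r ≤ q, ∃ x, r ∈ meets (A b x))
    (h2 : ∀ q ≤ p, ∀ b b' x, q ∈ meets (A b x) → q ∈ meets (A b' x) → b = b') :
    p ∈ InjN P B N := by
  have hdn : ∀ b x, Down {q | q ∈ meets (A b x) ∧ ∀ x' < x, q ∈ fnot (meets (A b x'))} :=
    fun b x r hr q hq => ⟨md hr.1 hq, fun x' hx' => down_fnot _ _ (hr.2 x' hx') _ hq⟩
  refine injN_mk fun q hq => ⟨q, le_rfl, fun b x => {q | q ∈ meets (A b x) ∧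
    ∀ x' < x, q ∈ fnot (meets (A b x'))}, ?_, ?_, ?_⟩
  · intro s hs b
    obtain ⟨r0, hr0, x0, hx0⟩ := h1 s (hs.trans hq) b
    obtain ⟨x, ⟨r, hr, hx⟩, hmin⟩ := WellFounded.has_min (wellFounded_lt (α := N))
      {x | ∃ r ≤ s, r ∈ meets (A b x)} ⟨x0, r0, hr0, hx0⟩
    exact ⟨r, hr, x, meets_of_mem ⟨hx, fun x' hx' r' hr' h => hmin x' ⟨r', hr'.trans hr, h⟩ hx'⟩⟩
  · intro s hs b x x' h h'
    obtain ⟨r, hr, ha⟩ := exists_of_meets (hdn b x) h
    obtain ⟨r', hr', ha'⟩ := exists_of_meets (hdn b x') (md h' hr)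
    have ha2 := hdn b x _ ha _ hr'
    rcases lt_trichotomy x x' with hl | hl | hl
    · exact absurd ha2.1 (ha'.2 x hl r' le_rfl)
    · exact hl
    · exact absurd ha'.1 (ha2.2 x' hl r' le_rfl)
  · intro s hs b b' x h h'
    obtain ⟨r, hr, ha⟩ := exists_of_meets (hdn b x) h
    obtain ⟨r', hr', ha'⟩ := exists_of_meets (hdn b' x) (md h' hr)
    exact h2 r' ((hr'.trans hr).trans (hs.trans hq)) b b' x (md ha.1 hr') ha'.1

section

variable {lam θ : Cardinal.{0}} {V : Ultrafilter (Ik lam)} {D : Dat (Ik lam)}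

/-- `lam` remains a cardinal -/
theorem card_lam (hD : Sml θ D) (h : NM lam V) (p : Fc D) : p ∈ CardN (Fc D) lam.ord := by
  intro β hβ q hq hI
  obtain ⟨r, hr, E, h1, h2, h3⟩ := injN_ex hI (le_refl q)
  choose c hc b hb using h1 r le_rfl
  have h7 : ∀ b0 : β.ToType, #{a | b a = b0} < lam := by
    intro b0
    refine hD.lt_antichain h (fun a : {a | b a = b0} => c a.1) fun a a' hne s hs hs' =>
      hne (Subtype.ext ?_)
    refine h3 s (hs.trans (hc _)) a.1 a'.1 b0 ?_ ?_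
    · have := md (hb a.1) hs
      rwa [a.2] at this
    · have := md (hb a'.1) hs'
      rwa [a'.2] at this
  have h8 := lt_iUnion h.ina.isRegular (mk_lt_of_lt_ord hβ) _ h7
  refine absurd h8 (not_lt.2 ?_)
  have h9 : (⋃ b0, {a | b a = b0}) = (univ : Set (Ik lam)) := by
    ext a
    simp
  rw [h9, mk_univ, mk_ord_toType]

end

section

variable {K : Type} [LinearOrder K] {D : Dat K}

/-- adding values -/
theorem Un.exists_adds (u : Un D) (S : Set D.J) (f : ∀ j, Pt K → D.Val j)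
    (hf : ∀ j ∈ S, De (D.lev j) (f j)) (hS : ∀ b, #{j | D.blk j = b ∧ j ∈ S} ≤ D.bd b) :
    ∃ u' : Un D, u' ≤ u ∧ (∀ j ∈ S, u.v j = none → u'.v j = some (f j)) ∧
      ∀ j, j ∉ S → u'.v j = u.v j := by
  classical
  let v : ∀ j, Option (Pt K → D.Val j) := fun j => (u.v j).or (if j ∈ S then some (f j) else none)
  have h1 : ∀ j g, u.v j = some g → v j = some g := fun j g hg => by simp [v, hg]
  have h2 : ∀ j, u.v j = none → v j = if j ∈ S then some (f j) else none :=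
    fun j hj => by simp [v, hj]
  refine ⟨⟨v, fun b => ?_, fun j g hg => ?_⟩, h1, fun j hj hn => ?_, fun j hj => ?_⟩
  · refine (mk_le_mk_of_subset ?_).trans (sm_add (u.sm b) (hS b))
    rintro j ⟨hb, hj⟩
    by_cases h3 : u.v j = none
    · rw [h2 j h3] at hj
      by_cases h4 : j ∈ S
      · exact Or.inr ⟨hb, h4⟩
      · rw [if_neg h4] at hj
        exact absurd rfl hj
    · exact Or.inl ⟨hb, h3⟩
  · rcases h3 : u.v j with _ | k
    · rw [h2 j h3] at hg
      by_cases h4 : j ∈ S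
      · rw [if_pos h4] at hg
        obtain rfl := Option.some.inj hg
        exact hf j h4
      · rw [if_neg h4] at hg
        exact absurd hg (by simp)
    · rw [h1 j k h3] at hg
      obtain rfl := Option.some.inj hg
      exact u.ok j _ h3
  · change v j = _
    rw [h2 j hn, if_pos hj]
  · change v j = _
    rcases h3 : u.v j with _ | k
    · rw [h2 j h3, if_neg hj]
    · exact h1 j k h3

theorem Un.exists_add (u : Un D) (j : D.J) (f : Pt K → D.Val j) (hf : De (D.lev j) f)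
    (hj : u.v j = none) : ∃ u' : Un D, u' ≤ u ∧ u'.v j = some f := by
  classical
  obtain ⟨u', hu', h1, _⟩ := u.exists_adds {j}
    (fun i => if h : i = j then h ▸ f else fun _ => (D.inh i).some) (by
      rintro i rfl
      rw [dif_pos rfl]
      exact hf) (by
      intro b
      refine (mk_le_mk_of_subset (t := {j}) ?_).trans ?_
      · rintro i ⟨_, hi⟩
        exact hi
      · rw [mk_singleton]
        exact one_le_aleph0.trans (D.inf b))
  refine ⟨u', hu', ?_⟩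
  rw [h1 j rfl hj, dif_pos rfl]

end

/-- points of a region with different coordinates -/
theorem exists_ne_pt {K : Type} [LinearOrder K] (p : Co K) {b b' : K} (h : b ≠ b') :
    ∃ y ∈ Rg p, y b ≠ y b' := by
  classical
  refine ⟨Pool.Agent.W873.Ta.owp p fun a _ => decide (a = b), Pool.Agent.W873.Ta.in_owp _ _,
    fun he => ?_⟩
  have h1 := congrFun he (max (p.v b).length (p.v b').length)
  change Pool.Agent.W873.Ta.ow (p.v b) _ _ = Pool.Agent.W873.Ta.ow (p.v b') _ _ at h1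
  rw [Pool.Agent.W873.Ta.ow_of_le (le_max_left _ _), Pool.Agent.W873.Ta.ow_of_le (le_max_right _ _)] at h1
  simp at h1
  exact h h1.symm

section

variable {K : Type} [LinearOrder K] {b0 : K}

theorem small_blk (u : Un (cD K b0)) (i : W1) :
    #{x : Nu i | u.v (Sum.inl ⟨i, x⟩) ≠ none} ≤ beth (od i) := by
  refine le_trans (mk_le_of_injective (f := fun x : {x : Nu i | u.v (Sum.inl ⟨i, x⟩) ≠ none} =>
    (⟨Sum.inl ⟨i, x.1⟩, rfl, x.2⟩ : {j | (cD K b0).blk j = some i ∧ u.v j ≠ none})) ?_) (u.sm (some i))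
  intro x x' h
  have h1 : (Sum.inl ⟨i, x.1⟩ : (Σ i : W1, Nu i) ⊕ (K × Kp)) = Sum.inl ⟨i, x'.1⟩ :=
    congrArg Subtype.val h
  exact Subtype.ext (sigma_mk_injective (Sum.inl_injective h1))

theorem gv_total (hb : ∀ a : K, b0 ≤ a) (u : Un (cD K b0)) {i : W1} {x : Nu i}
    (h : u.v (Sum.inl ⟨i, x⟩) ≠ none) : ∃ f : Pt K → Ch i, ∃ z,
      u.v (Sum.inl ⟨i, x⟩) = some f ∧ ∀ y, f y = z := by
  obtain ⟨f, hf⟩ := Option.ne_none_iff_exists'.1 h
  have h1 := u.ok _ f hf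
  exact ⟨f, f fun _ _ => false, hf, fun y => h1 y _ fun b hb' => absurd hb' (not_lt.2 (hb b))⟩

theorem genF_gv (hb : ∀ a : K, b0 ≤ a) (i : W1) : GenF (Fc (cD K b0)) (gv (b0 := b0) i) := by
  classical
  refine ⟨?_, ?_, ?_, ?_⟩
  · rintro r r' hr x z ⟨f, hf, hz⟩
    obtain ⟨g, hg, h1⟩ := hr.2 (Sum.inl ⟨i, x⟩) f hf
    refine ⟨g, hg, fun y => ?_⟩
    have h2 := r'.u.ok _ g hg
    obtain ⟨y', hy', _⟩ := exists_pt (m := b0) (p := r'.p) (y := y) fun a ha =>
      absurd ha (not_lt.2 (hb a))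
    rw [h2 y y' fun b hb' => absurd hb' (not_lt.2 (hb b)), h1 y' hy', hz]
  · rintro r x z z' ⟨f, hf, hz⟩ ⟨f', hf', hz'⟩
    rw [hf] at hf'
    obtain rfl := Option.some.inj hf'
    rw [← hz fun _ _ => false, hz']
  · intro r x
    obtain ⟨u', hu', h1, _⟩ := r.u.exists_adds
      {j | ∃ x' ≤ x, j = (Sum.inl ⟨i, x'⟩ : (Σ i : W1, Nu i) ⊕ (K × Kp))}
      (fun j _ => ((cD K b0).inh j).some) (fun _ _ _ _ _ => rfl) (by
        intro b
        by_cases hbi : b = some i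
        · subst hbi
          refine le_trans (mk_le_of_surjective (f := fun x' : Iic x =>
            (⟨Sum.inl ⟨i, x'.1⟩, rfl, x'.1, x'.2, rfl⟩ : {j | (cD K b0).blk j = some i ∧ j ∈
              {j | ∃ x' ≤ x, j = (Sum.inl ⟨i, x'⟩ : (Σ i : W1, Nu i) ⊕ (K × Kp))}})) ?_) ?_
          · rintro ⟨_, _, x', hx', rfl⟩
            exact ⟨⟨x', hx'⟩, rfl⟩
          · have := Order.lt_succ_iff.1 (Pool.Agent.W873.Ta.lt_Iic
              (κ := Order.succ (beth (od i))) (Order.lt_succ_of_le (aleph0_le_beth _)) x)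
            exact this
        · refine le_trans (le_of_eq (mk_eq_zero_iff.2 ⟨?_⟩)) zero_le
          rintro ⟨_, hj, x', _, rfl⟩
          exact hbi hj.symm)
    refine ⟨⟨r.p, u'⟩, Fc.mk_le le_rfl hu', fun x' hx' => ?_⟩
    have h2 : u'.v (Sum.inl ⟨i, x'⟩) ≠ none := by
      by_cases h3 : r.u.v (Sum.inl ⟨i, x'⟩) = none
      · rw [h1 _ ⟨x', hx', rfl⟩ h3]
        simp
      · obtain ⟨f, hf⟩ := Option.ne_none_iff_exists'.1 h3
        rw [hu' _ f hf]
        simp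
    obtain ⟨f, z, hf, hz⟩ := gv_total hb u' h2
    exact ⟨z, f, hf, hz⟩
  · intro r z
    have h1 : ∃ x : Nu i, r.u.v (Sum.inl ⟨i, x⟩) = none := by
      by_contra hcon
      push Not at hcon
      have h2 : {x : Nu i | r.u.v (Sum.inl ⟨i, x⟩) ≠ none} = Set.univ := by
        ext x
        simpa using hcon x
      have h3 := small_blk r.u i
      rw [h2, mk_univ, mk_Nu] at h3
      exact absurd h3 (not_le.2 (Order.lt_succ _))
    obtain ⟨x, hx⟩ := h1
    obtain ⟨u', hu', h1⟩ := r.u.exists_add (Sum.inl ⟨i, x⟩) (fun _ => z) (fun _ _ _ => rfl) hx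
    exact ⟨⟨r.p, u'⟩, Fc.mk_le le_rfl hu', x, _, h1, fun y => rfl⟩

theorem exists_free (u : Un (cD K b0)) (a : K) : ∃ ξ : Kp, u.v (Sum.inr (a, ξ)) = none := by
  by_contra hcon
  push Not at hcon
  have h1 : #Kp ≤ #{j | u.v j ≠ none} :=
    mk_le_of_injective (f := fun ξ : Kp => (⟨Sum.inr (a, ξ), hcon ξ⟩ : {j | u.v j ≠ none}))
      fun ξ ξ' h => by
        have h1 : (Sum.inr (a, ξ) : (Σ i : W1, Nu i) ⊕ (K × Kp)) = Sum.inr (a, ξ') :=
          congrArg Subtype.val h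
        exact (Prod.ext_iff.1 (Sum.inr_injective h1)).2
  rw [mk_Kp] at h1
  exact absurd (h1.trans (cD_tot u)) (not_le.2 (Order.lt_succ _))

theorem coll_seg (a : K) (p : Fc (cD K b0)) : p ∈ InjN (Fc (cD K b0)) (Iio a) Kp := by
  classical
  refine injN_least (fun b ξ => {q : Fc (cD K b0) | ∃ f : Pt K → Re,
    q.u.v (Sum.inr (a, ξ)) = some f ∧ ∀ y ∈ Rg q.p, f y = y b.1}) ?_ ?_
  · intro q hq b
    obtain ⟨ξ, hξ⟩ := exists_free q.u a
    obtain ⟨u', hu', h1⟩ := q.u.exists_add (Sum.inr (a, ξ)) (fun y => y b.1)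
      (fun y y' h => h b.1 b.2) hξ
    exact ⟨⟨q.p, u'⟩, Fc.mk_le le_rfl hu', ξ, meets_of_mem ⟨_, h1, fun y _ => rfl⟩⟩
  · intro q hq b b' ξ h h'
    obtain ⟨q1, hq1, s1, ⟨f1, hf1, h1⟩, hs1⟩ := h q le_rfl
    obtain ⟨q2, hq2, s2, ⟨f2, hf2, h2⟩, hs2⟩ := h' q1 hq1
    by_contra hne
    obtain ⟨y, hy, hyb⟩ := exists_ne_pt q2.p (b := b.1) (b' := b'.1) fun he => hne (Subtype.ext he)
    obtain ⟨g, hg, e1⟩ := (hq2.trans hs1).2 (Sum.inr (a, ξ)) f1 hf1
    obtain ⟨g', hg', e2⟩ := hs2.2 (Sum.inr (a, ξ)) f2 hf2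
    rw [hg] at hg'
    obtain rfl := Option.some.inj hg'
    refine hyb ?_
    rw [← h1 y (Rg_mono (hq2.trans hs1).1 hy), ← e1 y hy, e2 y hy, h2 y (Rg_mono hs2.1 hy)]

end

end Run7.h413
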