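import Mathlib
import Pool.Agent.Run7.h413.Cov2
import Pool.Agent.Run7.h413.StepH

set_option autoImplicit false
set_option linter.unusedSectionVars false
set_option linter.unusedVariables false

/-!
# Covering
-/

namespace Run7.h413

open Set Cardinal Pool.Agent.Helper669.Forcing
open Pool.Agent.W873.Vi (Co Ik exists_seq mk_IioK)
open Pool.Agent.W873.Ta (Pt Re Pre Rg Rg_mono)

/-- the blocks below `o` -/
def low (o : Ordinal.{0}) : Set (Option W1) := {b | ∃ i, b = some i ∧ od i < o}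

theorem some_low {o : Ordinal.{0}} {i : W1} : some i ∈ low o ↔ od i < o := by
  constructor
  · rintro ⟨i', h, h'⟩
    obtain rfl := Option.some.inj h
    exact h'
  · exact fun h => ⟨i, rfl, h⟩

theorem none_low {o : Ordinal.{0}} : none ∉ low o := by
  rintro ⟨i', h, _⟩
  exact absurd h (by simp)

theorem cnt_low {o : Ordinal.{0}} (ho : o < (ℵ₁ : Cardinal.{0}).ord) :
    #{i : W1 | od i < o} ≤ ℵ₀ := by
  obtain ⟨i0, hi0⟩ := exists_od ho
  have h1 : {i : W1 | od i < o} = Iio i0 := by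
    ext i
    rw [← hi0]
    exact od_lt_od
  rw [h1]
  have h2 : #(Iio i0) < Order.succ ℵ₀ := by
    rw [succ_aleph0]
    exact mk_IioK i0
  exact Order.lt_succ_iff.1 h2

theorem mk_toOrd_lt {α β : Ordinal.{0}} :
    #{x : α.ToType | (Ordinal.ToType.toOrd x).1 < β} ≤ β.card := by
  rw [← mk_toType]
  refine mk_le_of_injective (f := fun x : {x : α.ToType | (Ordinal.ToType.toOrd x).1 < β} =>
    Ordinal.ToType.mk ⟨(Ordinal.ToType.toOrd x.1).1, x.2⟩) ?_
  intro x x' h
  have h1 := (Ordinal.ToType.mk (o := β)).injective h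
  have h2 := congrArg Subtype.val h1
  simp only at h2
  exact Subtype.ext ((Ordinal.ToType.mk (o := α)).symm.injective (Subtype.ext h2))

section

variable {K : Type} [LinearOrder K] {b0 : K}

theorem bd_not_low {o : Ordinal.{0}} (ho : o ≤ (ℵ₁ : Cardinal.{0}).ord) {b : Option W1}
    (hb : b ∉ low o) : beth o ≤ (cD K b0).bd b := by
  rcases b with _ | i
  · exact beth_le_beth.2 ho
  · refine beth_le_beth.2 ?_
    by_contra hcon
    exact hb (some_low.2 (not_le.1 hcon))

theorem pow_succ_beth (o : Ordinal.{0}) : beth (Order.succ o) ^ beth o = beth (Order.succ o) := by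
  rw [beth_succ, ← power_mul, mul_eq_self (aleph0_le_beth _)]

theorem mk_Io {o : Ordinal.{0}} (ho : Order.succ o < (ℵ₁ : Cardinal.{0}).ord) :
    #{i : W1 // od i < Order.succ o} ≤ ℵ₀ := cnt_low ho

/-- the graph of the part in block `i` -/
def Gx (i : W1) (a : Un (cD K b0)) : Set (Nu i × Ch i) :=
  {x | ∃ f : Pt K → Ch i, a.v (Sum.inl ⟨i, x.1⟩) = some f ∧ ∀ y, f y = x.2}

theorem mk_Gx (i : W1) (a : Un (cD K b0)) : #(Gx i a) ≤ beth (od i) := by
  have h1 : Set.InjOn (Prod.fst : Nu i × Ch i → Nu i) (Gx i a) := by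
    intro x hx x' hx' h
    obtain ⟨f, hf, hz⟩ := hx
    obtain ⟨f', hf', hz'⟩ := hx'
    rw [h, hf'] at hf
    have h3 : f' = f := Option.some.inj hf
    refine Prod.ext h ?_
    rw [← hz fun _ _ => false, ← hz' fun _ _ => false, h3]
  rw [← mk_image_eq_of_injOn _ _ h1]
  refine (mk_le_mk_of_subset ?_).trans (small_blk a i)
  rintro _ ⟨x, ⟨f, hf, _⟩, rfl⟩
  intro h
  rw [hf] at h
  exact Option.some_ne_none _ h

theorem mk_Gs (i : W1) : #{S : Set (Nu i × Ch i) // #S ≤ beth (od i)} ≤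
    beth (Order.succ (od i)) := by
  refine (mk_bounded_set_le (Nu i × Ch i) (beth (od i))).trans ?_
  have h1 : #(Nu i × Ch i) ≤ beth (Order.succ (od i)) := by
    rw [mk_prod, Cardinal.lift_id, Cardinal.lift_id, mk_Nu, mk_Ch]
    exact mul_le_of_le (aleph0_le_beth _) (succ_beth_le _) le_rfl
  refine (power_le_power_right (max_le h1 (aleph0_le_beth _))).trans ?_
  rw [pow_succ_beth]

theorem Gx_key (hb : ∀ a : K, b0 ≤ a) {a a' : Un (cD K b0)} {i : W1}
    (h : Gx i a = Gx i a') {x : Nu i} {f : Pt K → Ch i}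
    (hf : a.v (Sum.inl ⟨i, x⟩) = some f) : a'.v (Sum.inl ⟨i, x⟩) = some f := by
  have hne : a.v (Sum.inl ⟨i, x⟩) ≠ none := by
    intro h
    rw [hf] at h
    exact Option.some_ne_none _ h
  obtain ⟨g, z, hg, hz⟩ := gv_total hb a hne
  rw [hf] at hg
  have hfg : f = g := Option.some.inj hg
  have h3 : (x, z) ∈ Gx i a := ⟨f, hf, fun y => by rw [hfg]; exact hz y⟩
  rw [h] at h3
  obtain ⟨g', hg', hz'⟩ := h3
  refine hg'.trans (congrArg some (funext fun y => ?_))
  exact (hz' y).trans ((hz y).symm.trans (congrFun hfg y).symm)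

theorem Gx_inj (hb : ∀ a : K, b0 ≤ a) {o : Ordinal.{0}} {a a' : Un (cD K b0)}
    (ha : ∀ j, (cD K b0).blk j ∉ low (Order.succ o) → a.v j = none)
    (ha' : ∀ j, (cD K b0).blk j ∉ low (Order.succ o) → a'.v j = none)
    (h : ∀ i, od i < Order.succ o → Gx i a = Gx i a') : a = a' := by
  refine Un.ext (funext fun j => ?_)
  by_cases hj : (cD K b0).blk j ∈ low (Order.succ o)
  · rcases j with ⟨i, x⟩ | y
    · have hi : od i < Order.succ o := some_low.1 hj
      rcases h3 : a.v (Sum.inl ⟨i, x⟩) with _ | f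
      · rcases h4 : a'.v (Sum.inl ⟨i, x⟩) with _ | f
        · rfl
        · have := Gx_key hb (h i hi).symm h4
          rw [h3] at this
          exact this
      · exact (Gx_key hb (h i hi) h3).symm
    · exact absurd hj none_low
  · rw [ha j hj, ha' j hj]

theorem mk_pi_le {I : Type} (hI : #I ≤ ℵ₀) {o : Ordinal.{0}} (B : I → Type)
    (hB : ∀ i, #(B i) ≤ beth (Order.succ o)) : #(∀ i, B i) ≤ beth (Order.succ o) := by
  rw [mk_pi]
  refine (prod_le_prod _ _ hB).trans ?_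
  rw [prod_const, Cardinal.lift_id, Cardinal.lift_id]
  refine (power_le_power_left (beth_ne_zero _) (hI.trans (aleph0_le_beth o))).trans ?_
  rw [pow_succ_beth]

theorem mk_Gs' {o : Ordinal.{0}} (i : {i : W1 // od i < Order.succ o}) :
    #{S : Set (Nu i.1 × Ch i.1) // #S ≤ beth (od i.1)} ≤ beth (Order.succ o) :=
  (mk_Gs i.1).trans (beth_le_beth.2 (Order.succ_le_of_lt i.2))

/-- the graphs -/
def Gf (o : Ordinal.{0}) (a : Un (cD K b0)) (i : {i : W1 // od i < Order.succ o}) :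
    {S : Set (Nu i.1 × Ch i.1) // #S ≤ beth (od i.1)} := ⟨Gx i.1 a, mk_Gx i.1 a⟩

theorem Gf_inj (hb : ∀ a : K, b0 ≤ a) {o : Ordinal.{0}} : Function.Injective
    (fun a : {a : Un (cD K b0) | ∀ j, (cD K b0).blk j ∉ low (Order.succ o) → a.v j = none} =>
      Gf o a.1) := by
  intro a a' h
  refine Subtype.ext (Gx_inj hb a.2 a'.2 fun i hi => ?_)
  exact congrArg Subtype.val (congrFun h ⟨i, hi⟩)

/-- the number of the low parts -/
theorem mk_low_succ (hb : ∀ a : K, b0 ≤ a) {o : Ordinal.{0}}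
    (ho : Order.succ o < (ℵ₁ : Cardinal.{0}).ord) :
    #{a : Un (cD K b0) | ∀ j, (cD K b0).blk j ∉ low (Order.succ o) → a.v j = none} ≤
      beth (Order.succ o) :=
  (mk_le_of_injective (Gf_inj hb (o := o))).trans (mk_pi_le (mk_Io ho) _ mk_Gs')

theorem mk_low (hb : ∀ a : K, b0 ≤ a) {o : Ordinal.{0}} (ho : o < (ℵ₁ : Cardinal.{0}).ord)
    (hl : ¬ Order.IsSuccLimit o) :
    #{a : Un (cD K b0) | ∀ j, (cD K b0).blk j ∉ low o → a.v j = none} ≤ beth o := by
  rcases Ordinal.zero_or_succ_or_isSuccLimit o with h0 | ⟨o', h0⟩ | h0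
  · subst h0
    refine le_trans (mk_le_one_iff_set_subsingleton.2 ?_) (one_le_aleph0.trans (aleph0_le_beth _))
    intro a ha a' ha'
    have h2 : ∀ b : Option W1, b ∉ low 0 := by
      rintro b ⟨i, _, hi⟩
      exact absurd hi not_lt_zero
    refine Un.ext (funext fun j => ?_)
    rw [ha j (h2 _), ha' j (h2 _)]
  · subst h0
    exact mk_low_succ hb ho
  · exact absurd h0 hl

theorem cov_succ (hb : ∀ a : K, b0 ≤ a) {o : Ordinal.{0}} (ho : o < (ℵ₁ : Cardinal.{0}).ord)
    (hl : ¬ Order.IsSuccLimit o) {X Z : Type} (hX : #X ≤ beth o)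
    (E : X → Z → Set (Fc (cD K b0))) (r : Fc (cD K b0))
    (hE : ∀ x z z', ∀ q ≤ r, q ∈ meets (E x z) → q ∈ meets (E x z') → z = z')
    (u0 : Un (cD K b0)) (hu0 : u0 ≤ r.u) :
    ∃ u' ≤ u0, (∀ j, (cD K b0).blk j ∈ low o → u'.v j = u0.v j) ∧ ∃ Y : Set Z, #Y ≤ beth o ∧
      ∀ x z, ∀ q ≤ (⟨r.p, u'⟩ : Fc (cD K b0)), q ∈ meets (E x z) → z ∈ Y :=
  cov_low (aleph0_le_beth _) (fun b hb' => bd_not_low ho.le hb') (mk_low hb ho hl) hX E r hE u0 hu0

/-- **covering** -/
theorem cov_all (hb : ∀ a : K, b0 ≤ a) {o : Ordinal.{0}} (ho : o ≤ (ℵ₁ : Cardinal.{0}).ord)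
    {Z : Type} (E : (beth o).ord.ToType → Z → Set (Fc (cD K b0))) (r : Fc (cD K b0))
    (hE : ∀ x z z', ∀ q ≤ r, q ∈ meets (E x z) → q ∈ meets (E x z') → z = z') :
    ∃ u' ≤ r.u, ∃ Y : Set Z, #Y ≤ beth o ∧
      ∀ x z, ∀ q ≤ (⟨r.p, u'⟩ : Fc (cD K b0)), q ∈ meets (E x z) → z ∈ Y := by
  classical
  by_cases hl : Order.IsSuccLimit o
  · have hlt : ∀ t : o.ToType, Order.succ (Ordinal.ToType.toOrd t).1 < o := fun t =>
      hl.succ_lt (Ordinal.ToType.toOrd t).2
    obtain ⟨u', hu', _, hP⟩ := hit (D := cD K b0) (T := o.ToType)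
      (fun t => (low (Order.succ (Ordinal.ToType.toOrd t).1))ᶜ) (by
      intro b
      rcases b with _ | i
      · refine (mk_set_le _).trans ?_
        rw [mk_toType]
        exact (Ordinal.card_le_card ho).trans (by rw [card_ord]; exact aleph1_le_kap)
      · refine le_trans ?_ (aleph0_le_beth (od i))
        have h1 : {t : o.ToType | (some i : Option W1) ∈
            (low (Order.succ (Ordinal.ToType.toOrd t).1))ᶜ} ⊆
            {t : o.ToType | (Ordinal.ToType.toOrd t).1 < od i} := by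
          intro t ht
          have h2 : ¬ od i < Order.succ (Ordinal.ToType.toOrd t).1 := fun h => ht (some_low.2 h)
          exact Order.succ_le_iff.1 (not_lt.1 h2)
        refine (mk_le_mk_of_subset h1).trans (mk_toOrd_lt.trans ?_)
        have h3 := lt_ord.1 (od_lt i)
        rw [← succ_aleph0] at h3
        exact Order.lt_succ_iff.1 h3)
      (fun t u => ∃ Y : Set Z, #Y ≤ beth o ∧ ∀ x : (beth o).ord.ToType,
        (Ordinal.ToType.toOrd x).1 < (beth (Order.succ (Ordinal.ToType.toOrd t).1)).ord →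
        ∀ z, ∀ q ≤ (⟨r.p, u⟩ : Fc (cD K b0)), q ∈ meets (E x z) → z ∈ Y) (by
      rintro t u u' hu ⟨Y, hY, h⟩
      exact ⟨Y, hY, fun x hx z q hq => h x hx z q (hq.trans (Fc.mk_le le_rfl hu))⟩) r.u (by
      intro t u hu
      have hnl : ¬ Order.IsSuccLimit (Order.succ (Ordinal.ToType.toOrd t).1) := fun h =>
        lt_irrefl _ (h.succ_lt (Order.lt_succ (Ordinal.ToType.toOrd t).1))
      obtain ⟨u', hu', hlow, Y, hY, h⟩ := cov_succ hb ((hlt t).trans_le ho) hnl
        (X := {x : (beth o).ord.ToType | (Ordinal.ToType.toOrd x).1 <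
          (beth (Order.succ (Ordinal.ToType.toOrd t).1)).ord})
        (mk_toOrd_lt.trans (by rw [card_ord])) (fun x => E x.1) r (fun x => hE x.1) u hu
      refine ⟨u', hu', fun j hj => hlow j (not_not.1 hj), Y, hY.trans (beth_le_beth.2 (hlt t).le),
        fun x hx => h ⟨x, hx⟩⟩)
    choose Y hY h using hP
    refine ⟨u', hu', ⋃ t, Y t, ?_, fun x z q hq hz => ?_⟩
    · refine (mk_iUnion_le_sum_mk).trans ((sum_le_sum _ (fun _ => beth o) hY).trans ?_)
      rw [sum_const, Cardinal.lift_id, Cardinal.lift_id, mk_toType]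
      exact mul_le_of_le (aleph0_le_beth _) (Ordinal.card_le_beth o) le_rfl
    · have h1 : (Ordinal.ToType.toOrd x).1.card < beth o := lt_ord.1 (Ordinal.ToType.toOrd x).2
      obtain ⟨a, ha, h2⟩ := (isNormal_beth.lt_iff_exists_lt hl).1 h1
      refine mem_iUnion.2 ⟨Ordinal.ToType.mk ⟨a, ha⟩, h _ x ?_ z q hq hz⟩
      rw [lt_ord]
      refine h2.trans_le (beth_le_beth.2 ?_)
      simp only [OrderIso.symm_apply_apply]
      exact Order.le_succ a
  · have ho' : o < (ℵ₁ : Cardinal.{0}).ord := lt_of_le_of_ne ho fun h => hl (h ▸ lim1)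
    obtain ⟨u', hu', _, Y, hY, h⟩ := cov_succ hb ho' hl (X := (beth o).ord.ToType)
      (by rw [mk_ord_toType]) E r hE r.u le_rfl
    exact ⟨u', hu', Y, hY, h⟩

end

end Run7.h413
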