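import Mathlib

set_option autoImplicit false
set_option linter.unusedSectionVars false
set_option linter.unusedVariables false

/-!
# Codes of walks
-/

namespace Run7.h413

section

variable {N X Th : Type} [LinearOrder N] [LinearOrder Th] (e : Th → X → Th) (d : Th)

/-- the entries of the codes: a length and a function -/
abbrev En (N Th : Type) : Type := N × (N → Th)

open Classical in
/-- the function `f` restricted to `η` -/
noncomputable def ct (η : N) (f : N → Th) : En N Th := (η, fun i => if i < η then f i else d)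

variable {d} in
theorem ct_lt {η i : N} {f : N → Th} (h : i < η) : (ct d η f).2 i = f i := if_pos h

variable {d} in
theorem ct_ge {η i : N} {f : N → Th} (h : ¬ i < η) : (ct d η f).2 i = d := if_neg h

theorem ct_ext {η : N} {f f' : N → Th} (h : ∀ i < η, f i = f' i) : ct d η f = ct d η f' := by
  refine Prod.ext rfl (funext fun i => ?_)
  by_cases hi : i < η
  · rw [ct_lt hi, ct_lt hi, h i hi]
  · rw [ct_ge hi, ct_ge hi]

variable (G : N → X)

/-- the code of the walk from `γ` down to `ξ` -/
inductive Code : Th → Th → List (En N Th) → Prop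
  | nil (γ : Th) : Code γ γ []
  | cons {γ ξ : Th} {η : N} {c : List (En N Th)} (h : ξ < γ) (h1 : ∀ i < η, e γ (G i) < ξ)
    (h2 : ξ ≤ e γ (G η)) (h3 : Code (e γ (G η)) ξ c) :
    Code γ ξ (ct d η (fun i => e γ (G i)) :: c)

/-- the projection of the codes from `α` to `ξ` -/
inductive Proj (α ξ : Th) : List (En N Th) → List (En N Th) → Prop
  | nil {c' : List (En N Th)} (h : Code e d G α ξ c') : Proj α ξ [] c'
  | keep {s : En N Th} {c c' : List (En N Th)} (h : ∀ i < s.1, s.2 i < ξ) (h1 : Proj α ξ c c') :
    Proj α ξ (s :: c) (s :: c')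
  | cut {s : En N Th} {c c' : List (En N Th)} {η : N} (h : η < s.1) (h1 : ∀ i < η, s.2 i < ξ)
    (h2 : ξ ≤ s.2 η) (h3 : Code e d G (s.2 η) ξ c') : Proj α ξ (s :: c) (ct d η s.2 :: c')

variable {e d G}

theorem Code.le {γ ξ : Th} {c : List (En N Th)} (h : Code e d G γ ξ c) : ξ ≤ γ := by
  cases h with
  | nil => exact le_rfl
  | cons h => exact h.le

theorem Code.uniq {γ ξ : Th} {c c' : List (En N Th)} (h : Code e d G γ ξ c)
    (h' : Code e d G γ ξ c') : c = c' := by
  induction h generalizing c' with
  | nil γ =>
    cases h' with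
    | nil => rfl
    | cons h => exact absurd h (lt_irrefl _)
  | @cons γ ξ η c h h1 h2 h3 ih =>
    cases h' with
    | nil => exact absurd h (lt_irrefl _)
    | @cons _ _ η' c' k k1 k2 k3 =>
      have he : η = η' := by
        rcases lt_trichotomy η η' with hl | hl | hl
        · exact absurd (k1 η hl) (not_lt.2 h2)
        · exact hl
        · exact absurd (h1 η' hl) (not_lt.2 k2)
      subst he
      rw [ih k3]

theorem Proj.uniq {α ξ : Th} {c c1 c2 : List (En N Th)} (h : Proj e d G α ξ c c1)
    (h' : Proj e d G α ξ c c2) : c1 = c2 := by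
  induction h generalizing c2 with
  | nil h =>
    cases h' with
    | nil h' => exact h.uniq h'
  | @keep s c c' h h1 ih =>
    cases h' with
    | keep k k1 => rw [ih k1]
    | cut k k1 k2 k3 => exact absurd (h _ k) (not_lt.2 k2)
  | @cut s c c' η h h1 h2 h3 =>
    cases h' with
    | keep k k1 => exact absurd (k _ h) (not_lt.2 h2)
    | @cut _ _ c'' η' k k1 k2 k3 =>
      have he : η = η' := by
        rcases lt_trichotomy η η' with hl | hl | hl
        · exact absurd (k1 η hl) (not_lt.2 h2)
        · exact hl
        · exact absurd (h1 η' hl) (not_lt.2 k2)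
      subst he
      rw [h3.uniq k3]

/-- codes project to codes -/
theorem Code.proj {γ α ξ : Th} {c c' : List (En N Th)} (h : Code e d G γ α c) (hξ : ξ ≤ α)
    (h' : Code e d G γ ξ c') : Proj e d G α ξ c c' := by
  induction h generalizing c' with
  | nil γ => exact Proj.nil h'
  | @cons γ α η c h h1 h2 h3 ih =>
    cases h' with
    | nil => exact absurd h (not_lt.2 hξ)
    | @cons _ _ η' c' k k1 k2 k3 =>
      rcases lt_trichotomy η' η with hl | hl | hl
      · have h4 : ct d η' (fun i => e γ (G i)) = ct d η' (ct d η (fun i => e γ (G i))).2 :=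
          ct_ext d fun i hi => (ct_lt (f := fun i => e γ (G i)) (hi.trans hl)).symm
        rw [h4]
        refine Proj.cut hl (fun i hi => ?_) ?_ ?_
        · rw [ct_lt (hi.trans hl)]
          exact k1 i hi
        · rw [ct_lt hl]
          exact k2
        · rw [ct_lt hl]
          exact k3
      · subst hl
        refine Proj.keep (fun i (hi : i < η') => ?_) (ih hξ k3)
        rw [ct_lt hi]
        exact k1 i hi
      · exact absurd (k1 η hl) (not_lt.2 (hξ.trans h2))

theorem Code.proj' {γ α ξ : Th} {c c' : List (En N Th)} (h : Code e d G γ α c) (hξ : ξ ≤ α)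
    (h' : Proj e d G α ξ c c') : Code e d G γ ξ c' := by
  induction h generalizing c' with
  | nil γ =>
    cases h' with
    | nil h' => exact h'
  | @cons γ α η c h h1 h2 h3 ih =>
    cases h' with
    | keep k k1 =>
      refine Code.cons (hξ.trans_lt h) (fun i hi => ?_) (hξ.trans h2) (ih hξ k1)
      have := k i hi
      rwa [ct_lt hi] at this
    | @cut _ _ c'' η' k k1 k2 k3 =>
      have hl : η' < η := k
      rw [ct_lt hl] at k2 k3
      have h4 : ct d η' (ct d η (fun i => e γ (G i))).2 = ct d η' (fun i => e γ (G i)) :=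
        ct_ext d fun i hi => ct_lt (hi.trans hl)
      rw [h4]
      refine Code.cons (hξ.trans_lt h) (fun i hi => ?_) k2 k3
      have := k1 i hi
      rwa [ct_lt (hi.trans hl)] at this

/-- transitivity -/
theorem Proj.trans {α β ξ : Th} {c c1 c2 : List (En N Th)} (h : Proj e d G α β c c1)
    (h' : Proj e d G β ξ c1 c2) (hξ : ξ ≤ β) (hβ : β ≤ α) : Proj e d G α ξ c c2 := by
  induction h generalizing c2 with
  | nil h => exact Proj.nil (h.proj' hξ h')
  | @keep s c c' h h1 ih =>
    cases h' with
    | keep k k1 => exact Proj.keep k (ih k1)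
    | cut k k1 k2 k3 => exact Proj.cut k k1 k2 k3
  | @cut s c c' η h h1 h2 h3 =>
    cases h' with
    | keep k k1 =>
      refine Proj.cut h (fun i hi => ?_) (hξ.trans h2) (h3.proj' hξ k1)
      have := k i hi
      rwa [ct_lt hi] at this
    | @cut _ _ c'' η' k k1 k2 k3 =>
      have hl : η' < η := k
      rw [ct_lt hl] at k2 k3
      have h4 : ct d η' (ct d η s.2).2 = ct d η' s.2 :=
        ct_ext d fun i hi => ct_lt (hi.trans hl)
      rw [h4]
      refine Proj.cut (hl.trans h) (fun i hi => ?_) k2 k3
      have := k1 i hi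
      rwa [ct_lt (hi.trans hl)] at this

/-- comparability -/
theorem Proj.comp {α β ξ : Th} {c c1 c2 : List (En N Th)} (h : Proj e d G α β c c1)
    (h' : Proj e d G α ξ c c2) (hξ : ξ ≤ β) : Proj e d G β ξ c1 c2 := by
  induction h generalizing c2 with
  | nil h =>
    cases h' with
    | nil h' => exact h.proj hξ h'
  | @keep s c c' h h1 ih =>
    cases h' with
    | keep k k1 => exact Proj.keep k (ih k1)
    | cut k k1 k2 k3 => exact Proj.cut k k1 k2 k3
  | @cut s c c' η h h1 h2 h3 =>
    cases h' with
    | keep k k1 => exact absurd (k _ h) (not_lt.2 (hξ.trans h2))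
    | @cut _ _ c'' η' k k1 k2 k3 =>
      rcases lt_trichotomy η' η with hl | hl | hl
      · have h4 : ct d η' s.2 = ct d η' (ct d η s.2).2 :=
          ct_ext d fun i hi => (ct_lt (f := s.2) (hi.trans hl)).symm
        rw [h4]
        refine Proj.cut hl (fun i hi => ?_) ?_ ?_
        · rw [ct_lt (hi.trans hl)]
          exact k1 i hi
        · rw [ct_lt hl]
          exact k2
        · rw [ct_lt hl]
          exact k3
      · subst hl
        refine Proj.keep (fun i (hi : i < η') => ?_) (h3.proj hξ k3)
        rw [ct_lt hi]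
        exact k1 i hi
      · exact absurd (k1 η hl) (not_lt.2 (hξ.trans h2))

/-- the lengths change -/
theorem Proj.lengths {α ξ : Th} {c c' : List (En N Th)} (h : Proj e d G α ξ c c') (hξ : ξ < α) :
    c'.map Prod.fst ≠ c.map Prod.fst := by
  induction h with
  | nil h =>
    cases h with
    | nil => exact absurd hξ (lt_irrefl _)
    | cons => simp
  | @keep s c c' h h1 ih =>
    intro he
    simp only [List.map_cons, List.cons.injEq, true_and] at he
    exact ih he
  | @cut s c c' η h h1 h2 h3 =>
    intro he
    simp only [List.map_cons, List.cons.injEq] at he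
    exact h.ne he.1

/-- entries with values below `ξ`, in normal form -/
def Ok (d ξ : Th) (s : En N Th) : Prop := (∀ i < s.1, s.2 i < ξ) ∧ ∀ i, ¬ i < s.1 → s.2 i = d

theorem Code.ok {γ ξ : Th} {c : List (En N Th)} (h : Code e d G γ ξ c) : ∀ s ∈ c, Ok d ξ s := by
  induction h with
  | nil γ => simp
  | @cons γ ξ η c h h1 h2 h3 ih =>
    intro s hs
    rcases List.mem_cons.1 hs with rfl | hs
    · refine ⟨fun i (hi : i < η) => ?_, fun i hi => ct_ge hi⟩
      rw [ct_lt hi]
      exact h1 i hi
    · exact ih s hs

theorem Proj.ok {α ξ : Th} {c c' : List (En N Th)} (h : Proj e d G α ξ c c')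
    (hc : ∀ s ∈ c, Ok d α s) : ∀ s ∈ c', Ok d ξ s := by
  induction h with
  | nil h => exact h.ok
  | @keep s c c' h h1 ih =>
    intro t ht
    rcases List.mem_cons.1 ht with rfl | ht
    · exact ⟨h, (hc _ (List.mem_cons_self)).2⟩
    · exact ih (fun s hs => hc s (List.mem_cons_of_mem _ hs)) t ht
  | @cut s c c' η h h1 h2 h3 =>
    intro t ht
    rcases List.mem_cons.1 ht with rfl | ht
    · refine ⟨fun i (hi : i < η) => ?_, fun i hi => ct_ge hi⟩
      rw [ct_lt hi]
      exact h1 i hi
    · exact h3.ok t ht

end

end Run7.h413
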