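import Mathlib
import Pool.Agent.Run7.h413.Tree1
import Pool.Agent.Run7.h413.Util
import Pool.Agent.Run7.h413.Iface

set_option autoImplicit false
set_option linter.unusedSectionVars false
set_option linter.unusedVariables false

/-!
# The Aronszajn tree of the codes
-/

namespace Run7.h413

open Set Cardinal Pool.Agent.Helper669.Forcing
open Pool.Agent.W873.Vi (mk_IioK)

section

variable {P : Type} [Preorder P]

theorem smallN_fun {T : Type} {δ β : Ordinal.{0}} (hβ : β < δ) {S : T → Set P}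
    (F : T → β.ToType) {p : P} (h : ∀ q ≤ p, ∀ x x', q ∈ meets (S x) → q ∈ meets (S x') →
      F x = F x' → x = x') : p ∈ SmallN δ S := by
  have hg : ∀ (q : P) (x : T) (b : β.ToType), q ∈ meets {_r : P | F x = b} → F x = b := by
    intro q x b hq
    obtain ⟨_, _, _, h1, _⟩ := hq q le_rfl
    exact h1
  refine smallN_mk fun q hq => ⟨q, le_rfl, β, hβ, fun x b => {_r | F x = b}, injOn_mk ?_ ?_ ?_⟩
  · exact fun q' _ x _ => ⟨q', le_rfl, F x, meets_of_mem rfl⟩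
  · intro q' _ x b b' _ h1 h2
    exact (hg _ _ _ h1).symm.trans (hg _ _ _ h2)
  · intro q' hq' x x' b h1 h2 h3 h4
    exact h q' (hq'.trans hq) x x' h1 h2 ((hg _ _ _ h3).trans (hg _ _ _ h4).symm)

theorem smallN_set {T : Type} {δ β : Ordinal.{0}} (hβ : β < δ) {S : T → Set P} (S0 : Set T)
    (hS : ∀ q x, q ∈ meets (S x) → x ∈ S0) (hc : #S0 ≤ #β.ToType) (hn : Nonempty β.ToType)
    (p : P) : p ∈ SmallN δ S := by
  classical
  obtain ⟨φ⟩ := hc
  obtain ⟨b0⟩ := hn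
  refine smallN_fun hβ (fun x => if h : x ∈ S0 then φ ⟨x, h⟩ else b0) fun q _ x x' hx hx' he => ?_
  rw [dif_pos (hS q x hx), dif_pos (hS q x' hx')] at he
  exact congrArg Subtype.val (φ.injective he)

end

section

variable {Q : Type} [Preorder Q] {N X Th : Type} [LinearOrder N] [WellFoundedLT N]
  [LinearOrder Th] [WellFoundedLT Th] {g : Q → N → X → Prop}

/-- the function `G` is compatible with the condition `r` -/
def Cp (g : Q → N → X → Prop) (r : Q) (G : N → X) : Prop := ∀ x z, g r x z → G x = z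

theorem Cp.mono (hg : GenF Q g) {r r' : Q} (hr : r' ≤ r) {G : N → X} (h : Cp g r' G) : Cp g r G :=
  fun x z hz => h x z (hg.mono r r' hr x z hz)

theorem exists_Cp (hg : GenF Q g) [Nonempty X] (r : Q) : ∃ G : N → X, Cp g r G := by
  classical
  obtain ⟨z0⟩ := ‹Nonempty X›
  refine ⟨fun x => if h : ∃ z, g r x z then h.choose else z0, fun x z hz => ?_⟩
  have h : ∃ z, g r x z := ⟨z, hz⟩
  simp only
  rw [dif_pos h]
  exact hg.uniq r x _ _ h.choose_spec hz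

variable {e : Th → X → Th} {d : Th}

/-- the walks are decided -/
theorem exists_code (hg : GenF Q g) (he1 : ∀ γ ξ z, ξ < γ → e γ z < γ)
    (he2 : ∀ γ, ∀ ξ < γ, ∃ z, e γ z = ξ) (ξ : Th) (γ : Th) : ξ ≤ γ → ∀ q : Q,
    ∃ r ≤ q, ∃ c, ∀ G, Cp g r G → Code e d G γ ξ c := by
  induction γ using (wellFounded_lt (α := Th)).induction with
  | _ γ ih =>
    intro hξ q
    rcases hξ.eq_or_lt with rfl | hξ
    · exact ⟨q, le_rfl, [], fun G _ => Code.nil _⟩
    · obtain ⟨z, hz⟩ := he2 γ ξ hξ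
      obtain ⟨r0, hr0, x0, hx0⟩ := hg.onto q z
      obtain ⟨r1, hr1, h1⟩ := hg.init r0 x0
      have hne : {x | x ≤ x0 ∧ ∃ z, g r1 x z ∧ ξ ≤ e γ z}.Nonempty :=
        ⟨x0, le_rfl, z, hg.mono _ _ hr1 _ _ hx0, hz.ge⟩
      obtain ⟨η, ⟨hη, z', hz', hzξ⟩, hmin⟩ := WellFounded.has_min (wellFounded_lt (α := N)) _ hne
      obtain ⟨r2, hr2, c, hc⟩ := ih (e γ z') (he1 γ ξ z' hξ) hzξ r1
      have : Nonempty X := ⟨z⟩
      choose! G0 hG0 using h1
      have hG : ∀ G, Cp g r2 G → ∀ x ≤ x0, G x = G0 x := fun G hG x hx =>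
        hG x _ (hg.mono _ _ hr2 _ _ (hG0 x hx))
      have hη0 : G0 η = z' := hg.uniq r1 η _ _ (hG0 η hη) hz'
      refine ⟨r2, (hr2.trans hr1).trans hr0, ct d η (fun i => e γ (G0 i)) :: c, fun G hCp => ?_⟩
      have h4 : ct d η (fun i => e γ (G0 i)) = ct d η (fun i => e γ (G i)) :=
        ct_ext d fun i hi => by rw [hG G hCp i (hi.le.trans hη)]
      rw [h4]
      refine Code.cons hξ (fun i hi => ?_) ?_ ?_
      · by_contra hcon
        refine hmin i ⟨hi.le.trans hη, G i, ?_, not_lt.1 hcon⟩ hi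
        rw [hG G hCp i (hi.le.trans hη)]
        exact hG0 i (hi.le.trans hη)
      · rw [hG G hCp η hη, hη0]
        exact hzξ
      · rw [hG G hCp η hη, hη0]
        exact hc G hCp

theorem exists_proj (hg : GenF Q g) (he1 : ∀ γ ξ z, ξ < γ → e γ z < γ)
    (he2 : ∀ γ, ∀ ξ < γ, ∃ z, e γ z = ξ) {α ξ : Th} (hξ : ξ ≤ α) (c : List (En N Th)) :
    ∀ q : Q, ∃ r ≤ q, ∃ c', ∀ G, Cp g r G → Proj e d G α ξ c c' := by
  induction c with
  | nil =>
    intro q
    obtain ⟨r, hr, c, hc⟩ := exists_code (d := d) hg he1 he2 ξ α hξ q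
    exact ⟨r, hr, c, fun G hG => Proj.nil (hc G hG)⟩
  | cons s c ih =>
    intro q
    by_cases h : ∀ i < s.1, s.2 i < ξ
    · obtain ⟨r, hr, c', hc'⟩ := ih q
      exact ⟨r, hr, s :: c', fun G hG => Proj.keep h (hc' G hG)⟩
    · push Not at h
      obtain ⟨η, ⟨hη, hη'⟩, hmin⟩ := WellFounded.has_min (wellFounded_lt (α := N))
        {i | i < s.1 ∧ ξ ≤ s.2 i} h
      obtain ⟨r, hr, c', hc'⟩ := exists_code (d := d) hg he1 he2 ξ (s.2 η) hη' q
      refine ⟨r, hr, ct d η s.2 :: c', fun G hG => Proj.cut hη (fun i hi => ?_) hη' (hc' G hG)⟩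
      by_contra hcon
      exact hmin i ⟨hi.trans hη, not_lt.1 hcon⟩ hi

variable (N d) in
/-- the nodes -/
abbrev Nd : Type := {x : Th × List (En N Th) // ∀ s ∈ x.2, Ok d x.1 s}

variable (g e d) in
/-- the tree order -/
def Ro (x y : Nd N d) : Set Q :=
  {r | x.1.1 < y.1.1 ∧ ∀ G, Cp g r G → Proj e d G y.1.1 x.1.1 y.1.2 x.1.2}

theorem down_Ro (hg : GenF Q g) (x y : Nd N d) : Down (Ro g e d x y) :=
  fun _ hr _ hq => ⟨hr.1, fun G hG => hr.2 G (hG.mono hg hq)⟩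

theorem meets_Ro (hg : GenF Q g) {x y : Nd N d} {p : Q} (h : p ∈ meets (Ro g e d x y)) :
    ∃ q ≤ p, q ∈ Ro g e d x y := exists_of_meets (down_Ro hg x y) h

theorem Ro_trans (hg : GenF Q g) {x y z : Nd N d} {p : Q} (h : p ∈ Ro g e d x y)
    (h' : p ∈ Ro g e d y z) : p ∈ Ro g e d x z :=
  ⟨h.1.trans h'.1, fun G hG => (h'.2 G hG).trans (h.2 G hG) h.1.le h'.1.le⟩

theorem Ro_comp (hg : GenF Q g) [Nonempty X] {x y z : Nd N d} {p : Q} (h : p ∈ Ro g e d x z)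
    (h' : p ∈ Ro g e d y z) : x = y ∨ p ∈ Ro g e d x y ∨ p ∈ Ro g e d y x := by
  rcases lt_trichotomy x.1.1 y.1.1 with hl | hl | hl
  · exact Or.inr (Or.inl ⟨hl, fun G hG => (h'.2 G hG).comp (h.2 G hG) hl.le⟩)
  · obtain ⟨G, hG⟩ := exists_Cp hg p
    have h1 := h.2 G hG
    have h2 := h'.2 G hG
    rw [hl] at h1
    exact Or.inl (Subtype.ext (Prod.ext hl (h1.uniq h2)))
  · exact Or.inr (Or.inr ⟨hl, fun G hG => (h.2 G hG).comp (h'.2 G hG) hl.le⟩)

end

end Run7.h413
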