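import Mathlib
import Pool.Agent.Run7.h413.Tree2

set_option autoImplicit false
set_option linter.unusedSectionVars false
set_option linter.unusedVariables false

/-!
# The piece TREE
-/

namespace Run7.h413

open Set Cardinal Pool.Agent.Helper669.Forcing
open Pool.Agent.W873.Vi (mk_IioK)

section

variable {nu chi : Cardinal.{0}}

/-- the ordinals below `χ⁺` -/
abbrev Thc (chi : Cardinal.{0}) : Type := (Order.succ chi).ord.ToType

theorem mk_IioT (γ : Thc chi) : #(Iio γ) ≤ chi := Order.lt_succ_iff.1 (mk_IioK γ)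

/-- the surjections -/
theorem exists_e (h : ℵ₀ ≤ chi) : ∃ e : Thc chi → chi.ord.ToType → Thc chi,
    (∀ γ ξ z, ξ < γ → e γ z < γ) ∧ ∀ γ, ∀ ξ < γ, ∃ z, e γ z = ξ := by
  classical
  have h1 : ∀ γ : Thc chi, ∃ f : chi.ord.ToType → Thc chi,
      (∀ ξ z, ξ < γ → f z < γ) ∧ ∀ ξ < γ, ∃ z, f z = ξ := by
    intro γ
    by_cases hne : (Iio γ).Nonempty
    · obtain ⟨ξ0, hξ0⟩ := hne
      have h2 : #(Iio γ) ≤ #(chi.ord.ToType) := by
        rw [mk_ord_toType]
        exact mk_IioT γ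
      obtain ⟨φ⟩ := h2
      have : Nonempty (Iio γ) := ⟨⟨ξ0, hξ0⟩⟩
      refine ⟨fun z => (Function.invFun φ z).1, fun ξ z _ => (Function.invFun φ z).2,
        fun ξ hξ => ⟨φ ⟨ξ, hξ⟩, ?_⟩⟩
      exact congrArg Subtype.val (Function.leftInverse_invFun φ.injective (⟨ξ, hξ⟩ : Iio γ))
    · refine ⟨fun _ => γ, fun ξ z hξ => absurd ⟨ξ, hξ⟩ hne, fun ξ hξ => absurd ⟨ξ, hξ⟩ hne⟩
  choose e he1 he2 using h1
  exact ⟨e, he1, he2⟩

variable {d : Thc chi}

theorem mk_entries (h0 : ℵ₀ ≤ nu) (h1 : nu ≤ chi)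
    (h2 : ∀ x : nu.ord.ToType, #(Set.Iio x → chi.ord.ToType) ≤ chi) (a : Thc chi) :
    #{s : En nu.ord.ToType (Thc chi) | Ok d a s} ≤ chi := by
  classical
  have hc : ℵ₀ ≤ chi := h0.trans h1
  have hn : Nonempty (chi.ord.ToType) := by
    rw [← mk_ne_zero_iff, mk_ord_toType]
    exact (aleph0_pos.trans_le hc).ne'
  obtain ⟨z0⟩ := hn
  have h3 : #(Iio a) ≤ #(chi.ord.ToType) := by
    rw [mk_ord_toType]
    exact mk_IioT a
  obtain ⟨φ⟩ := h3
  have h4 : ∀ η : nu.ord.ToType, #{s : En nu.ord.ToType (Thc chi) | Ok d a s ∧ s.1 = η} ≤ chi := by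
    intro η
    refine le_trans (mk_le_of_injective (f := fun s : {s : En nu.ord.ToType (Thc chi) |
      Ok d a s ∧ s.1 = η} => fun i : Iio η => if h : s.1.2 i.1 < a then φ ⟨s.1.2 i.1, h⟩ else z0)
      ?_) (h2 η)
    rintro ⟨⟨η1, s⟩, hs, rfl⟩ ⟨⟨η2, s'⟩, hs', h5⟩ h
    simp only at h5
    subst h5
    refine Subtype.ext (Prod.ext rfl (funext fun i => ?_))
    by_cases hi : i < η2
    · have h6 := congrFun h ⟨i, hi⟩
      have ha : s i < a := hs.1 i hi
      have ha' : s' i < a := hs'.1 i hi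
      simp only at h6
      rw [dif_pos ha, dif_pos ha'] at h6
      exact congrArg Subtype.val (φ.injective h6)
    · exact (hs.2 i hi).trans (hs'.2 i hi).symm
  have h5 : {s : En nu.ord.ToType (Thc chi) | Ok d a s} ⊆
      ⋃ η : nu.ord.ToType, {s : En nu.ord.ToType (Thc chi) | Ok d a s ∧ s.1 = η} :=
    fun s hs => mem_iUnion.2 ⟨s.1, hs, rfl⟩
  refine (mk_le_mk_of_subset h5).trans ((mk_iUnion_le_sum_mk).trans
    ((sum_le_sum _ (fun _ => chi) h4).trans ?_))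
  rw [sum_const, Cardinal.lift_id, Cardinal.lift_id, mk_ord_toType]
  exact mul_le_of_le hc h1 le_rfl

theorem mk_level (h0 : ℵ₀ ≤ nu) (h1 : nu ≤ chi)
    (h2 : ∀ x : nu.ord.ToType, #(Set.Iio x → chi.ord.ToType) ≤ chi) (a : Thc chi) :
    #{x : Nd nu.ord.ToType d | x.1.1 = a} ≤ chi := by
  classical
  have hc : ℵ₀ ≤ chi := h0.trans h1
  have h3 : #(List {s : En nu.ord.ToType (Thc chi) | Ok d a s}) ≤ chi :=
    (mk_list_le_max _).trans (max_le hc (mk_entries h0 h1 h2 a))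
  let F : {x : Nd nu.ord.ToType d | x.1.1 = a} → List {s : En nu.ord.ToType (Thc chi) | Ok d a s} :=
    fun x => x.1.1.2.attach.map fun s => ⟨s.1, by
      have h4 := x.1.2 s.1 s.2
      rw [x.2] at h4
      exact h4⟩
  have hF : ∀ x, (F x).map Subtype.val = x.1.1.2 := by
    intro x
    simp only [F, List.map_map]
    exact List.attach_map_subtype_val x.1.1.2
  refine (mk_le_of_injective (f := F) ?_).trans h3
  intro x x' h
  refine Subtype.ext (Subtype.ext (Prod.ext (x.2.trans x'.2.symm) ?_))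
  rw [← hF x, ← hF x', h]

/-- **the piece TREE** -/
theorem s_tree : S_TREE := by
  classical
  intro Q _ nu chi h0 h1 h2 g hg q
  have hc : ℵ₀ ≤ chi := h0.trans h1
  have hX : Nonempty (chi.ord.ToType) := by
    rw [← mk_ne_zero_iff, mk_ord_toType]
    exact (aleph0_pos.trans_le hc).ne'
  have hTh : Nonempty (Thc chi) := by
    rw [← mk_ne_zero_iff, mk_ord_toType]
    exact (aleph0_pos.trans_le (hc.trans (Order.le_succ chi))).ne'
  obtain ⟨d⟩ := hTh
  obtain ⟨e, he1, he2⟩ := exists_e hc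
  have hlt : chi.ord < (Order.succ chi).ord := ord_lt_ord.2 (Order.lt_succ chi)
  let R : Nd nu.ord.ToType d → Nd nu.ord.ToType d → Set Q := Ro g e d
  let h : Nd nu.ord.ToType d → Thc chi → Set Q := fun x a => {_r | x.1.1 = a}
  have hh : ∀ {q : Q} {x : Nd nu.ord.ToType d} {a : Thc chi}, q ∈ meets (h x a) → x.1.1 = a := by
    intro q x a hq
    obtain ⟨_, _, _, h3, _⟩ := hq q le_rfl
    exact h3
  have hh' : ∀ (q : Q) (x : Nd nu.ord.ToType d), q ∈ meets (h x x.1.1) := fun q x => meets_of_mem rfl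
  refine mem_fex_of_mem (Nd nu.ord.ToType d) (down_fex _) (mem_fex_of_mem R (down_fex _)
    (mem_fex_of_mem h (down_fand (down_TreeN _ _ _) (down_fand (down_fall fun _ =>
      down_fand (down_fex _) (down_SmallN _ _)) (down_fall fun _ => down_fimp _ _))) ?_))
  refine ⟨⟨⟨fun x => mem_fex.2 fun r _ => ⟨r, le_rfl, x.1.1, hh' r x⟩, fun x a a' =>
    mem_fimp.2 fun r _ hr => ⟨r, le_rfl, (hh hr.1).symm.trans (hh hr.2)⟩⟩, ?_, ?_, ?_, ?_⟩, ?_, ?_⟩
  · intro x y z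
    refine mem_fimp.2 fun r _ hr => ⟨r, le_rfl, meets_dense fun s hs => ?_⟩
    obtain ⟨s1, hs1, h3⟩ := meets_Ro hg (md hr.1 hs)
    obtain ⟨s2, hs2, h4⟩ := meets_Ro hg (md hr.2 (hs1.trans hs))
    exact ⟨s2, hs2.trans hs1, meets_of_mem (Ro_trans hg (down_Ro hg _ _ _ h3 _ hs2) h4)⟩
  · intro x y z
    refine mem_fimp.2 fun r _ hr => ⟨r, le_rfl, fun s hs hn => ?_⟩
    obtain ⟨s1, hs1, h3⟩ := meets_Ro hg (md hr.1 hs)
    obtain ⟨s2, hs2, h4⟩ := meets_Ro hg (md hr.2 (hs1.trans hs))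
    rcases Ro_comp hg (down_Ro hg _ _ _ h3 _ hs2) h4 with h5 | h5 | h5
    · exact hn.1 s2 (hs2.trans hs1) h5
    · exact hn.2.1 s2 (hs2.trans hs1) (meets_of_mem h5)
    · exact hn.2.2 s2 (hs2.trans hs1) (meets_of_mem h5)
  · intro x y a b
    refine mem_fimp.2 fun r _ hr => ⟨r, le_rfl, ?_⟩
    obtain ⟨s1, hs1, h3⟩ := meets_Ro hg hr.1
    have h4 := hh hr.2.1
    have h5 := hh hr.2.2
    rw [← h4, ← h5]
    exact h3.1
  · intro y b a hab
    refine mem_fimp.2 fun r _ hr => ⟨r, le_rfl, mem_fex.2 fun s hs => ?_⟩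
    have hb := hh hr
    have hay : a < y.1.1 := by rw [hb]; exact hab
    obtain ⟨t, ht, c', hc'⟩ := exists_proj (d := d) hg he1 he2 hay.le y.1.2 s
    obtain ⟨G, hG⟩ := exists_Cp hg t
    refine ⟨t, ht, ⟨(a, c'), (hc' G hG).ok y.2⟩, meets_of_mem ⟨hay, hc'⟩, meets_of_mem rfl⟩
  · intro a
    refine ⟨mem_fex.2 fun r _ => ⟨r, le_rfl, ⟨(a, []), by simp⟩, meets_of_mem rfl⟩, ?_⟩
    refine smallN_set hlt {x : Nd nu.ord.ToType d | x.1.1 = a} (fun q x hx => hh hx) ?_ hX _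
    rw [mk_ord_toType]
    exact mk_level h0 h1 h2 a
  · intro S
    refine mem_fimp.2 fun r _ hr => ⟨r, le_rfl, ?_⟩
    have h3 : #(List nu.ord.ToType) ≤ #(chi.ord.ToType) := by
      rw [mk_ord_toType]
      refine (mk_list_le_max _).trans (max_le hc ?_)
      rw [mk_ord_toType]
      exact h1
    obtain ⟨φ⟩ := h3
    refine smallN_fun hlt (fun x => φ (x.1.2.map Prod.fst)) fun s hs x x' hx hx' he => ?_
    by_contra hne
    have h4 := φ.injective he
    obtain ⟨s1, hs1, h5⟩ := mem_fimp.1 (hr x x') s hs ⟨hx, hx'⟩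
    have key : ∀ x x' : Nd nu.ord.ToType d, x.1.2.map Prod.fst = x'.1.2.map Prod.fst →
        ∀ t : Q, t ∉ meets (R x x') := by
      intro x x' h6 t ht
      obtain ⟨t1, _, h7⟩ := meets_Ro hg ht
      obtain ⟨G, hG⟩ := exists_Cp hg t1
      exact (h7.2 G hG).lengths h7.1 h6
    exact h5 s1 le_rfl ⟨fun _ _ h6 => hne h6, fun t _ => key x x' h4 t, fun t _ => key x' x h4.symm t⟩

end

end Run7.h413
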