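import Mathlib
import Pool.Agent.Run7.h413.Cov3
import Pool.Agent.Run7.h413.Tree3

set_option autoImplicit false
set_option linter.unusedSectionVars false
set_option linter.unusedVariables false

/-!
# The cardinals of the extension, and the Aronszajn trees
-/

namespace Run7.h413

open Set Cardinal Pool.Agent.Helper669.Forcing
open Pool.Agent.W873.Vi (Co Ik mk_IioK)
open Pool.Agent.W873.Ta (Pt Re Pre Rg Rg_mono)

section

variable {K : Type} [LinearOrder K] {b0 : K}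

theorem card_succ (hb : ∀ a : K, b0 ≤ a) {o : Ordinal.{0}} (ho : o ≤ (ℵ₁ : Cardinal.{0}).ord)
    (p : Fc (cD K b0)) : p ∈ CardN (Fc (cD K b0)) (Order.succ (beth o)).ord := by
  intro β hβ q hq hI
  obtain ⟨r, hr, E, h1, h2, h3⟩ := injN_ex hI (le_refl q)
  have h4 : #β.ToType ≤ #((beth o).ord.ToType) := by
    rw [mk_ord_toType, mk_toType]
    exact Order.lt_succ_iff.1 (lt_ord.1 hβ)
  obtain ⟨φ⟩ := h4
  have hdn : ∀ (y : (beth o).ord.ToType) (z : (Order.succ (beth o)).ord.ToType),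
      Down {t : Fc (cD K b0) | ∃ b, φ b = y ∧ t ∈ meets (E z b)} := by
    rintro y z t ⟨b, hb1, hb2⟩ s hs
    exact ⟨b, hb1, md hb2 hs⟩
  obtain ⟨u', hu', Y, hY, h5⟩ := cov_all hb ho (fun y z =>
    {t : Fc (cD K b0) | ∃ b, φ b = y ∧ t ∈ meets (E z b)}) r (by
    intro y z z' t ht hz hz'
    obtain ⟨t1, ht1, b, hb1, hb2⟩ := exists_of_meets (hdn y z) hz
    obtain ⟨t2, ht2, b', hb1', hb2'⟩ := exists_of_meets (hdn y z') (md hz' ht1)
    have he : b = b' := φ.injective (hb1.trans hb1'.symm)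
    subst he
    exact h3 t2 ((ht2.trans ht1).trans ht) z z' b (md hb2 ht2) hb2')
  have h6 : Y = Set.univ := by
    refine eq_univ_of_forall fun z => ?_
    have h7 : (⟨r.p, u'⟩ : Fc (cD K b0)) ≤ r := Fc.mk_le le_rfl hu'
    obtain ⟨t, ht, b, hb1⟩ := h1 _ h7 z
    exact h5 (φ b) z t ht (meets_of_mem ⟨b, rfl, hb1⟩)
  rw [h6, mk_univ, mk_ord_toType] at hY
  exact absurd hY (not_le.2 (Order.lt_succ _))

theorem succ_of_beth (hb : ∀ a : K, b0 ≤ a) {o : Ordinal.{0}}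
    (ho : o ≤ (ℵ₁ : Cardinal.{0}).ord) (p : Fc (cD K b0)) :
    p ∈ SuccN (Fc (cD K b0)) (beth o).ord (Order.succ (beth o)).ord := by
  refine ⟨ord_lt_ord.2 (Order.lt_succ _), card_succ hb ho p, fun γ hγ => injN_of_mk ?_ p⟩
  rw [mk_ord_toType, mk_toType]
  exact Order.lt_succ_iff.1 (lt_ord.1 hγ)

theorem inj_Ch (hb : ∀ a : K, b0 ≤ a) (i : W1) (p : Fc (cD K b0)) :
    p ∈ InjN (Fc (cD K b0)) (Ch i) (Nu i) := by
  have hg := genF_gv (K := K) (b0 := b0) hb i
  have hdn : ∀ (z : Ch i) (x : Nu i), Down {q : Fc (cD K b0) | gv i q x z} :=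
    fun z x r hr q hq => hg.mono r q hq x z hr
  refine injN_least (fun z x => {q : Fc (cD K b0) | gv i q x z}) (fun q _ z => ?_)
    fun q _ z z' x h h' => ?_
  · obtain ⟨r, hr, x, hx⟩ := hg.onto q z
    exact ⟨r, hr, x, meets_of_mem hx⟩
  · obtain ⟨r, hr, h1⟩ := exists_of_meets (hdn z x) h
    obtain ⟨s, hs, h2⟩ := exists_of_meets (hdn z' x) (md h' hr)
    exact hg.uniq s x z z' (hg.mono r s hs x z h1) h2

theorem succ_of_nu (hb : ∀ a : K, b0 ≤ a) (i : W1) (p : Fc (cD K b0)) :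
    p ∈ SuccN (Fc (cD K b0)) (Order.succ (beth (od i))).ord
      (Order.succ (beth (Order.succ (od i)))).ord := by
  refine ⟨ord_lt_ord.2 (Order.succ_lt_succ (beth_lt_beth.2 (Order.lt_succ _))),
    card_succ hb (succ_od_lt i).le p, fun γ hγ => injN_trans (B := Ch i) (injN_of_mk ?_ p)
      (inj_Ch hb i p)⟩
  rw [mk_Ch, mk_toType]
  exact Order.lt_succ_iff.1 (lt_ord.1 hγ)

theorem aron_of (hb : ∀ a : K, b0 ≤ a) (i : W1) (p : Fc (cD K b0)) :
    p ∈ AronN (Fc (cD K b0)) (Order.succ (beth (Order.succ (od i)))).ord := by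
  refine s_tree (Fc (cD K b0)) (Order.succ (beth (od i))) (beth (Order.succ (od i)))
    ((aleph0_le_beth _).trans (Order.le_succ _)) (succ_beth_le _) (fun x => ?_) (gv i)
    (genF_gv hb i) p
  have h1 : #(Iio x) ≤ beth (od i) := Order.lt_succ_iff.1 (mk_IioK x)
  rw [← power_def, mk_ord_toType]
  refine (power_le_power_left (beth_ne_zero _) h1).trans ?_
  rw [pow_succ_beth]

theorem aronPP_of (hb : ∀ a : K, b0 ≤ a) (i : W1) (p : Fc (cD K b0)) :
    p ∈ AronPP (Fc (cD K b0)) (beth (od i)).ord :=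
  mem_fex_of_mem _ (down_fex _) (mem_fex_of_mem _ (down_fand (down_SuccN _ _)
    (down_fand (down_SuccN _ _) (down_AronN _)))
    ⟨succ_of_beth hb (od_lt i).le p, succ_of_nu hb i p, aron_of hb i p⟩)

theorem card_beth (hb : ∀ a : K, b0 ≤ a) {o : Ordinal.{0}} (ho : o ≤ (ℵ₁ : Cardinal.{0}).ord)
    (hl : Order.IsSuccLimit o) (p : Fc (cD K b0)) : p ∈ CardN (Fc (cD K b0)) (beth o).ord := by
  intro β hβ q hq hI
  obtain ⟨a, ha, h2⟩ := (isNormal_beth.lt_iff_exists_lt hl).1 (lt_ord.1 hβ)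
  refine card_succ hb (ha.le.trans ho) q β (ord_lt_ord.2 (Order.lt_succ _) |>.trans_le' ?_) q le_rfl
    (injN_trans (B := (beth o).ord.ToType) (injN_of_mk ?_ q) hI)
  · exact (lt_ord.2 h2).le
  · rw [mk_ord_toType, mk_ord_toType]
    exact (succ_beth_le a).trans (beth_le_beth.2 (Order.succ_le_of_lt ha))

end

end Run7.h413
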