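import Mathlib
import Pool.Agent.Run7.h413.Fin1

set_option autoImplicit false
set_option linter.unusedSectionVars false
set_option linter.unusedVariables false

/-!
# Cofinality and stationarity
-/

namespace Run7.h413

open Set Cardinal Pool.Agent.Helper669.Forcing
open Pool.Agent.W873.Vi (Co Ik mk_IioK exists_seq W_bdd)
open Pool.Agent.W873.Ta (Pt Re Pre Rg Rg_mono)

/-- the ordinals below `κ` -/
abbrev Kt : Type := kap.ord.ToType

/-- `ℶ_i` as an element of `κ` -/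
noncomputable def bt (i : W1) : Kt :=
  Ordinal.ToType.mk ⟨(beth (od i)).ord, ord_lt_ord.2 (beth_lt_kap (od_lt i))⟩

theorem bt_val (i : W1) : (Ordinal.ToType.toOrd (bt i)).1 = (beth (od i)).ord := by
  simp [bt]

theorem Kt_lt {a b : Kt} : a < b ↔ (Ordinal.ToType.toOrd a).1 < (Ordinal.ToType.toOrd b).1 := by
  rw [Subtype.coe_lt_coe]
  exact ((Ordinal.ToType.mk (o := kap.ord)).symm.lt_iff_lt).symm

theorem bt_lt {i j : W1} : bt i < bt j ↔ i < j := by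
  rw [Kt_lt, bt_val, bt_val, ord_lt_ord, beth_lt_beth, od_lt_od]

theorem exists_lt_beth {o : Ordinal.{0}} (hl : Order.IsSuccLimit o) {a : Ordinal.{0}}
    (h : a < (beth o).ord) : ∃ o' < o, a < (beth o').ord := by
  obtain ⟨b, hb, h2⟩ := (isNormal_beth.lt_iff_exists_lt hl).1 (lt_ord.1 h)
  exact ⟨b, hb, lt_ord.2 h2⟩

theorem exists_lt_bt (a : Kt) : ∃ i, a < bt i := by
  have h0 : (Ordinal.ToType.toOrd a).1 < (beth (ℵ₁ : Cardinal.{0}).ord).ord :=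
    (Ordinal.ToType.toOrd a).2
  obtain ⟨o', ho', h⟩ := exists_lt_beth lim1 h0
  obtain ⟨i, hi⟩ := exists_od ho'
  refine ⟨i, ?_⟩
  rw [Kt_lt, bt_val, hi]
  exact h

theorem exists_gtW (i : W1) : ∃ j, i < j := by
  obtain ⟨j, hj⟩ := W_bdd {i} (countable_singleton i)
  exact ⟨j, hj i rfl⟩

section

variable {K : Type} [LinearOrder K] {b0 : K}

theorem sing_kap (hb : ∀ a : K, b0 ≤ a) (p : Fc (cD K b0)) :
    p ∈ SingN (Fc (cD K b0)) kap.ord := by
  classical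
  refine ⟨card_beth hb le_rfl lim1 p, ?_, ?_⟩
  · intro E
    refine mem_fimp.2 fun q _ hq => ?_
    obtain ⟨φ⟩ : Nonempty ((beth 0).ord.ToType ≃ ℕ) := Cardinal.eq.1 (by
      rw [mk_ord_toType, beth_zero, mk_nat])
    obtain ⟨u', hu', Y, hY, h⟩ := cov_all hb (o := 0) zero_le (fun x => E (φ x)) q (by
      intro x z z' t ht hz hz'
      exact IsFun.unique (down_IsFun _ _ hq _ ht) hz hz')
    have hYc : Y.Countable := by
      rw [beth_zero] at hY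
      exact le_aleph0_iff_set_countable.1 hY
    choose i hi using exists_lt_bt
    obtain ⟨δ, hδ⟩ := W_bdd (i '' Y) (hYc.image i)
    refine ⟨⟨q.p, u'⟩, Fc.mk_le le_rfl hu', mem_fex_of_mem (bt δ) (down_fall fun _ =>
      down_fall fun _ => down_fimp _ _) fun n a => mem_fimp.2 fun t ht ha => ⟨t, le_rfl, ?_⟩⟩
    have h1 : a ∈ Y := h (φ.symm n) a t ht (by rwa [φ.apply_symm_apply])
    exact (hi a).trans (bt_lt.2 (hδ _ ⟨a, h1, rfl⟩))
  · have h1 : (ℵ₁ : Cardinal.{0}).ord < kap.ord := by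
      refine ord_lt_ord.2 (lt_of_le_of_lt ?_ (beth_lt_kap (lim1.succ_lt (lim1.succ_lt
        (lim1.bot_lt)))))
      rw [← succ_aleph0]
      refine Order.succ_le_of_lt (lt_of_le_of_lt (aleph0_le_beth (Order.succ ⊥)) ?_)
      exact beth_lt_beth.2 (Order.lt_succ _)
    refine mem_fex_of_mem _ (down_fex _) (mem_fex_of_mem h1 (down_fex _) (mem_fex_of_mem
      (fun (x : W1) (a : Kt) => {_r : Fc (cD K b0) | a = bt x}) (down_fand (down_IsFun _)
        (down_fall fun _ => down_fex _)) ⟨⟨fun x => ?_, fun x a a' => ?_⟩, fun b => ?_⟩))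
    · exact mem_fex.2 fun q _ => ⟨q, le_rfl, bt x, meets_of_mem rfl⟩
    · refine mem_fimp.2 fun q _ hq => ⟨q, le_rfl, ?_⟩
      obtain ⟨_, _, _, h2, _⟩ := hq.1 q le_rfl
      obtain ⟨_, _, _, h3, _⟩ := hq.2 q le_rfl
      exact h2.trans h3.symm
    · obtain ⟨i, hi⟩ := exists_lt_bt b
      exact mem_fex_of_mem i (down_fex _) (mem_fex_of_mem (bt i) (down_fand (down_fground _)
        (down_meets _)) ⟨hi.le, meets_of_mem rfl⟩)

/-- `C` meets the interval from `ℶ_i` to `ℶ_j` -/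
def Fi (C : Kt → Set (Fc (cD K b0))) (i j : W1) : Set (Fc (cD K b0)) :=
  fex fun c : Kt => fand (fground (bt i ≤ c ∧ c < bt j)) (meets (C c))

theorem Fi_mono {C : Kt → Set (Fc (cD K b0))} {i j j' : W1} (h : j ≤ j') {p : Fc (cD K b0)}
    (hp : p ∈ Fi C i j) : p ∈ Fi C i j' := by
  refine mem_fex.2 fun q hq => ?_
  obtain ⟨r, hr, c, hc⟩ := mem_fex.1 hp q hq
  refine ⟨r, hr, c, ⟨hc.1.1, hc.1.2.trans_le ?_⟩, hc.2⟩
  by_contra hcon
  exact absurd (bt_lt.1 (not_le.1 hcon)) (not_lt.2 h)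

theorem club_step (hb : ∀ a : K, b0 ≤ a) {C : Kt → Set (Fc (cD K b0))} {q : Fc (cD K b0)}
    (hC : q ∈ ClubN kap.ord C) (u : Un (cD K b0)) (hu : u ≤ q.u) (i : W1) :
    ∃ u' ≤ u, ∃ i', i < i' ∧ (⟨q.p, u'⟩ : Fc (cD K b0)) ∈ Fi C i i' := by
  classical
  have hdn : ∀ j, Down {t : Fc (cD K b0) | t ∈ Fi C i j ∧ ∀ j' < j, t ∈ fnot (Fi C i j')} :=
    fun j t ht s hs => ⟨down_fex _ _ ht.1 _ hs, fun j' hj' => down_fnot _ _ (ht.2 j' hj') _ hs⟩
  obtain ⟨u', hu', Y, hY, h⟩ := cov_all hb (o := 0) zero_le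
    (fun (_ : (beth 0).ord.ToType) (j : W1) =>
      {t : Fc (cD K b0) | t ∈ Fi C i j ∧ ∀ j' < j, t ∈ fnot (Fi C i j')}) ⟨q.p, u⟩ (by
    intro _ j j' t ht h h'
    obtain ⟨t1, ht1, h1⟩ := exists_of_meets (hdn j) h
    obtain ⟨t2, ht2, h2⟩ := exists_of_meets (hdn j') (md h' ht1)
    have h3 := hdn j t1 h1 t2 ht2
    rcases lt_trichotomy j j' with hl | hl | hl
    · exact absurd h3.1 (h2.2 j hl t2 le_rfl)
    · exact hl
    · exact absurd h2.1 (h3.2 j' hl t2 le_rfl))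
  have hYc : Y.Countable := by
    rw [beth_zero] at hY
    exact le_aleph0_iff_set_countable.1 hY
  obtain ⟨i', hi'⟩ := W_bdd (insert i Y) (hYc.insert i)
  have hx : Nonempty (beth 0).ord.ToType := by
    rw [← mk_ne_zero_iff, mk_ord_toType]
    exact beth_ne_zero _
  obtain ⟨x⟩ := hx
  refine ⟨u', hu', i', hi' i (mem_insert _ _), mem_fex.2 fun t ht => ?_⟩
  have htq : t ≤ q := ht.trans (Fc.mk_le le_rfl (hu'.trans hu))
  obtain ⟨t1, ht1, c, hc⟩ := mem_fex.1 (hC.1 (bt i)) t htq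
  obtain ⟨j, hj⟩ := exists_lt_bt c
  have hne : {j : W1 | ∃ s ≤ t1, s ∈ Fi C i j}.Nonempty := by
    refine ⟨j, t1, le_rfl, mem_fex_of_mem c (down_fand (down_fground _) (down_meets _))
      ⟨⟨hc.1, hj⟩, hc.2⟩⟩
  obtain ⟨j0, ⟨s, hs, hs0⟩, hmin⟩ := WellFounded.has_min (wellFounded_lt (α := W1)) _ hne
  have h1 : j0 ∈ Y := h x j0 s (hs.trans (ht1.trans ht)) (meets_of_mem ⟨hs0, fun j' hj' s' hs' h2 =>
    hmin j' ⟨s', hs'.trans hs, h2⟩ hj'⟩)
  obtain ⟨s1, hs1, c', hc'⟩ := mem_fex.1 (Fi_mono (hi' j0 (mem_insert_of_mem _ h1)).le hs0) s le_rfl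
  exact ⟨s1, (hs1.trans hs).trans ht1, c', hc'⟩

theorem stat_kap (hb : ∀ a : K, b0 ≤ a) (p : Fc (cD K b0)) :
    p ∈ StatN (Fc (cD K b0)) kap.ord := by
  classical
  intro C
  refine mem_fimp.2 fun q _ hC => ?_
  have hC' : q ∈ ClubN kap.ord C := hC
  have hW : Nonempty W1 := by
    rw [← mk_ne_zero_iff, mk_W1]
    exact aleph0_lt_aleph_one.ne_bot
  obtain ⟨w0⟩ := hW
  obtain ⟨f, hf0, hf⟩ := exists_seq (S := {s : Un (cD K b0) × W1 // s.1 ≤ q.u})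
    (fun n s s' => s'.1.1 ≤ s.1.1 ∧ s.1.2 < s'.1.2 ∧
      (⟨q.p, s'.1.1⟩ : Fc (cD K b0)) ∈ Fi C s.1.2 s'.1.2)
    ⟨(q.u, w0), le_rfl⟩ (by
    rintro n ⟨⟨u, i⟩, h1⟩
    obtain ⟨u', hu', i', hi', h2⟩ := club_step hb hC' u h1 i
    exact ⟨⟨(u', i'), hu'.trans h1⟩, hu', hi', h2⟩)
  obtain ⟨w, hw⟩ := Un.exists_lb_nat (fun n => (f n).1.1) fun n => (hf n).1
  obtain ⟨δ, hδ, hmin⟩ := WellFounded.has_min (wellFounded_lt (α := W1))
    {j | ∀ n, (f n).1.2 < j} (by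
      obtain ⟨j, hj⟩ := W_bdd (range fun n => (f n).1.2) (countable_range _)
      exact ⟨j, fun n => hj _ ⟨n, rfl⟩⟩)
  have hmin' : ∀ j < δ, ∃ n, j ≤ (f n).1.2 := by
    intro j hj
    by_contra hcon
    push Not at hcon
    exact hmin j hcon hj
  have hlim : Order.IsSuccLimit (od δ) := by
    rcases Ordinal.zero_or_succ_or_isSuccLimit (od δ) with h0 | ⟨a, ha⟩ | h0
    · have h1 := od_lt_od.2 (hδ 0)
      rw [h0] at h1
      exact absurd h1 not_lt_zero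
    · have h1 : a < od δ := by
        rw [← ha]
        exact Order.lt_succ a
      obtain ⟨j, hj⟩ := exists_od (h1.trans (od_lt δ))
      rw [← hj, od_lt_od] at h1
      obtain ⟨n, hn⟩ := hmin' j h1
      have h2 := od_lt_od.2 (hδ (n + 1))
      have h3 : a < od (f (n + 1)).1.2 := by
        rw [← hj]
        exact od_lt_od.2 (hn.trans_lt (hf n).2.1)
      rw [← ha] at h2
      exact absurd (Order.lt_succ_iff.1 h2) (not_le.2 h3)
    · exact h0
  let r : Fc (cD K b0) := ⟨q.p, w⟩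
  have hrq : r ≤ q := by
    have := hw 0
    exact Fc.mk_le le_rfl (this.trans (f 0).2)
  have h1 : r ∈ fall fun a : kap.ord.ToType => fall fun _ : a < bt δ =>
      fex fun c : kap.ord.ToType => fand (fground (a < c ∧ c < bt δ)) (meets (C c)) := by
    intro a ha
    rw [Kt_lt, bt_val] at ha
    obtain ⟨o', ho', h2⟩ := exists_lt_beth hlim ha
    obtain ⟨j, hj⟩ := exists_od (ho'.trans (od_lt δ))
    rw [← hj, od_lt_od] at ho'
    obtain ⟨n, hn⟩ := hmin' j ho'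
    have h3 : a < bt (f n).1.2 := by
      rw [Kt_lt, bt_val]
      refine h2.trans_le (ord_le_ord.2 (beth_le_beth.2 ?_))
      rw [← hj]
      by_contra hcon
      exact absurd (od_lt_od.1 (not_le.1 hcon)) (not_lt.2 hn)
    refine mem_fex.2 fun s hs => ?_
    have h4 : s ≤ ⟨q.p, (f (n + 1)).1.1⟩ := hs.trans (Fc.mk_le le_rfl (hw _))
    obtain ⟨t, ht, c, hc⟩ := mem_fex.1 (hf n).2.2 s h4
    exact ⟨t, ht, c, ⟨h3.trans_le hc.1.1, hc.1.2.trans (bt_lt.2 (hδ _))⟩, hc.2⟩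
  have hex : ∃ a, a < bt δ := ⟨bt (f 0).1.2, bt_lt.2 (hδ 0)⟩
  obtain ⟨r', hr', h2⟩ := mem_fimp.1 (hC'.2 (bt δ) hex) r hrq h1
  refine ⟨r', hr'.trans hrq, mem_fex_of_mem (bt δ) (down_fand (down_meets _)
    (down_fand (down_CardN _) (down_AronPP _))) ⟨h2, ?_, ?_⟩⟩
  · rw [bt_val]
    exact card_beth hb (od_lt δ).le hlim r'
  · rw [bt_val]
    exact aronPP_of hb δ r'

end

end Run7.h413
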