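import Mathlib
import Pool.Agent.Run7.h413.Fin2

set_option autoImplicit false
set_option linter.unusedSectionVars false
set_option linter.unusedVariables false

/-!
# The negative answer
-/

namespace Run7.h413

open Set Cardinal Filter Pool.Agent.Helper669.Forcing
open Pool.Agent.W873.Vi (Co Ik mk_IioK)
open Pool.Agent.W873.Ta (NM IsMeasurable)

theorem negQ_mem {lam : Cardinal.{0}} {V : Ultrafilter (Ik lam)} (h : NM lam V) {b0 : Ik lam}
    (hb : ∀ a, b0 ≤ a) (p : Fc (cD (Ik lam) b0)) : p ∈ NegQ (Fc (cD (Ik lam) b0)) := by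
  have hk : kap < lam := by
    rw [← h.ina.beth_ord]
    exact beth_lt_beth.2 (ord_lt_ord.2 (Pool.Agent.W873.Vi.aleph1_lt h.ina))
  have hD := sml_cD b0 hk
  have hlt : Order.succ kap < lam := succ_lt_ina h.ina hk
  have hcoll : ∀ γ : Ordinal.{0}, γ < lam.ord → p ∈ InjN (Fc (cD (Ik lam) b0)) γ.ToType Kp := by
    intro γ hγ
    obtain ⟨a, ha⟩ := Pool.Agent.W873.Tp.exists_mk_Iio (κ := lam) (mk_lt_of_lt_ord hγ)
    exact injN_trans (B := Iio a) (injN_of_mk ha.ge p) (coll_seg a p)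
  refine mem_fex_of_mem kap.ord (down_fand (down_SingN _) (down_fand (down_StatN _) (down_fex _)))
    ⟨sing_kap hb p, stat_kap hb p, ?_⟩
  refine mem_fex_of_mem (Order.succ kap).ord (down_fex _) (mem_fex_of_mem lam.ord
    (down_fand (down_SuccN _ _) (down_fand (down_SuccN _ _) (down_fnot _)))
    ⟨succ_of_beth hb le_rfl p, ⟨ord_lt_ord.2 hlt, card_lam hD h p, hcoll⟩, no_aron hD h p⟩)

/-- the main theorem -/
theorem main (lam : Cardinal.{0}) (h : IsMeasurable lam) :
    ∃ (P : Type) (_ : Preorder P), Nonempty P ∧ ∀ p : P, p ∈ NegQ P := by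
  obtain ⟨V, hV⟩ := Pool.Agent.W873.Ta.exists_NM h
  have hne : Nonempty (Ik lam) := by
    rw [← mk_ne_zero_iff, mk_ord_toType]
    exact (aleph0_pos.trans hV.unc).ne'
  obtain ⟨b0, _, hmin⟩ := WellFounded.has_min (wellFounded_lt (α := Ik lam)) Set.univ
    univ_nonempty
  exact ⟨Fc (cD (Ik lam) b0), inferInstance, inferInstance,
    negQ_mem hV fun a => not_lt.1 (hmin a (mem_univ a))⟩

end Run7.h413
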