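import Mathlib
import Pool.Agent.Run7.h413.Fin3
import Pool.Agent.Run7.h413.Defs2

set_option autoImplicit false
set_option linter.unusedSectionVars false
set_option linter.unusedVariables false

/-!
# All infinite cardinals below `κ`
-/

namespace Run7.h413

open Set Cardinal Pool.Agent.Helper669.Forcing
open Pool.Agent.W873.Vi (Co Ik mk_IioK exists_seq W_bdd)
open Pool.Agent.W873.Ta (NM IsMeasurable)

section

variable {K : Type} [LinearOrder K] {b0 : K}

theorem exists_succW (i : W1) : ∃ j : W1, od j = Order.succ (od i) := exists_od (succ_od_lt i)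

theorem aronPP_nu (hb : ∀ a : K, b0 ≤ a) (i : W1) (p : Fc (cD K b0)) :
    p ∈ AronPP (Fc (cD K b0)) (Order.succ (beth (od i))).ord := by
  obtain ⟨j, hj⟩ := exists_succW i
  have h1 := succ_of_nu hb i p
  have h2 := succ_of_nu hb j p
  have h3 := aron_of hb j p
  rw [hj] at h2 h3
  exact mem_fex_of_mem _ (down_fex _) (mem_fex_of_mem _ (down_fand (down_SuccN _ _)
    (down_fand (down_SuccN _ _) (down_AronN _))) ⟨h1, h2, h3⟩)

/-- an infinite ordinal which injects into a smaller one is not a cardinal -/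
theorem not_card {P : Type} [Preorder P] {p : P} {b c : Ordinal.{0}} (h : p ∈ CardN P b)
    (hc : c < b) (hi : p ∈ InjN P b.ToType c.ToType) : False := h c hc p le_rfl hi

theorem all_kap (hb : ∀ a : K, b0 ≤ a) (p : Fc (cD K b0)) :
    p ∈ AllN (Fc (cD K b0)) kap.ord := by
  classical
  intro x
  refine mem_fimp.2 fun q _ hq => ⟨q, le_rfl, ?_⟩
  obtain ⟨hω, hcard⟩ := hq
  have hω' : Ordinal.omega0 ≤ (Ordinal.ToType.toOrd x).1 := hω
  obtain ⟨i0, hi0⟩ := exists_lt_bt x
  rw [Kt_lt, bt_val] at hi0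
  generalize (Ordinal.ToType.toOrd x).1 = b at hω' hcard hi0 ⊢
  obtain ⟨i, hi, hmin⟩ := WellFounded.has_min (wellFounded_lt (α := W1))
    {i | b < (Order.succ (beth (od i))).ord} ⟨i0, hi0.trans (ord_lt_ord.2 (Order.lt_succ _))⟩
  have hi' : b < (Order.succ (beth (od i))).ord := hi
  have hmin' : ∀ j < i, (Order.succ (beth (od j))).ord ≤ b := fun j hj => not_lt.1 fun h =>
    hmin j h hj
  have hbc : b.card ≤ beth (od i) := Order.lt_succ_iff.1 (lt_ord.1 hi')
  -- the case of `ν_j ≤ b`, `b` of size at most `ℶ_{j+1}`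
  have key : ∀ j : W1, (Order.succ (beth (od j))).ord ≤ b → b.card ≤ beth (Order.succ (od j)) →
      q ∈ AronPP (Fc (cD K b0)) b := by
    intro j h1 h2
    rcases h1.eq_or_lt with h3 | h3
    · rw [← h3]
      exact aronPP_nu hb j q
    · exact absurd (injN_trans (B := Ch j) (injN_of_mk (by rw [mk_toType, mk_Ch]; exact h2) q)
        (inj_Ch hb j q)) (fun h => not_card hcard h3 h)
  rcases lt_trichotomy b (beth (od i)).ord with hl | hl | hl
  · rcases Ordinal.zero_or_succ_or_isSuccLimit (od i) with h0 | ⟨a, ha⟩ | h0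
    · rw [h0, beth_zero, ord_aleph0] at hl
      exact absurd hl (not_lt.2 hω')
    · have ha' : a < od i := by
        rw [← ha]
        exact Order.lt_succ a
      obtain ⟨j, hj⟩ := exists_od (ha'.trans (od_lt i))
      refine key j (hmin' j (by rw [← od_lt_od, hj]; exact ha')) ?_
      rw [hj]
      have h3 : Order.succ a = od i := ha
      rw [h3]
      exact hbc
    · obtain ⟨a, ha, h2⟩ := exists_lt_beth h0 hl
      obtain ⟨j, hj⟩ := exists_od (ha.trans (od_lt i))
      have h3 := hmin' j (by rw [← od_lt_od, hj]; exact ha)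
      rw [hj] at h3
      exact absurd (h2.trans (ord_lt_ord.2 (Order.lt_succ _))) (not_lt.2 h3)
  · rcases Ordinal.zero_or_succ_or_isSuccLimit (od i) with h0 | ⟨a, ha⟩ | h0
    · rw [hl]
      exact aronPP_of hb i q
    · have ha' : a < od i := by
        rw [← ha]
        exact Order.lt_succ a
      obtain ⟨j, hj⟩ := exists_od (ha'.trans (od_lt i))
      refine key j (hmin' j (by rw [← od_lt_od, hj]; exact ha')) ?_
      rw [hj]
      have h3 : Order.succ a = od i := ha
      rw [h3]
      exact hbc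
    · rw [hl]
      exact aronPP_of hb i q
  · refine absurd (injN_of_mk (A := b.ToType) (B := (beth (od i)).ord.ToType) ?_ q)
      fun h => not_card hcard hl h
    rw [mk_toType, mk_ord_toType]
    exact hbc

end

theorem negA_mem {lam : Cardinal.{0}} {V : Ultrafilter (Ik lam)} (h : NM lam V) {b0 : Ik lam}
    (hb : ∀ a, b0 ≤ a) (p : Fc (cD (Ik lam) b0)) : p ∈ NegA (Fc (cD (Ik lam) b0)) := by
  have hk : kap < lam := by
    rw [← h.ina.beth_ord]
    exact beth_lt_beth.2 (ord_lt_ord.2 (Pool.Agent.W873.Vi.aleph1_lt h.ina))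
  have hD := sml_cD b0 hk
  have hlt : Order.succ kap < lam := succ_lt_ina h.ina hk
  have hcoll : ∀ γ : Ordinal.{0}, γ < lam.ord → p ∈ InjN (Fc (cD (Ik lam) b0)) γ.ToType Kp := by
    intro γ hγ
    obtain ⟨a, ha⟩ := Pool.Agent.W873.Tp.exists_mk_Iio (κ := lam) (mk_lt_of_lt_ord hγ)
    exact injN_trans (B := Iio a) (injN_of_mk ha.ge p) (coll_seg a p)
  refine mem_fex_of_mem kap.ord (down_fand (down_SingN _) (down_fand (down_fall fun _ =>
    down_fimp _ _) (down_fand (down_StatN _) (down_fex _))))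
    ⟨sing_kap hb p, all_kap hb p, stat_kap hb p, ?_⟩
  refine mem_fex_of_mem (Order.succ kap).ord (down_fex _) (mem_fex_of_mem lam.ord
    (down_fand (down_SuccN _ _) (down_fand (down_SuccN _ _) (down_fnot _)))
    ⟨succ_of_beth hb le_rfl p, ⟨ord_lt_ord.2 hlt, card_lam hD h p, hcoll⟩, no_aron hD h p⟩)

theorem isMeasurable_of {lam : Cardinal.{0}} (h : Meas lam) : IsMeasurable lam := by
  obtain ⟨h0, V, h1, h2⟩ := h
  refine ⟨h0, V, fun ι A hι hA => ?_, fun a => ?_⟩
  · have h3 := h1 ι (fun i => {m | A i m}) hι hA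
    filter_upwards [h3] with m hm i
    exact mem_iInter.1 hm i
  · have h3 : {a}ᶜ ∈ V := Ultrafilter.compl_mem_iff_notMem.2 (h2 a)
    exact h3

/-- the main theorem, stronger form -/
theorem mainA (lam : Cardinal.{0}) (h : Meas lam) :
    ∃ (P : Type) (_ : Preorder P), Nonempty P ∧ ∀ p : P, p ∈ NegA P := by
  obtain ⟨V, hV⟩ := Pool.Agent.W873.Ta.exists_NM (isMeasurable_of h)
  have hne : Nonempty (Ik lam) := by
    rw [← mk_ne_zero_iff, mk_ord_toType]
    exact (aleph0_pos.trans hV.unc).ne'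
  obtain ⟨b0, _, hmin⟩ := WellFounded.has_min (wellFounded_lt (α := Ik lam)) Set.univ
    univ_nonempty
  exact ⟨Fc (cD (Ik lam) b0), inferInstance, inferInstance,
    negA_mem hV fun a => not_lt.1 (hmin a (mem_univ a))⟩

end Run7.h413
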